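import Pool.Agent.H147R2.RI.FDef
import Pool.Agent.H779R2.To.TMain

set_option autoImplicit false

namespace Pool.Agent.H147R2.RI

open Pool.Agent.H779R2.To Filter Topology

variable {V Z Γ : Type*} [NormedAddCommGroup V] [InnerProductSpace ℝ V] [MetricSpace Z] [Group Γ]

theorem F1_cont (R : RDat V Z Γ) (a : Γ) : Continuous (R.act a) := by
  unfold RDat.act
  exact (((R.L a).continuous.comp continuous_fst).add continuous_const).prodMk
    ((R.σ a).continuous.comp continuous_snd)

/-- F1a: the action is free. -/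
theorem act_free [ConnectedSpace (V × Z)] (R : RDat V Z Γ) {X : Type*} [TopologicalSpace X]
    (P : V × Z → X) (hP : IsCoveringMap P)
    (hfib : ∀ y y', P y = P y' ↔ ∃ a, y' = R.act a y) (a : Γ) (y : V × Z)
    (h : R.act a y = y) : a = 1 := by
  have h1 : R.act a = fun z => z := by
    refine hP.eq_of_comp_eq (F1_cont R a) continuous_id ?_ y h
    funext z
    show P (R.act a z) = P z
    exact ((hfib z (R.act a z)).2 ⟨a, rfl⟩).symm
  have h2 : ∀ v : V, R.L a v + R.b a = v := by
    intro v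
    have h3 := congrFun h1 (v, y.2)
    exact congrArg Prod.fst h3
  have hb : R.b a = 0 := by
    have h3 := h2 0
    rw [map_zero, zero_add] at h3
    exact h3
  have hL : R.L a = 1 := by
    ext v
    have h3 := h2 v
    rw [hb, add_zero] at h3
    exact h3
  exact R.inj a hL hb

theorem F1_eq [ConnectedSpace (V × Z)] (R : RDat V Z Γ) {X : Type*} [TopologicalSpace X]
    (P : V × Z → X) (hP : IsCoveringMap P)
    (hfib : ∀ y y', P y = P y' ↔ ∃ a, y' = R.act a y) {a c : Γ} {y : V × Z}
    (h : R.act a y = R.act c y) : a = c := by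
  have h1 : R.act (c⁻¹ * a) y = y := by
    rw [R.act_mul, h, ← R.act_mul, inv_mul_cancel, R.act_one]
  have h2 := act_free R P hP hfib _ _ h1
  exact (inv_mul_eq_one.mp h2).symm

/-- F1c: two lifts of the same map differ by an element of the group. -/
theorem exists_delta' [ConnectedSpace (V × Z)] (R : RDat V Z Γ) {X : Type*} [TopologicalSpace X]
    (P : V × Z → X) (hP : IsCoveringMap P)
    (hfib : ∀ y y', P y = P y' ↔ ∃ a, y' = R.act a y) (F F' : V × Z → V × Z) (hF : Continuous F)
    (hF' : Continuous F') (h : ∀ y, P (F y) = P (F' y)) :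
    ∃ δ : Γ, ∀ y, F y = R.act δ (F' y) := by
  obtain ⟨y0⟩ : Nonempty (V × Z) := inferInstance
  obtain ⟨a, ha⟩ := (hfib (F' y0) (F y0)).1 (h y0).symm
  refine ⟨a, fun y => ?_⟩
  have h1 : F = fun y => R.act a (F' y) := by
    refine hP.eq_of_comp_eq hF ((F1_cont R a).comp hF') ?_ y0 ha
    funext z
    show P (F z) = P (R.act a (F' z))
    rw [h z]
    exact (hfib _ _).2 ⟨a, rfl⟩
  exact congrFun h1 y

/-- F1b: a lift of a homeomorphism normalizes the group. -/
theorem exists_psi' [ConnectedSpace (V × Z)] (R : RDat V Z Γ) {X : Type*} [TopologicalSpace X]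
    (P : V × Z → X) (hP : IsCoveringMap P)
    (hfib : ∀ y y', P y = P y' ↔ ∃ a, y' = R.act a y) (f : X ≃ₜ X) (F : V × Z ≃ₜ V × Z)
    (hF : ∀ y, P (F y) = f (P y)) : ∃ ψ : Γ ≃* Γ, ∀ a y, F (R.act a y) = R.act (ψ a) (F y) := by
  have hinv : ∀ a z, P (R.act a z) = P z := fun a z => ((hfib z (R.act a z)).2 ⟨a, rfl⟩).symm
  have h1 : ∀ a, ∃ δ : Γ, ∀ y, F (R.act a y) = R.act δ (F y) := fun a =>
    exists_delta' R P hP hfib (fun y => F (R.act a y)) F (F.continuous.comp (F1_cont R a))
      F.continuous (fun y => by rw [hF, hF, hinv])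
  choose ψ hψ using h1
  obtain ⟨y0⟩ : Nonempty (V × Z) := inferInstance
  have hψmul : ∀ a c, ψ (a * c) = ψ a * ψ c := by
    intro a c
    refine F1_eq R P hP hfib (y := F y0) ?_
    rw [← hψ, R.act_mul, hψ, hψ, R.act_mul]
  have hsymm : ∀ z, P (F.symm z) = f.symm (P z) := by
    intro z
    have := hF (F.symm z)
    rw [F.apply_symm_apply] at this
    rw [this, f.symm_apply_apply]
  refine ⟨MulEquiv.ofBijective (MonoidHom.mk' ψ hψmul) ⟨?_, ?_⟩, fun a y => hψ a y⟩
  · intro a c hac
    have hac' : ψ a = ψ c := hac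
    refine F1_eq R P hP hfib (y := y0) (F.injective ?_)
    rw [hψ, hψ, hac']
  · intro c
    obtain ⟨a, ha⟩ := exists_delta' R P hP hfib (fun y => F.symm (R.act c (F y))) (fun y => y)
      (F.symm.continuous.comp ((F1_cont R c).comp F.continuous)) continuous_id
      (fun y => by rw [hsymm, hinv, hF, f.symm_apply_apply])
    refine ⟨a, ?_⟩
    show ψ a = c
    refine F1_eq R P hP hfib (y := F y0) ?_
    rw [← hψ, ← ha y0, F.apply_symm_apply]

end Pool.Agent.H147R2.RI
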