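import Pool.Agent.H147R2.RI.FDef
import Pool.Agent.H779R2.To.TMain

set_option autoImplicit false

namespace Pool.Agent.H147R2.RI

open Pool.Agent.H779R2.To Filter Topology

variable {V Z Γ : Type*} [NormedAddCommGroup V] [InnerProductSpace ℝ V] [MetricSpace Z] [Group Γ]

/-- iterates of an automorphism as homomorphisms -/
def F2_it (ψ : Γ ≃* Γ) : ℕ → (Γ →* Γ)
  | 0 => MonoidHom.id Γ
  | i + 1 => ψ.toMonoidHom.comp (F2_it ψ i)

theorem F2_it_apply (ψ : Γ ≃* Γ) (i : ℕ) (a : Γ) : F2_it ψ i a = ψ^[i] a := by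
  induction i with
  | zero => rfl
  | succ i ih =>
    rw [Function.iterate_succ_apply', ← ih]
    rfl

theorem F2_it_surj (ψ : Γ ≃* Γ) (i : ℕ) : Function.Surjective (F2_it ψ i) := by
  induction i with
  | zero => exact Function.surjective_id
  | succ i ih => exact ψ.surjective.comp ih

/-- the iterated elements -/
def F2_d (φ : Γ ≃* Γ) (δ : Γ) : ℕ → Γ
  | 0 => 1
  | j + 1 => δ * φ (F2_d φ δ j)

/-- F2: an invariant subgroup of finite index consisting of translations, and a power of the lift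
which agrees with a power of the normalizing map up to this subgroup. -/
theorem exists_sub (R : RDat V Z Γ) (hL : R.L.ker.FiniteIndex)
    (hfree : ∀ (a : Γ) (y : V × Z), R.act a y = y → a = 1) [Nonempty Z]
    (F : V × Z ≃ₜ V × Z) (ψ : Γ ≃* Γ) (hψ : ∀ a y, F (R.act a y) = R.act (ψ a) (F y)) (n : ℕ)
    (hn : 1 ≤ n) (δ : Γ) (hδ : ∀ y, F^[n] y = R.act δ (R.gt y)) :
    ∃ Δ : Subgroup Γ, Δ.Normal ∧ Δ.FiniteIndex ∧ (∀ a ∈ Δ, R.L a = 1) ∧
      (∀ a, ψ a ∈ Δ ↔ a ∈ Δ) ∧ (∀ a, R.φ a ∈ Δ ↔ a ∈ Δ) ∧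
      ∃ k : ℕ, 1 ≤ k ∧ ∃ δ' ∈ Δ, ∀ y, F^[n * k] y = R.act δ' (R.gt^[k] y) := by
  have uniq : ∀ (a c : Γ) (y : V × Z), R.act a y = R.act c y → a = c := by
    intro a c y h
    have h1 : R.act (c⁻¹ * a) y = y := by
      rw [R.act_mul, h, ← R.act_mul, inv_mul_cancel, R.act_one]
    have h2 := hfree _ _ h1
    exact (inv_mul_eq_one.1 h2).symm
  have gtact : ∀ (a : Γ) (y : V × Z), R.gt (R.act a y) = R.act (R.φ a) (R.gt y) := by
    intro a y
    refine Prod.ext ?_ ?_
    · show R.A (R.L a y.1 + R.b a) = R.L (R.φ a) (R.A y.1) + R.b (R.φ a)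
      rw [map_add, R.L_φ, R.b_φ]
    · show R.G (R.σ a y.2) = R.σ (R.φ a) (R.G y.2)
      exact R.G_σ a y.2
  have Fit : ∀ (j : ℕ) (a : Γ) (y : V × Z), F^[j] (R.act a y) = R.act (ψ^[j] a) (F^[j] y) := by
    intro j
    induction j with
    | zero => intro a y; rfl
    | succ j ih =>
      intro a y
      rw [Function.iterate_succ_apply', Function.iterate_succ_apply', Function.iterate_succ_apply',
        ih, hψ]
  obtain ⟨z⟩ := ‹Nonempty Z›
  have hrel : ∀ a : Γ, ψ^[n] a * δ = δ * R.φ a := by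
    intro a
    have y : V × Z := (0, z)
    apply uniq _ _ (R.gt y)
    rw [R.act_mul, R.act_mul, ← hδ, ← gtact, ← hδ, Fit]
  have hconj : ∀ a : Γ, ψ^[n] a = δ * R.φ a * δ⁻¹ := by
    intro a
    rw [← hrel a, mul_inv_cancel_right]
  set K : Subgroup Γ := R.L.ker with hK
  have hKφ : ∀ a : Γ, R.φ a ∈ K ↔ a ∈ K := by
    intro a
    rw [hK, MonoidHom.mem_ker, MonoidHom.mem_ker]
    constructor
    · intro h
      apply LinearIsometryEquiv.ext
      intro v
      have h1 := R.L_φ a v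
      rw [h] at h1
      exact (R.A.injective h1).symm
    · intro h
      apply LinearIsometryEquiv.ext
      intro w
      obtain ⟨v, rfl⟩ := R.A.surjective w
      rw [R.L_φ a v, h]
      rfl
  have hKn : K.Normal := by
    rw [hK]
    infer_instance
  have hKconj : ∀ g a : Γ, g * a * g⁻¹ ∈ K ↔ a ∈ K := by
    intro g a
    constructor
    · intro h
      have := hKn.conj_mem _ h g⁻¹
      have e : g⁻¹ * (g * a * g⁻¹) * g⁻¹⁻¹ = a := by group
      rwa [e] at this
    · intro h
      exact hKn.conj_mem _ h g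
  have hKψ : ∀ a : Γ, ψ^[n] a ∈ K ↔ a ∈ K := by
    intro a
    rw [hconj a, hKconj, hKφ]
  let Δ : Subgroup Γ := ⨅ i : Fin n, K.comap (F2_it ψ i)
  have hmem0 : ∀ a : Γ, a ∈ Δ ↔ ∀ i < n, ψ^[i] a ∈ K := by
    intro a
    show a ∈ (⨅ i : Fin n, K.comap (F2_it ψ i)) ↔ _
    rw [Subgroup.mem_iInf]
    constructor
    · intro h i hi
      have := h ⟨i, hi⟩
      rw [Subgroup.mem_comap, F2_it_apply] at this
      exact this
    · intro h i
      rw [Subgroup.mem_comap, F2_it_apply]
      exact h i i.2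
  have hmem : ∀ a : Γ, a ∈ Δ ↔ ∀ i, ψ^[i] a ∈ K := by
    intro a
    rw [hmem0]
    constructor
    · intro h i
      induction i using Nat.strong_induction_on with
      | _ i ih =>
        by_cases hi : i < n
        · exact h i hi
        · have h1 := ih (i - n) (by omega)
          have h2 := (hKψ (ψ^[i - n] a)).2 h1
          rw [← Function.iterate_add_apply] at h2
          have e : n + (i - n) = i := by omega
          rwa [e] at h2
    · intro h i _
      exact h i
  have hΔn : Δ.Normal := by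
    refine ⟨?_⟩
    intro a ha g
    rw [hmem] at ha ⊢
    intro i
    have e : ψ^[i] (g * a * g⁻¹) = ψ^[i] g * ψ^[i] a * (ψ^[i] g)⁻¹ := by
      rw [← F2_it_apply, ← F2_it_apply, ← F2_it_apply, map_mul, map_mul, map_inv]
    rw [e, hKconj]
    exact ha i
  have hΔf : Δ.FiniteIndex := by
    have : ∀ i : Fin n, (K.comap (F2_it ψ i)).FiniteIndex := by
      intro i
      rw [Subgroup.finiteIndex_iff, Subgroup.index_comap_of_surjective _ (F2_it_surj ψ i)]
      exact Subgroup.finiteIndex_iff.1 hL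
    exact Subgroup.finiteIndex_iInf this
  have hΔψ : ∀ a : Γ, ψ a ∈ Δ ↔ a ∈ Δ := by
    intro a
    rw [hmem, hmem]
    constructor
    · intro h i
      have h1 := h (i + (n - 1))
      rw [← Function.iterate_succ_apply] at h1
      have e : (i + (n - 1)).succ = n + i := by omega
      rw [e, Function.iterate_add_apply, hKψ] at h1
      exact h1
    · intro h i
      rw [← Function.iterate_succ_apply]
      exact h _
  have hΔψn : ∀ (j : ℕ) (a : Γ), ψ^[j] a ∈ Δ ↔ a ∈ Δ := by
    intro j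
    induction j with
    | zero => intro a; rfl
    | succ j ih =>
      intro a
      rw [Function.iterate_succ_apply', hΔψ, ih]
  have hΔconj : ∀ g a : Γ, g * a * g⁻¹ ∈ Δ ↔ a ∈ Δ := by
    intro g a
    constructor
    · intro h
      have := hΔn.conj_mem _ h g⁻¹
      have e : g⁻¹ * (g * a * g⁻¹) * g⁻¹⁻¹ = a := by group
      rwa [e] at this
    · intro h
      exact hΔn.conj_mem _ h g
  have hΔφ : ∀ a : Γ, R.φ a ∈ Δ ↔ a ∈ Δ := by
    intro a
    rw [← hΔψn n a, hconj a, hΔconj]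
  refine ⟨Δ, hΔn, hΔf, ?_, hΔψ, hΔφ, ?_⟩
  · intro a ha
    have := (hmem a).1 ha 0
    exact MonoidHom.mem_ker.1 this
  · have hd : ∀ (j : ℕ) (y : V × Z), F^[n * j] y = R.act (F2_d R.φ δ j) (R.gt^[j] y) := by
      intro j
      induction j with
      | zero =>
        intro y
        rw [Nat.mul_zero]
        show y = R.act 1 y
        rw [R.act_one]
      | succ j ih =>
        intro y
        have e : n * (j + 1) = n + n * j := by ring
        rw [e, Function.iterate_add_apply, ih, hδ, gtact, ← R.act_mul,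
          Function.iterate_succ_apply']
        rfl
    have hdown : ∀ i j : ℕ, (F2_d R.φ δ i)⁻¹ * F2_d R.φ δ (i + j) ∈ Δ → F2_d R.φ δ j ∈ Δ := by
      intro i
      induction i with
      | zero =>
        intro j h
        rw [Nat.zero_add] at h
        have e : (F2_d R.φ δ 0)⁻¹ * F2_d R.φ δ j = F2_d R.φ δ j := by
          show (1 : Γ)⁻¹ * _ = _
          rw [inv_one, one_mul]
        rwa [e] at h
      | succ i ih =>
        intro j h
        apply ih j
        have e1 : i + 1 + j = (i + j) + 1 := by omega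
        rw [e1] at h
        have e2 : (F2_d R.φ δ (i + 1))⁻¹ * F2_d R.φ δ (i + j + 1) =
            R.φ ((F2_d R.φ δ i)⁻¹ * F2_d R.φ δ (i + j)) := by
          show (δ * R.φ (F2_d R.φ δ i))⁻¹ * (δ * R.φ (F2_d R.φ δ (i + j))) = _
          rw [map_mul, map_inv]
          group
        rw [e2, hΔφ] at h
        exact h
    have : Finite (Γ ⧸ Δ) := Subgroup.finite_quotient_of_finiteIndex
    obtain ⟨x, y, hxy, he⟩ := Finite.exists_ne_map_eq_of_infinite
      (fun j : ℕ => (QuotientGroup.mk (F2_d R.φ δ j) : Γ ⧸ Δ))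
    have main : ∀ x y : ℕ, x < y → (QuotientGroup.mk (F2_d R.φ δ x) : Γ ⧸ Δ) =
        QuotientGroup.mk (F2_d R.φ δ y) → ∃ k : ℕ, 1 ≤ k ∧ F2_d R.φ δ k ∈ Δ := by
      intro x y hxy he
      rw [QuotientGroup.eq] at he
      refine ⟨y - x, by omega, hdown x (y - x) ?_⟩
      have e : x + (y - x) = y := by omega
      rw [e]
      exact he
    obtain ⟨k, hk, hkm⟩ : ∃ k : ℕ, 1 ≤ k ∧ F2_d R.φ δ k ∈ Δ := by
      rcases lt_or_gt_of_ne hxy with h | h
      · exact main x y h he
      · exact main y x h he.symm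
    exact ⟨k, hk, F2_d R.φ δ k, hkm, hd k⟩

end Pool.Agent.H147R2.RI
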