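import Pool.Agent.H147R2.RI.FDef
import Pool.Agent.H779R2.To.TMain

set_option autoImplicit false

namespace Pool.Agent.H147R2.RI

open Pool.Agent.H779R2.To Filter Topology

variable {V Z Γ : Type*} [NormedAddCommGroup V] [InnerProductSpace ℝ V] [MetricSpace Z] [Group Γ]

theorem f3_act_cont (R : RDat V Z Γ) (a : Γ) : Continuous (R.act a) := by
  refine Continuous.prodMk ?_ ?_
  · exact ((R.L a).continuous.comp continuous_fst).add continuous_const
  · exact (R.σ a).continuous.comp continuous_snd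

theorem f3_cover (R : RDat V Z Γ) {X : Type*} [TopologicalSpace X]
    (P : V × Z → X) (hP : IsCoveringMap P)
    (hfib : ∀ y y', P y = P y' ↔ ∃ a, y' = R.act a y)
    (hfree : ∀ (a : Γ) (y : V × Z), R.act a y = y → a = 1) (Δ : Subgroup Γ) :
    IsCoveringMap (PQ R Δ) := by
  let _ : MulAction Δ (V × Z) :=
    { smul := fun a y => R.act a.1 y
      one_smul := fun y => R.act_one y
      mul_smul := fun a c y => R.act_mul a.1 c.1 y }
  have hsm : ∀ (a : Δ) (y : V × Z), a • y = R.act a.1 y := fun _ _ => rfl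
  have hq : IsQuotientCoveringMap (PQ R Δ) Δ := by
    refine { toIsQuotientMap := ?_, toContinuousConstSMul := ?_, apply_eq_iff_mem_orbit := ?_,
             disjoint := ?_ }
    · exact isQuotientMap_quotient_mk'
    · exact ⟨fun a => f3_act_cont R a.1⟩
    · intro e₁ e₂
      rw [eq_comm, PQ_eq, MulAction.mem_orbit_iff]
      constructor
      · rintro ⟨a, ha, h⟩
        exact ⟨⟨a, ha⟩, h.symm⟩
      · rintro ⟨a, h⟩
        exact ⟨a.1, a.2, h.symm⟩
    · intro e
      obtain ⟨f, hf, hf2⟩ := hP.isLocalHomeomorph e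
      refine ⟨f.source, f.open_source.mem_nhds hf, ?_⟩
      rintro a ⟨z, ⟨y, hy, hyz⟩, hz⟩
      have h1 : P y = P z := (hfib y z).2 ⟨a.1, hyz.symm⟩
      have h2 : y = z := by
        rw [hf2] at h1
        exact f.injOn hy hz h1
      have h3 : R.act a.1 y = y := by
        have : R.act a.1 y = z := hyz
        rw [this, h2]
      exact Subtype.ext (hfree a.1 y h3)
  exact hq.isCoveringMap

/-- F3: the intermediate covering space. -/
theorem exists_quot [ConnectedSpace (V × Z)] [LocallyCompactSpace (V × Z)] (R : RDat V Z Γ)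
    {X : Type*} [TopologicalSpace X] [T2Space X]
    (P : V × Z → X) (hP : IsCoveringMap P) (hs : Function.Surjective P)
    (hfib : ∀ y y', P y = P y' ↔ ∃ a, y' = R.act a y)
    (hfree : ∀ (a : Γ) (y : V × Z), R.act a y = y → a = 1) (Δ : Subgroup Γ)
    (hΔ : Δ.FiniteIndex) :
    IsCoveringMap (PQ R Δ) ∧ ∃ q : XQ R Δ → X, (∀ y, q (PQ R Δ y) = P y) ∧
      IsLocalHomeomorph q ∧ Function.Surjective q ∧ ∀ x, (q ⁻¹' {x}).Finite := by
  have hc := f3_cover R P hP hfib hfree Δ
  refine ⟨hc, fun z => Quotient.lift P (fun y y' h => ?_) z, fun y => rfl, ?_, ?_, ?_⟩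
  · obtain ⟨a, -, h⟩ := h
    exact (hfib y y').2 ⟨a, h⟩
  · apply IsLocalHomeomorph.mk
    intro x
    obtain ⟨y, rfl⟩ : ∃ y, PQ R Δ y = x := Quotient.exists_rep x
    obtain ⟨e1, he1, he1'⟩ := hc.isLocalHomeomorph y
    obtain ⟨e2, he2, he2'⟩ := hP.isLocalHomeomorph y
    have h1 : PQ R Δ y ∈ e1.target := by
      have : PQ R Δ y = e1 y := by rw [← he1']
      rw [this]
      exact e1.map_source he1
    have h2 : e1.symm (PQ R Δ y) = y := by
      have : PQ R Δ y = e1 y := by rw [← he1']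
      rw [this]
      exact e1.left_inv he1
    refine ⟨e1.symm.trans e2, ?_, ?_⟩
    · rw [OpenPartialHomeomorph.trans_source]
      refine ⟨h1, ?_⟩
      show e1.symm (PQ R Δ y) ∈ e2.source
      rw [h2]
      exact he2
    · intro z hz
      rw [OpenPartialHomeomorph.trans_source] at hz
      have h3 : PQ R Δ (e1.symm z) = z := by
        have : PQ R Δ (e1.symm z) = e1 (e1.symm z) := by rw [← he1']
        rw [this]
        exact e1.right_inv hz.1
      have h4 : (e1.symm.trans e2) z = P (e1.symm z) := by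
        rw [he2']
        rfl
      rw [h4]
      conv_lhs => rw [← h3]
      rfl
  · intro x
    obtain ⟨y, rfl⟩ := hs x
    exact ⟨PQ R Δ y, rfl⟩
  · intro x
    obtain ⟨y, rfl⟩ := hs x
    have hfin : Finite (Γ ⧸ Δ) := Subgroup.finite_quotient_of_finiteIndex
    refine (Set.finite_range (fun c : Γ ⧸ Δ => PQ R Δ (R.act (c.out)⁻¹ y))).subset ?_
    intro z hz
    obtain ⟨y', rfl⟩ : ∃ y', PQ R Δ y' = z := Quotient.exists_rep z
    have h1 : P y' = P y := hz
    obtain ⟨a, ha⟩ := (hfib y y').1 h1.symm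
    obtain ⟨h, hh⟩ := QuotientGroup.mk_out_eq_mul Δ a⁻¹
    refine ⟨(a⁻¹ : Γ), ?_⟩
    show PQ R Δ (R.act (Quotient.out ((a⁻¹ : Γ) : Γ ⧸ Δ))⁻¹ y) = PQ R Δ y'
    rw [hh, mul_inv_rev, inv_inv, R.act_mul, ← ha, eq_comm, PQ_eq]
    exact ⟨(h : Γ)⁻¹, Δ.inv_mem h.2, rfl⟩

end Pool.Agent.H147R2.RI
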