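import Pool.Agent.H147R2.RI.RDef

set_option autoImplicit false

namespace Pool.Agent.H147R2.RI

open Pool.Agent.H779R2.To Filter Topology

variable {V Z Γ : Type*} [NormedAddCommGroup V] [InnerProductSpace ℝ V] [FiniteDimensional ℝ V]
  [MetricSpace Z] [Group Γ]

theorem phi_iter (D : RDat V Z Γ) (n : ℕ) (a : Γ) : D.b (D.φ^[n] a) = D.A^[n] (D.b a) ∧
    (∀ v, D.L (D.φ^[n] a) (D.A^[n] v) = D.A^[n] (D.L a v)) ∧
    ∀ s, D.G^[n] (D.σ a s) = D.σ (D.φ^[n] a) (D.G^[n] s) := by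
  induction n with
  | zero => exact ⟨rfl, fun v => rfl, fun s => rfl⟩
  | succ n ih =>
    obtain ⟨h1, h2, h3⟩ := ih
    refine ⟨?_, ?_, ?_⟩
    · rw [Function.iterate_succ_apply', Function.iterate_succ_apply', D.b_φ, h1]
    · intro v
      rw [Function.iterate_succ_apply', Function.iterate_succ_apply',
        Function.iterate_succ_apply', D.L_φ, h2]
    · intro s
      rw [Function.iterate_succ_apply', Function.iterate_succ_apply',
        Function.iterate_succ_apply', h3, D.G_σ]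

theorem A_iter (D : RDat V Z Γ) (n : ℕ) (v : V) : ‖D.A^[n] v‖ = D.μ ^ n * ‖v‖ := by
  induction n with
  | zero => simp
  | succ n ih =>
    rw [Function.iterate_succ_apply', D.A_norm, ih, pow_succ]
    ring

theorem near_phi (D : RDat V Z Γ) (n : ℕ) (ε : ℝ) (a : Γ) :
    Near D ε (D.φ^[n] a) ↔ Near D ε a := by
  have hμ : 0 < D.μ ^ n := pow_pos (by linarith [D.two_le]) n
  have key : ∀ v, (‖D.L (D.φ^[n] a) (D.A^[n] v) - D.A^[n] v‖ ≤ ε * ‖D.A^[n] v‖ ↔
      ‖D.L a v - v‖ ≤ ε * ‖v‖) := by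
    intro v
    rw [(phi_iter D n a).2.1 v, ← iterate_map_sub, A_iter, A_iter]
    have h1 : ε * (D.μ ^ n * ‖v‖) = D.μ ^ n * (ε * ‖v‖) := by ring
    rw [h1, mul_le_mul_iff_right₀ hμ]
  constructor
  · intro h v
    exact (key v).1 (h _)
  · intro h w
    obtain ⟨v, rfl⟩ := (D.A.surjective.iterate n) w
    exact (key v).2 (h v)

theorem R9_small {δ : ℕ → ℝ} (hδ : Tendsto δ atTop (𝓝 0)) {x y : ℝ}
    (h : ∀ K : ℕ, ∃ k, K < k ∧ x ≤ δ k * y) : x ≤ 0 := by
  by_contra hx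
  push Not at hx
  have h1 : Tendsto (fun k => δ k * y) atTop (𝓝 0) := by
    have := hδ.mul_const y
    rwa [zero_mul] at this
  obtain ⟨K, hK⟩ := eventually_atTop.1 (h1.eventually_lt_const hx)
  obtain ⟨k, hk, hk'⟩ := h K
  have := hK k hk.le
  linarith

/-- R9: a sequence of elements whose images under powers of `φ` stay in a compact set and tend to
the identity on `V` is eventually trivial. -/
theorem eventually_one (D : RDat V Z Γ) (e : ℕ → Γ) (n : ℕ → ℕ) (δ : ℕ → ℝ)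
    (hδ : Tendsto δ atTop (𝓝 0)) (h1 : ∀ k, Near D (δ k) (e k))
    (h2 : ∀ k, ‖D.A^[n k] (D.b (e k))‖ ≤ δ k)
    (h3 : ∀ k, D.St 0 D.z0 (D.G^[n k] (D.σ (e k) D.z0))) : ∃ k, e k = 1 := by
  have : ProperSpace V := FiniteDimensional.proper ℝ V
  obtain ⟨K', hK'c, hK'⟩ := D.st_cpt {((0 : V), D.z0)} isCompact_singleton
  obtain ⟨R, hR⟩ := hδ.bddAbove_range
  have hR' : ∀ k, δ k ≤ R := fun k => hR ⟨k, rfl⟩
  let K1 : Set (V × Z) := Metric.closedBall (0 : V) R ×ˢ (Prod.snd '' K')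
  have hK1 : IsCompact K1 := (isCompact_closedBall 0 R).prod (hK'c.image continuous_snd)
  have hfin := D.proper {((0 : V), D.z0)} K1 isCompact_singleton hK1
  have hg : ∀ k, D.φ^[n k] (e k) ∈ {a : Γ | ∃ y ∈ ({((0 : V), D.z0)} : Set (V × Z)),
      ((D.L a y.1 + D.b a, D.σ a y.2) : V × Z) ∈ K1} := by
    intro k
    obtain ⟨p1, -, p3⟩ := phi_iter D (n k) (e k)
    refine ⟨((0 : V), D.z0), rfl, ?_⟩
    refine ⟨?_, ?_⟩
    · show D.L (D.φ^[n k] (e k)) 0 + D.b (D.φ^[n k] (e k)) ∈ Metric.closedBall (0 : V) R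
      rw [map_zero, zero_add, mem_closedBall_zero_iff, p1]
      exact (h2 k).trans (hR' k)
    · show D.σ (D.φ^[n k] (e k)) D.z0 ∈ Prod.snd '' K'
      have h4 : D.G^[n k] D.z0 = D.z0 := Function.iterate_fixed D.G_z0 (n k)
      have h5 := p3 D.z0
      rw [h4] at h5
      rw [← h5]
      exact ⟨_, hK' 0 D.z0 _ rfl (h3 k), rfl⟩
  have := hfin.to_subtype
  obtain ⟨⟨a, ha⟩, hinf⟩ := Finite.exists_infinite_fiber (fun k : ℕ =>
    (⟨D.φ^[n k] (e k), hg k⟩ : {a : Γ | ∃ y ∈ ({((0 : V), D.z0)} : Set (V × Z)),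
      ((D.L a y.1 + D.b a, D.σ a y.2) : V × Z) ∈ K1}))
  rw [Set.infinite_coe_iff] at hinf
  have hex : ∀ K : ℕ, ∃ k, K < k ∧ D.φ^[n k] (e k) = a := by
    intro K
    obtain ⟨k, hk, hk'⟩ := hinf.exists_gt K
    exact ⟨k, hk', congrArg Subtype.val hk⟩
  have hLa : D.L a = 1 := by
    apply LinearIsometryEquiv.ext
    intro v
    have h4 : ‖D.L a v - v‖ ≤ 0 := by
      apply R9_small hδ (y := ‖v‖)
      intro K
      obtain ⟨k, hk, hk'⟩ := hex K
      refine ⟨k, hk, ?_⟩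
      have h5 := (near_phi D (n k) (δ k) (e k)).2 (h1 k)
      rw [hk'] at h5
      exact h5 v
    exact sub_eq_zero.1 (norm_le_zero_iff.1 h4)
  have hba : D.b a = 0 := by
    have h4 : ‖D.b a‖ ≤ 0 := by
      apply R9_small hδ (y := 1)
      intro K
      obtain ⟨k, hk, hk'⟩ := hex K
      refine ⟨k, hk, ?_⟩
      rw [mul_one, ← hk', (phi_iter D (n k) (e k)).1]
      exact h2 k
    exact norm_le_zero_iff.1 h4
  have ha1 : a = 1 := D.inj a hLa hba
  obtain ⟨k, -, hk⟩ := hex 0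
  refine ⟨k, ?_⟩
  rw [ha1] at hk
  have h6 : D.φ^[n k] 1 = 1 := iterate_map_one D.φ (n k)
  exact (D.φ.injective.iterate (n k)) (hk.trans h6.symm)

end Pool.Agent.H147R2.RI
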