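import Pool.Agent.H147R2.RI.FDef
import Pool.Agent.H147R2.RI.R9
import Pool.Agent.H779R2.To.TMain

set_option autoImplicit false

namespace Pool.Agent.H147R2.RI

open Pool.Agent.H779R2.To Filter Topology

variable {V Z Γ : Type*} [NormedAddCommGroup V] [InnerProductSpace ℝ V] [MetricSpace Z] [Group Γ]

/-- powers of the linear map -/
theorem f4_A_pow (R : RDat V Z Γ) (k : ℕ) : ∃ B : V ≃L[ℝ] V, (∀ v, B v = R.A^[k] v) ∧
    ∀ v, B.symm v = R.A.symm^[k] v := by
  induction k with
  | zero => exact ⟨ContinuousLinearEquiv.refl ℝ V, fun v => rfl, fun v => rfl⟩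
  | succ k ih =>
    obtain ⟨B, h1, h2⟩ := ih
    refine ⟨B.trans R.A, fun v => ?_, fun v => ?_⟩
    · rw [Function.iterate_succ_apply', ← h1]
      rfl
    · rw [Function.iterate_succ_apply, ← h2]
      rfl

theorem f4_G_pow (R : RDat V Z Γ) (k : ℕ) : ∃ B : Z ≃ₜ Z, (∀ v, B v = R.G^[k] v) ∧
    ∀ v, B.symm v = R.G.symm^[k] v := by
  induction k with
  | zero => exact ⟨Homeomorph.refl Z, fun v => rfl, fun v => rfl⟩
  | succ k ih =>
    obtain ⟨B, h1, h2⟩ := ih
    refine ⟨B.trans R.G, fun v => ?_, fun v => ?_⟩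
    · rw [Function.iterate_succ_apply', ← h1]
      rfl
    · rw [Function.iterate_succ_apply, ← h2]
      rfl

theorem f4_gt_pow (R : RDat V Z Γ) (k : ℕ) (y : V × Z) :
    R.gt^[k] y = (R.A^[k] y.1, R.G^[k] y.2) := by
  induction k with
  | zero => rfl
  | succ k ih =>
    rw [Function.iterate_succ_apply', ih, Function.iterate_succ_apply',
      Function.iterate_succ_apply']
    rfl

theorem f4_st (R : RDat V Z Γ) (k : ℕ) (u : V) (s s' : Z) (h : R.St u s s') :
    R.St (R.A^[k] u) (R.G^[k] s) (R.G^[k] s') := by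
  induction k with
  | zero => exact h
  | succ k ih =>
    rw [Function.iterate_succ_apply', Function.iterate_succ_apply',
      Function.iterate_succ_apply']
    exact R.st_two _ _ _ _ ih (R.st_refl _ _)

/-- F4: translation data for a subgroup of translations of finite index and the `k`-th power of the
normalizing map. -/
theorem exists_tdat' [FiniteDimensional ℝ V] (R : RDat V Z Γ) (Δ : Subgroup Γ) (hΔ : Δ.FiniteIndex)
    (hL : ∀ a ∈ Δ, R.L a = 1) (hφ : ∀ a, R.φ a ∈ Δ ↔ a ∈ Δ) (k : ℕ) (hk : 1 ≤ k) :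
    ∃ (T : AddSubgroup V) (D : TDat V Z T), (∀ y, D.gt y = R.gt^[k] y) ∧
      ∀ y y', (∃ a ∈ Δ, y' = R.act a y) ↔ ∃ t, y' = D.act t y := by
  classical
  have hbm : ∀ a c, a ∈ Δ → R.b (a * c) = R.b c + R.b a := by
    intro a c ha
    rw [R.b_mul, hL a ha]
    rfl
  let T : AddSubgroup V :=
    { carrier := {v | ∃ a ∈ Δ, R.b a = v}
      add_mem' := by
        rintro _ _ ⟨a, ha, rfl⟩ ⟨c, hc, rfl⟩
        exact ⟨c * a, Δ.mul_mem hc ha, hbm c a hc⟩
      zero_mem' := ⟨1, Δ.one_mem, R.b_one⟩
      neg_mem' := by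
        rintro _ ⟨a, ha, rfl⟩
        refine ⟨a⁻¹, Δ.inv_mem ha, ?_⟩
        rw [R.b_inv, hL _ (Δ.inv_mem ha)]
        rfl }
  have hinj : ∀ a c, a ∈ Δ → c ∈ Δ → R.b a = R.b c → a = c := by
    intro a c ha hc h
    have h1 : c⁻¹ * a = 1 := by
      apply R.inj
      · exact hL _ (Δ.mul_mem (Δ.inv_mem hc) ha)
      · rw [hbm _ _ (Δ.inv_mem hc), h, R.b_inv, hL _ (Δ.inv_mem hc)]
        show R.b c + - R.b c = 0
        abel
    exact (inv_mul_eq_one.mp h1).symm
  have hex : ∀ t : T, ∃ a ∈ Δ, R.b a = (t : V) := fun t => t.2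
  choose al hal1 hal2 using hex
  have hal_eq : ∀ (t : T) (a : Γ), a ∈ Δ → R.b a = (t : V) → al t = a := fun t a ha h =>
    hinj _ _ (hal1 t) ha ((hal2 t).trans h.symm)
  have hal_add : ∀ t t' : T, al (t + t') = al t * al t' := by
    intro t t'
    refine hal_eq _ _ (Δ.mul_mem (hal1 t) (hal1 t')) ?_
    rw [hbm _ _ (hal1 t), hal2, hal2]
    push_cast
    abel
  have hal_zero : al 0 = 1 := hal_eq _ _ Δ.one_mem (by rw [R.b_one]; rfl)
  obtain ⟨B, hB1, hB2⟩ := f4_A_pow R k
  obtain ⟨H, hH1, hH2⟩ := f4_G_pow R k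
  have hφk : ∀ (j : ℕ) a, R.φ^[j] a ∈ Δ ↔ a ∈ Δ := by
    intro j
    induction j with
    | zero => intro a; rfl
    | succ j ih =>
      intro a
      rw [Function.iterate_succ_apply, ih, hφ]
  have hφs : ∀ (j : ℕ) a, R.φ^[j] (R.φ.symm^[j] a) = a := fun j a =>
    (Function.LeftInverse.iterate R.φ.apply_symm_apply j) a
  have hBT : ∀ t : T, B (t : V) ∈ T := by
    intro t
    refine ⟨R.φ^[k] (al t), (hφk k _).mpr (hal1 t), ?_⟩
    rw [(phi_iter R k (al t)).1, hal2, hB1]
  have hBT' : ∀ t : T, B.symm (t : V) ∈ T := by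
    intro t
    refine ⟨R.φ.symm^[k] (al t), ?_, ?_⟩
    · rw [← hφk k, hφs]
      exact hal1 t
    · apply B.injective
      rw [ContinuousLinearEquiv.apply_symm_apply, hB1, ← (phi_iter R k _).1, hφs, hal2]
  have hact : ∀ a ∈ Δ, ∀ y, R.act a y = (y.1 + R.b a, R.σ a y.2) := by
    intro a ha y
    show (R.L a y.1 + R.b a, R.σ a y.2) = _
    rw [hL a ha]
    rfl
  have hA_exp : ∀ v, ‖B v‖ = R.μ ^ k * ‖v‖ := by
    intro v
    rw [hB1, A_iter R k v]
  let D : TDat V Z T :=
    { σ := fun t => R.σ (al t)
      t := T.subtype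
      σ_zero := fun s => by rw [hal_zero, map_one]; rfl
      σ_add := fun a b s => by rw [hal_add, map_mul]; rfl
      t_inj := Subtype.coe_injective
      A := B
      G := H
      φ :=
        { toFun := fun t => ⟨B t, hBT t⟩
          invFun := fun t => ⟨B.symm t, hBT' t⟩
          left_inv := fun t => Subtype.ext (B.symm_apply_apply _)
          right_inv := fun t => Subtype.ext (B.apply_symm_apply _)
          map_add' := fun a b => Subtype.ext (map_add B _ _) }
      A_symm_le := fun v => by
        have h1 := hA_exp (B.symm v)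
        rw [ContinuousLinearEquiv.apply_symm_apply] at h1
        have h2 : (2 : ℝ) ≤ R.μ ^ k := by
          calc (2 : ℝ) ≤ R.μ := R.two_le
            _ = R.μ ^ 1 := (pow_one _).symm
            _ ≤ R.μ ^ k := pow_le_pow_right₀ (by linarith [R.two_le]) hk
        nlinarith [norm_nonneg (B.symm v)]
      t_φ := fun t => rfl
      G_σ := fun t s => by
        have h1 : al (⟨B t, hBT t⟩ : T) = R.φ^[k] (al t) := by
          refine hal_eq _ _ ((hφk k _).mpr (hal1 t)) ?_
          rw [(phi_iter R k (al t)).1, hal2]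
          exact (hB1 _).symm
        show H (R.σ (al t) s) = R.σ (al (⟨B t, hBT t⟩ : T)) (H s)
        rw [h1, hH1, hH1]
        exact (phi_iter R k (al t)).2.2 s
      proper := fun K K' hK hK' => by
        have h1 := R.proper K K' hK hK'
        refine Set.Finite.of_finite_image (f := al) (h1.subset ?_) ?_
        · rintro _ ⟨t, ⟨y, hy, hy'⟩, rfl⟩
          refine ⟨y, hy, ?_⟩
          have h2 := hact (al t) (hal1 t) y
          rw [hal2] at h2
          show R.act (al t) y ∈ K'
          rw [h2]
          exact hy'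
        · intro t _ t' _ h
          apply Subtype.ext
          rw [← hal2, ← hal2, h]
      cocompact := by
        obtain ⟨K, hK, hK'⟩ := R.cocompact
        have hcont : ∀ a : Γ, Continuous (R.act a) := fun a =>
          (((R.L a).continuous.comp continuous_fst).add continuous_const).prodMk
            ((R.σ a).continuous.comp continuous_snd)
        -- representatives
        let rep : Γ ⧸ Δ → Γ := fun q => q.out
        have : Finite (Γ ⧸ Δ) := inferInstance
        have : Fintype (Γ ⧸ Δ) := Fintype.ofFinite _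
        refine ⟨⋃ q : Γ ⧸ Δ, R.act (rep q)⁻¹ '' K, ?_, fun y => ?_⟩
        · exact isCompact_iUnion fun q => hK.image (hcont _)
        · obtain ⟨a, ha⟩ := hK' y
          have h1 : (rep (QuotientGroup.mk a))⁻¹ * a ∈ Δ := by
            rw [← QuotientGroup.eq]
            exact Quotient.out_eq' _
          refine ⟨⟨R.b ((rep (QuotientGroup.mk a))⁻¹ * a), _, h1, rfl⟩, ?_⟩
          rw [Set.mem_iUnion]
          refine ⟨QuotientGroup.mk a, R.act a y, ha, ?_⟩
          rw [← R.act_mul, hact _ h1 y]
          have h2 : al (⟨R.b ((rep (QuotientGroup.mk a))⁻¹ * a), _, h1, rfl⟩ : T) =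
              (rep (QuotientGroup.mk a))⁻¹ * a := hal_eq _ _ h1 rfl
          rw [h2]
          rfl
      St := R.St
      st_refl := R.st_refl
      st_symm := R.st_symm
      st_act := fun t u s s' h => by
        have h1 := R.st_act (al t) u s s' h
        rw [hL _ (hal1 t), hal2] at h1
        exact h1
      st_two := fun u s s' s'' h h' => by
        obtain ⟨j, rfl⟩ : ∃ j, k = j + 1 := ⟨k - 1, by omega⟩
        have h1 := f4_st R j _ _ _ (R.st_two u s s' s'' h h')
        rw [← Function.iterate_succ_apply, ← Function.iterate_succ_apply,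
          ← Function.iterate_succ_apply] at h1
        rw [hB1, hH1, hH1]
        exact h1
      st_cpt := R.st_cpt
      st_chain := R.st_chain
      st_exp := fun u s s' h => by
        refine R.st_exp u s s' fun n => ?_
        have hBn : ∀ (j : ℕ) v, B.symm^[j] v = R.A.symm^[k * j] v := by
          intro j
          induction j with
          | zero => intro v; rfl
          | succ j ih =>
            intro v
            rw [Function.iterate_succ_apply, ih, hB2, Nat.mul_succ, Function.iterate_add_apply]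
        have hHn : ∀ (j : ℕ) v, H.symm^[j] v = R.G.symm^[k * j] v := by
          intro j
          induction j with
          | zero => intro v; rfl
          | succ j ih =>
            intro v
            rw [Function.iterate_succ_apply, ih, hH2, Nat.mul_succ, Function.iterate_add_apply]
        have h1 := h n
        rw [hBn, hHn, hHn] at h1
        obtain ⟨j, hj⟩ : ∃ j, k * n = j + n := ⟨k * n - n, by
          have : n ≤ k * n := Nat.le_mul_of_pos_left n hk
          omega⟩
        have h2 := f4_st R j _ _ _ h1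
        have e1 : ∀ v, R.A^[j] (R.A.symm^[k * n] v) = R.A.symm^[n] v := by
          intro v
          rw [hj, Function.iterate_add_apply]
          exact (Function.LeftInverse.iterate R.A.apply_symm_apply j) _
        have e2 : ∀ v, R.G^[j] (R.G.symm^[k * n] v) = R.G.symm^[n] v := by
          intro v
          rw [hj, Function.iterate_add_apply]
          exact (Function.LeftInverse.iterate R.G.apply_symm_apply j) _
        rw [e1, e2, e2] at h2
        exact h2 }
  refine ⟨T, D, fun y => ?_, fun y y' => ?_⟩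
  · rw [f4_gt_pow, D.gt_apply]
    show (B y.1, H y.2) = _
    rw [hB1, hH1]
  · constructor
    · rintro ⟨a, ha, rfl⟩
      refine ⟨⟨R.b a, a, ha, rfl⟩, ?_⟩
      rw [hact a ha, D.act_apply]
      have h2 : al (⟨R.b a, a, ha, rfl⟩ : T) = a := hal_eq _ _ ha rfl
      show _ = (y.1 + R.b a, R.σ (al (⟨R.b a, a, ha, rfl⟩ : T)) y.2)
      rw [h2]
    · rintro ⟨t, rfl⟩
      refine ⟨al t, hal1 t, ?_⟩
      rw [hact _ (hal1 t), hal2, D.act_apply]
      rfl

end Pool.Agent.H147R2.RI
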