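import Pool.Agent.H147R2.RI.FDef
import Pool.Agent.H779R2.To.TMain

set_option autoImplicit false

namespace Pool.Agent.H147R2.RI

open Pool.Agent.H779R2.To Filter Topology

variable {V Z Γ : Type*} [NormedAddCommGroup V] [InnerProductSpace ℝ V] [MetricSpace Z] [Group Γ]

theorem F5_fwd (R : RDat V Z Γ) (Δ : Subgroup Γ) (H : V × Z → V × Z) (χ : Γ → Γ)
    (hχ : ∀ a y, H (R.act a y) = R.act (χ a) (H y)) (hΔ : ∀ a ∈ Δ, χ a ∈ Δ) (y y' : V × Z)
    (h : (orb R Δ).r y y') : PQ R Δ (H y) = PQ R Δ (H y') := by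
  obtain ⟨a, ha, rfl⟩ := h
  rw [PQ_eq]
  exact ⟨χ a, hΔ a ha, hχ a y⟩

/-- F5: normalizing homeomorphisms descend to the quotient. -/
theorem descend (R : RDat V Z Γ) (Δ : Subgroup Γ) (H : V × Z ≃ₜ V × Z) (χ : Γ ≃* Γ)
    (hχ : ∀ a y, H (R.act a y) = R.act (χ a) (H y)) (hΔ : ∀ a, χ a ∈ Δ ↔ a ∈ Δ) :
    ∃ h : XQ R Δ ≃ₜ XQ R Δ, ∀ y, PQ R Δ (H y) = h (PQ R Δ y) := by
  have hs : ∀ a y, H.symm (R.act a y) = R.act (χ.symm a) (H.symm y) := by
    intro a y
    rw [H.symm_apply_eq, hχ, χ.apply_symm_apply, H.apply_symm_apply]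
  have hΔs : ∀ a ∈ Δ, χ.symm a ∈ Δ := by
    intro a ha
    rw [← hΔ, χ.apply_symm_apply]
    exact ha
  let f : XQ R Δ → XQ R Δ := Quotient.lift (s := orb R Δ) (fun y => PQ R Δ (H y))
    (F5_fwd R Δ H χ hχ fun a ha => (hΔ a).2 ha)
  let g : XQ R Δ → XQ R Δ := Quotient.lift (s := orb R Δ) (fun y => PQ R Δ (H.symm y))
    (F5_fwd R Δ H.symm χ.symm hs hΔs)
  have hPQ : Continuous (PQ R Δ) := continuous_quot_mk
  have hf : Continuous f := (hPQ.comp H.continuous).quotient_lift _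
  have hg : Continuous g := (hPQ.comp H.symm.continuous).quotient_lift _
  have hfy : ∀ y, f (PQ R Δ y) = PQ R Δ (H y) := fun _ => rfl
  have hgy : ∀ y, g (PQ R Δ y) = PQ R Δ (H.symm y) := fun _ => rfl
  refine ⟨{ toFun := f, invFun := g, left_inv := ?_, right_inv := ?_, continuous_toFun := hf,
            continuous_invFun := hg }, fun y => (hfy y).symm⟩
  · intro x
    induction x using Quotient.inductionOn with
    | h y =>
      change g (f (PQ R Δ y)) = PQ R Δ y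
      rw [hfy, hgy, H.symm_apply_apply]
  · intro x
    induction x using Quotient.inductionOn with
    | h y =>
      change f (g (PQ R Δ y)) = PQ R Δ y
      rw [hgy, hfy, H.apply_symm_apply]

theorem gt_act (R : RDat V Z Γ) (a : Γ) (y : V × Z) : R.gt (R.act a y) = R.act (R.φ a) (R.gt y) := by
  rw [R.gt_apply, R.gt_apply]
  refine Prod.ext ?_ ?_
  · change R.A (R.L a y.1 + R.b a) = R.L (R.φ a) (R.A y.1) + R.b (R.φ a)
    rw [map_add, R.b_φ, R.L_φ]
  · change R.G (R.σ a y.2) = R.σ (R.φ a) (R.G y.2)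
    exact R.G_σ a y.2

end Pool.Agent.H147R2.RI
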