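import Pool.Agent.H147R2.RI.RDef

set_option autoImplicit false

namespace Pool.Agent.H147R2.RI

open Pool.Agent.H779R2.To Filter Topology

variable {V Z Γ : Type*} [NormedAddCommGroup V] [InnerProductSpace ℝ V] [MetricSpace Z] [Group Γ]

/-- Orbits of a subgroup. -/
def orb (R : RDat V Z Γ) (Δ : Subgroup Γ) : Setoid (V × Z) where
  r y y' := ∃ a ∈ Δ, y' = R.act a y
  iseqv := by
    refine ⟨fun y => ⟨1, Δ.one_mem, (R.act_one y).symm⟩, ?_, ?_⟩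
    · rintro y _ ⟨a, ha, rfl⟩
      refine ⟨a⁻¹, Δ.inv_mem ha, ?_⟩
      rw [← R.act_mul, inv_mul_cancel, R.act_one]
    · rintro y _ _ ⟨a, ha, rfl⟩ ⟨c, hc, rfl⟩
      exact ⟨c * a, Δ.mul_mem hc ha, (R.act_mul c a y).symm⟩

/-- The quotient by a subgroup. -/
abbrev XQ (R : RDat V Z Γ) (Δ : Subgroup Γ) : Type _ := Quotient (orb R Δ)

/-- The quotient map. -/
def PQ (R : RDat V Z Γ) (Δ : Subgroup Γ) (y : V × Z) : XQ R Δ := Quotient.mk (orb R Δ) y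

theorem PQ_eq (R : RDat V Z Γ) (Δ : Subgroup Γ) (y y' : V × Z) :
    PQ R Δ y = PQ R Δ y' ↔ ∃ a ∈ Δ, y' = R.act a y := Quotient.eq (r := orb R Δ)

/-- The normalizing map. -/
def RDat.gt (R : RDat V Z Γ) : V × Z ≃ₜ V × Z := R.A.toHomeomorph.prodCongr R.G

theorem RDat.gt_apply (R : RDat V Z Γ) (y : V × Z) : R.gt y = (R.A y.1, R.G y.2) := rfl

end Pool.Agent.H147R2.RI
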