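import Pool.Agent.H147R2.RI.RDef

set_option autoImplicit false

namespace Pool.Agent.H147R2.RI

open Pool.Agent.H779R2.To Filter Topology

variable {V Z Γ : Type*} [NormedAddCommGroup V] [InnerProductSpace ℝ V] [FiniteDimensional ℝ V]
  [MetricSpace Z] [Group Γ]

omit [FiniteDimensional ℝ V] in
theorem R4_pad (D : RDat V Z Γ) (u : V) (s s' : Z) (m0 m : ℕ) (hm : m0 ≤ m)
    (h : Chn D.St u m0 s s') : Chn D.St u m s s' := by
  obtain ⟨e, h0, h1, h2⟩ := h
  refine ⟨fun i => e (min i m0), by simpa using h0, ?_, fun i hi => ?_⟩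
  · show e (min m m0) = s'
    rw [min_eq_right hm]
    exact h1
  · show D.St u (e (min i m0)) (e (min (i + 1) m0))
    rcases lt_or_ge i m0 with h3 | h3
    · rw [min_eq_left h3.le, min_eq_left (by omega : i + 1 ≤ m0)]
      exact h2 i h3
    · rw [min_eq_right h3, min_eq_right (by omega : m0 ≤ i + 1)]
      exact D.st_refl _ _

/-- R4: a step over `u` is a chain of bounded length over every `u'` with `‖u - u'‖ ≤ 4`. -/
theorem transfer (D : RDat V Z Γ) : ∃ m : ℕ, 1 ≤ m ∧ ∀ u u' s s', ‖u - u'‖ ≤ 4 → D.St u s s' →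
    Chn D.St u' m s s' := by
  obtain ⟨K, hK, hcov⟩ := D.cocompact
  obtain ⟨K', hK', hst⟩ := D.st_cpt K hK
  have : ProperSpace V := FiniteDimensional.proper_real V
  have hB : IsCompact (Metric.cthickening 4 (Prod.fst '' K)) :=
    (hK.image continuous_fst).cthickening
  obtain ⟨m0, hm0⟩ := D.st_chain (Metric.cthickening 4 (Prod.fst '' K))
    (Prod.snd '' K ∪ Prod.snd '' K') hB ((hK.image continuous_snd).union (hK'.image continuous_snd))
  refine ⟨max m0 1, le_max_right _ _, fun u u' s s' huu h => ?_⟩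
  refine R4_pad D u' s s' m0 _ (le_max_left _ _) ?_
  obtain ⟨a, ha⟩ := hcov (u, s)
  simp only at ha
  have h1 := D.st_act a u s s' h
  have h2 := hst _ _ _ ha h1
  have h3 : D.L a u' + D.b a ∈ Metric.cthickening 4 (Prod.fst '' K) := by
    refine Metric.mem_cthickening_of_dist_le _ (D.L a u + D.b a) 4 _ ⟨_, ha, rfl⟩ ?_
    rw [dist_add_right, (D.L a).dist_map, dist_comm, dist_eq_norm]
    exact huu
  obtain ⟨e, h4, h5, h6⟩ := hm0 _ h3 (D.σ a s) (Or.inl ⟨_, ha, rfl⟩) (D.σ a s')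
    (Or.inr ⟨_, h2, rfl⟩)
  have hinv : ∀ y : V × Z, D.act a⁻¹ (D.act a y) = y := by
    intro y
    rw [← D.act_mul, inv_mul_cancel, D.act_one]
  refine ⟨fun i => D.σ a⁻¹ (e i), ?_, ?_, fun i hi => ?_⟩
  · show D.σ a⁻¹ (e 0) = s
    rw [h4]
    exact congrArg Prod.snd (hinv (u, s))
  · show D.σ a⁻¹ (e m0) = s'
    rw [h5]
    exact congrArg Prod.snd (hinv (u, s'))
  · have h7 := D.st_act a⁻¹ _ _ _ (h6 i hi)
    have h8 : D.L a⁻¹ (D.L a u' + D.b a) + D.b a⁻¹ = u' := congrArg Prod.fst (hinv (u', s))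
    rw [h8] at h7
    exact h7

end Pool.Agent.H147R2.RI
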