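import Pool.Agent.H147R2.RI.RDef

set_option autoImplicit false

namespace Pool.Agent.H147R2.RI

open Pool.Agent.H779R2.To Filter Topology

variable {V Z Γ : Type*} [NormedAddCommGroup V] [InnerProductSpace ℝ V] [FiniteDimensional ℝ V]
  [MetricSpace Z] [Group Γ]

theorem chn_cat {St : V → Z → Z → Prop} {u : V} {m n : ℕ} {s s' s'' : Z}
    (h : Chn St u m s s') (h' : Chn St u n s' s'') : Chn St u (m + n) s s'' := by
  obtain ⟨e, h0, hm, hs⟩ := h
  obtain ⟨f, k0, kn, ks⟩ := h'
  refine ⟨fun i => if i < m then e i else f (i - m), ?_, ?_, ?_⟩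
  · by_cases hm0 : 0 < m
    · simp only [hm0, if_true]
      exact h0
    · have : m = 0 := by omega
      subst this
      simp only [lt_irrefl, if_false, Nat.sub_zero]
      rw [k0, ← hm, h0]
  · have h1 : ¬ m + n < m := by omega
    simp only [h1, if_false, Nat.add_sub_cancel_left]
    exact kn
  · intro i hi
    by_cases h1 : i + 1 < m
    · have h2 : i < m := by omega
      simp only [h1, h2, if_true]
      exact hs i h2
    · by_cases h2 : i < m
      · have h3 : i + 1 = m := by omega
        have h4 : i + 1 - m = 0 := by omega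
        simp only [h1, h2, if_true, if_false, h4]
        rw [k0, ← hm, ← h3]
        exact hs i h2
      · have h3 : i + 1 - m = (i - m) + 1 := by omega
        simp only [h1, h2, if_false, h3]
        exact ks (i - m) (by omega)

theorem chn_mono (D : RDat V Z Γ) {u : V} {m n : ℕ} (hmn : m ≤ n) {s s' : Z}
    (h : Chn D.St u m s s') : Chn D.St u n s s' := by
  obtain ⟨e, h0, hm, hs⟩ := h
  refine ⟨fun i => e (min i m), ?_, ?_, ?_⟩
  · simp only [Nat.zero_min]
    exact h0
  · simp only [Nat.min_eq_right hmn]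
    exact hm
  · intro i _
    by_cases h1 : i < m
    · have h2 : min i m = i := by omega
      have h3 : min (i + 1) m = i + 1 := by omega
      simp only [h2, h3]
      exact hs i h1
    · have h2 : min i m = m := by omega
      have h3 : min (i + 1) m = m := by omega
      simp only [h2, h3]
      exact D.st_refl _ _

theorem chn_symm (D : RDat V Z Γ) {u : V} {m : ℕ} {s s' : Z} (h : Chn D.St u m s s') :
    Chn D.St u m s' s := by
  obtain ⟨e, h0, hm, hs⟩ := h
  refine ⟨fun i => e (m - i), ?_, ?_, ?_⟩
  · simp only [Nat.sub_zero]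
    exact hm
  · simp only [Nat.sub_self]
    exact h0
  · intro i hi
    have h1 : m - i = (m - (i + 1)) + 1 := by omega
    have h2 := hs (m - (i + 1)) (by omega)
    simp only []
    rw [h1]
    exact D.st_symm _ _ _ h2

theorem chn_act (D : RDat V Z Γ) (a : Γ) {u : V} {m : ℕ} {s s' : Z} (h : Chn D.St u m s s') :
    Chn D.St (D.L a u + D.b a) m (D.σ a s) (D.σ a s') := by
  obtain ⟨e, h0, hm, hs⟩ := h
  refine ⟨fun i => D.σ a (e i), ?_, ?_, ?_⟩
  · simp only [h0]
  · simp only [hm]
  · intro i hi
    exact D.st_act a u _ _ (hs i hi)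

/-- R5: transfer of chains. -/
theorem chn_transfer (D : RDat V Z Γ) {m : ℕ} (hm : ∀ u u' s s', ‖u - u'‖ ≤ 4 → D.St u s s' →
    Chn D.St u' m s s') (u u' : V) (hu : ‖u - u'‖ ≤ 4) (j : ℕ) (s s' : Z)
    (h : Chn D.St u j s s') : Chn D.St u' (m * j) s s' := by
  induction j generalizing s' with
  | zero =>
    obtain ⟨e, h0, h1, _⟩ := h
    refine ⟨fun _ => s, rfl, ?_, ?_⟩
    · simp only []
      rw [← h0, h1]
    · intro i hi
      exact D.st_refl _ _
  | succ j ih =>
    obtain ⟨e, h0, h1, hs⟩ := h
    have h2 : Chn D.St u' (m * j) s (e j) :=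
      ih (e j) ⟨e, h0, rfl, fun i hi => hs i (by omega)⟩
    have h3 : Chn D.St u' m (e j) s' := by
      refine hm u u' (e j) s' hu ?_
      rw [← h1]
      exact hs j (by omega)
    have h4 := chn_cat h2 h3
    have h5 : m * j + m = m * (j + 1) := by ring
    rw [← h5]
    exact h4

end Pool.Agent.H147R2.RI
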