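import Pool.Agent.H147R2.RI.RDef

set_option autoImplicit false

namespace Pool.Agent.H147R2.RI

open Pool.Agent.H779R2.To Filter Topology

variable {V Z Γ : Type*} [NormedAddCommGroup V] [InnerProductSpace ℝ V] [FiniteDimensional ℝ V]
  [MetricSpace Z] [Group Γ]

/-- R6: a chain of length at most `2 ^ n` becomes a step after `n` iterations. -/
theorem chn_halve (D : RDat V Z Γ) (n : ℕ) (u : V) (s s' : Z) (h : Chn D.St u (2 ^ n) s s') :
    D.St (D.A^[n] u) (D.G^[n] s) (D.G^[n] s') := by
  induction n generalizing u s s' with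
  | zero =>
    obtain ⟨e, h0, h1, h2⟩ := h
    have h3 := h2 0 (by norm_num)
    rw [pow_zero] at h1
    rw [zero_add, h0, h1] at h3
    exact h3
  | succ n ih =>
    obtain ⟨e, h0, h1, h2⟩ := h
    have h3 : Chn D.St (D.A u) (2 ^ n) (D.G s) (D.G s') := by
      refine ⟨fun i => D.G (e (2 * i)), ?_, ?_, ?_⟩
      · show D.G (e (2 * 0)) = D.G s
        rw [mul_zero, h0]
      · show D.G (e (2 * 2 ^ n)) = D.G s'
        rw [← h1, pow_succ, mul_comm]
      · intro i hi
        have hi2 : 2 * i + 1 < 2 ^ (n + 1) := by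
          rw [pow_succ]
          omega
        exact D.st_two u (e (2 * i)) (e (2 * i + 1)) (e (2 * i + 1 + 1)) (h2 _ (by omega))
          (h2 _ hi2)
    have h4 := ih (D.A u) (D.G s) (D.G s') h3
    rw [Function.iterate_succ_apply, Function.iterate_succ_apply, Function.iterate_succ_apply]
    exact h4

end Pool.Agent.H147R2.RI
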