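import Pool.Agent.H147R2.RI.RDef
import Pool.Agent.H147R2.RI.R5

set_option autoImplicit false

namespace Pool.Agent.H147R2.RI

open Pool.Agent.H779R2.To Filter Topology

variable {V Z Γ : Type*} [NormedAddCommGroup V] [InnerProductSpace ℝ V] [FiniteDimensional ℝ V]
  [MetricSpace Z] [Group Γ]

omit [FiniteDimensional ℝ V] in
theorem R7_mul (D : RDat V Z Γ) (a c : Γ) (z : Z) : D.σ (a * c) z = D.σ a (D.σ c z) := by
  rw [map_mul]
  rfl

omit [FiniteDimensional ℝ V] in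
theorem R7_inv (D : RDat V Z Γ) (a : Γ) (z : Z) : D.σ a⁻¹ (D.σ a z) = z := by
  rw [← R7_mul, inv_mul_cancel, map_one]
  rfl

omit [FiniteDimensional ℝ V] in
theorem R7_norm_inv (D : RDat V Z Γ) (a : Γ) : ‖D.b a⁻¹‖ = ‖D.b a‖ := by
  rw [D.b_inv, norm_neg, LinearIsometryEquiv.norm_map]

omit [FiniteDimensional ℝ V] in
theorem R7_norm_mul (D : RDat V Z Γ) (a c : Γ) : ‖D.b (a * c)‖ ≤ ‖D.b a‖ + ‖D.b c‖ := by
  rw [D.b_mul]
  refine (norm_add_le _ _).trans ?_
  rw [LinearIsometryEquiv.norm_map, add_comm]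

theorem R7_act (D : RDat V Z Γ) {m : ℕ} (hm : ∀ u u' s s', ‖u - u'‖ ≤ 4 →
    D.St u s s' → Chn D.St u' m s s') (g : Γ) (hg : ‖D.b g‖ ≤ 4) {M : ℕ} {s s' : Z}
    (h : Chn D.St 0 M s s') : Chn D.St 0 (m * M) (D.σ g s) (D.σ g s') := by
  refine chn_transfer D hm (D.L g 0 + D.b g) 0 ?_ M _ _ (chn_act D g h)
  rw [map_zero, zero_add, sub_zero]
  exact hg

/-- R7: the chain length of iterated commutators grows at most exponentially, with a rate which
depends only on `m`. -/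
theorem cm_chain (D : RDat V Z Γ) {m : ℕ} (h1 : 1 ≤ m) (hm : ∀ u u' s s', ‖u - u'‖ ≤ 4 →
    D.St u s s' → Chn D.St u' m s s') (a c : Γ) (ha : ‖D.b a‖ ≤ 1) (M0 : ℕ)
    (hb : ∀ k, ‖D.b (cm a c k)‖ ≤ 1)
    (hMa : Chn D.St 0 M0 D.z0 (D.σ a D.z0)) (hMc : Chn D.St 0 M0 D.z0 (D.σ c D.z0)) (k : ℕ) :
    Chn D.St 0 ((8 * m ^ 2) ^ k * M0) D.z0 (D.σ (cm a c k) D.z0) := by
  induction k with
  | zero =>
    rw [pow_zero, one_mul]
    exact hMc
  | succ k ih =>
    have hc := hb k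
    have hcm : cm a c (k + 1) = a * cm a c k * a⁻¹ * (cm a c k)⁻¹ := rfl
    rw [hcm]
    generalize cm a c k = g at ih hc
    obtain ⟨M, hM⟩ : ∃ M, M = (8 * m ^ 2) ^ k * M0 := ⟨_, rfl⟩
    rw [← hM] at ih
    have hm2 : 1 ≤ m ^ 2 := Nat.one_le_pow _ _ h1
    have hM0 : M0 ≤ M := by
      rw [hM]
      exact Nat.le_mul_of_pos_left _ (Nat.pow_pos (by omega))
    -- the four pieces
    have p2 := R7_act D hm a (by linarith) ih
    have pa : Chn D.St 0 (m * M0) D.z0 (D.σ a⁻¹ D.z0) := by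
      have h := R7_act D hm a⁻¹ (by rw [R7_norm_inv]; linarith) hMa
      rw [R7_inv] at h
      exact chn_symm D h
    have pc : Chn D.St 0 (m * M) D.z0 (D.σ g⁻¹ D.z0) := by
      have h := R7_act D hm g⁻¹ (by rw [R7_norm_inv]; linarith) ih
      rw [R7_inv] at h
      exact chn_symm D h
    have n1 : ‖D.b (a * g)‖ ≤ 2 := by
      have := R7_norm_mul D a g
      linarith
    have n2 : ‖D.b (a * g * a⁻¹)‖ ≤ 3 := by
      have := R7_norm_mul D (a * g) a⁻¹
      rw [R7_norm_inv] at this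
      linarith
    have p3 := R7_act D hm (a * g) (by linarith) pa
    have p4 := R7_act D hm (a * g * a⁻¹) (by linarith) pc
    rw [← R7_mul] at p2 p3 p4
    have h := chn_cat (chn_cat (chn_cat hMa p2) p3) p4
    refine chn_mono D ?_ h
    have e : (8 * m ^ 2) ^ (k + 1) * M0 = 8 * (m ^ 2 * M) := by
      rw [hM, pow_succ]
      ring
    rw [e]
    have i1 : M ≤ m ^ 2 * M := Nat.le_mul_of_pos_left _ (by omega)
    have i2 : m * M ≤ m ^ 2 * M := by
      apply Nat.mul_le_mul_right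
      rw [pow_two]
      exact Nat.le_mul_of_pos_left _ (by omega)
    have i3 : m * (m * M0) ≤ m ^ 2 * M := by
      rw [← mul_assoc, ← pow_two]
      exact Nat.mul_le_mul_left _ hM0
    have i4 : m * (m * M) = m ^ 2 * M := by
      rw [← mul_assoc, ← pow_two]
    omega

end Pool.Agent.H147R2.RI
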