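import Pool.Agent.H147R2.RI.RDef

set_option autoImplicit false

/-!
The iterated commutators of two elements whose linear parts are near the identity: their linear
parts tend to the identity and their translation parts tend to zero, geometrically.
-/

namespace Pool.Agent.H147R2.RI

open Pool.Agent.H779R2.To Filter Topology

variable {V Z Γ : Type*} [NormedAddCommGroup V] [InnerProductSpace ℝ V] [FiniteDimensional ℝ V]
  [MetricSpace Z] [Group Γ]

omit [FiniteDimensional ℝ V] in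
theorem r8_comp (D : RDat V Z Γ) (g h : Γ) (v : V) : D.L (g * h) v = D.L g (D.L h v) := by
  rw [map_mul]
  rfl

omit [FiniteDimensional ℝ V] in
/-- One step, linear part. -/
theorem r8_lin (D : RDat V Z Γ) (ε δ : ℝ) (h0 : 0 ≤ ε) (hd : 0 ≤ δ) (a c : Γ)
    (ha : Near D ε a) (hc : Near D δ c) : Near D (2 * ε * δ) (a * c * a⁻¹ * c⁻¹) := by
  intro v
  set w : V := D.L (a⁻¹ * c⁻¹) v with hw
  have hwn : ‖w‖ = ‖v‖ := by rw [hw]; exact (D.L (a⁻¹ * c⁻¹)).norm_map v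
  have h1 : v = D.L c (D.L a w) := by
    rw [hw, ← r8_comp, ← r8_comp]
    have : c * a * (a⁻¹ * c⁻¹) = 1 := by group
    rw [this, map_one]
    rfl
  have h2 : D.L (a * c * a⁻¹ * c⁻¹) v = D.L a (D.L c w) := by
    rw [hw, ← r8_comp, ← r8_comp]
    congr 2
    group
  have h3 : D.L (a * c * a⁻¹ * c⁻¹) v - v
      = (D.L a (D.L c w - w) - (D.L c w - w)) - (D.L c (D.L a w - w) - (D.L a w - w)) := by
    rw [h2]
    nth_rewrite 1 [h1]
    rw [map_sub, map_sub]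
    abel
  have h4 : ‖D.L a (D.L c w - w) - (D.L c w - w)‖ ≤ ε * (δ * ‖v‖) := by
    refine (ha _).trans (mul_le_mul_of_nonneg_left ?_ h0)
    rw [← hwn]
    exact hc w
  have h5 : ‖D.L c (D.L a w - w) - (D.L a w - w)‖ ≤ δ * (ε * ‖v‖) := by
    refine (hc _).trans (mul_le_mul_of_nonneg_left ?_ hd)
    rw [← hwn]
    exact ha w
  rw [h3]
  refine (norm_sub_le _ _).trans ?_
  calc _ ≤ ε * (δ * ‖v‖) + δ * (ε * ‖v‖) := add_le_add h4 h5
    _ = 2 * ε * δ * ‖v‖ := by ring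

omit [FiniteDimensional ℝ V] in
/-- One step, translation part. -/
theorem r8_tr (D : RDat V Z Γ) (ε δ η : ℝ) (h0 : 0 ≤ ε) (hd : 0 ≤ δ) (a c : Γ)
    (ha : Near D ε a) (hc : Near D δ c) (ha' : ‖D.b a‖ ≤ 1) (hc' : ‖D.b c‖ ≤ η) (hη : η ≤ 1) :
    ‖D.b (a * c * a⁻¹ * c⁻¹)‖ ≤ ε * η + δ + 4 * ε * δ := by
  have hmul : (a * c * a⁻¹ * c⁻¹) * (c * a) = a * c := by group
  have h1 := D.b_mul (a * c * a⁻¹ * c⁻¹) (c * a)
  rw [hmul, D.b_mul a c, D.b_mul c a] at h1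
  have h2 : D.b (a * c * a⁻¹ * c⁻¹)
      = (D.L a (D.b c) - D.b c) - (D.L c (D.b a) - D.b a)
        - (D.L (a * c * a⁻¹ * c⁻¹) (D.L c (D.b a) + D.b c) - (D.L c (D.b a) + D.b c)) := by
    have h3 : D.b (a * c * a⁻¹ * c⁻¹) = D.L a (D.b c) + D.b a
        - D.L (a * c * a⁻¹ * c⁻¹) (D.L c (D.b a) + D.b c) := by
      rw [h1]
      abel
    nth_rewrite 1 [h3]
    abel
  have h4 : ‖D.L c (D.b a) + D.b c‖ ≤ 2 := by
    refine (norm_add_le _ _).trans ?_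
    rw [(D.L c).norm_map]
    linarith
  have h5 : ‖D.L a (D.b c) - D.b c‖ ≤ ε * η :=
    (ha _).trans (mul_le_mul_of_nonneg_left hc' h0)
  have h6 : ‖D.L c (D.b a) - D.b a‖ ≤ δ * 1 :=
    (hc _).trans (mul_le_mul_of_nonneg_left ha' hd)
  have h7 : ‖D.L (a * c * a⁻¹ * c⁻¹) (D.L c (D.b a) + D.b c) - (D.L c (D.b a) + D.b c)‖
      ≤ 2 * ε * δ * 2 :=
    (r8_lin D ε δ h0 hd a c ha hc _).trans
      (mul_le_mul_of_nonneg_left h4 (by positivity))
  rw [h2]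
  refine (norm_sub_le _ _).trans ?_
  have h8 := norm_sub_le (D.L a (D.b c) - D.b c) (D.L c (D.b a) - D.b a)
  linarith

theorem cm_decay (D : RDat V Z Γ) (ε : ℝ) (h0 : 0 < ε) (hε : ε ≤ 1 / 8) (a c : Γ)
    (ha : Near D ε a) (hc : Near D ε c) (ha' : ‖D.b a‖ ≤ 1) (hc' : ‖D.b c‖ ≤ 1) (k : ℕ) :
    Near D ((2 * ε) ^ k * ε) (cm a c k) ∧ ‖D.b (cm a c k)‖ ≤ (4 * ε) ^ k := by
  induction k with
  | zero =>
    refine ⟨?_, ?_⟩
    · rw [pow_zero, one_mul]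
      exact hc
    · rw [pow_zero]
      exact hc'
  | succ k ih =>
    obtain ⟨ih1, ih2⟩ := ih
    have hp2 : 0 ≤ (2 * ε) ^ k := by positivity
    have h24 : (2 * ε) ^ k ≤ (4 * ε) ^ k := pow_le_pow_left₀ (by positivity) (by linarith) k
    have h41 : (4 * ε) ^ k ≤ 1 := pow_le_one₀ (by positivity) (by linarith)
    refine ⟨?_, ?_⟩
    · have h := r8_lin D ε ((2 * ε) ^ k * ε) h0.le (by positivity) a (cm a c k) ha ih1
      have e : (2 * ε) ^ (k + 1) * ε = 2 * ε * ((2 * ε) ^ k * ε) := by ring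
      rw [e]
      exact h
    · have h := r8_tr D ε ((2 * ε) ^ k * ε) ((4 * ε) ^ k) h0.le (by positivity) a (cm a c k)
        ha ih1 ha' ih2 h41
      refine (show ‖D.b (cm a c (k + 1))‖ ≤ _ from h).trans ?_
      have e : (4 * ε) ^ (k + 1) = (4 * ε) * (4 * ε) ^ k := by ring
      rw [e]
      have h6 : 4 * ε * ((2 * ε) ^ k * ε) ≤ 1 * ((2 * ε) ^ k * ε) :=
        mul_le_mul_of_nonneg_right (by linarith) (by positivity)
      have h7 : (2 * ε) ^ k * ε ≤ (4 * ε) ^ k * ε := mul_le_mul_of_nonneg_right h24 h0.le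
      have h8 : 0 ≤ (4 * ε) ^ k * ε := by positivity
      linarith

end Pool.Agent.H147R2.RI
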