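import Pool.Agent.H147R2.RI.RDef
import Pool.Agent.H147R2.RI.R4
import Pool.Agent.H147R2.RI.R5
import Pool.Agent.H147R2.RI.R6
import Pool.Agent.H147R2.RI.R7
import Pool.Agent.H147R2.RI.R8
import Pool.Agent.H147R2.RI.R9

set_option autoImplicit false

namespace Pool.Agent.H147R2.RI

open Pool.Agent.H779R2.To Filter Topology

variable {V Z Γ : Type*} [NormedAddCommGroup V] [InnerProductSpace ℝ V] [FiniteDimensional ℝ V]
  [MetricSpace Z] [Group Γ]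

theorem R10a_iter_fix {α : Type*} (f : α → α) (x : α) (h : f x = x) (n : ℕ) : f^[n] x = x :=
  Function.iterate_fixed h n

/-- R10a: iterated commutators of near-identity elements with small translation parts are
trivial. -/
theorem cm_one (D : RDat V Z Γ) : ∃ ε > 0, ε ≤ 1 / 8 ∧ ∀ a c, Near D ε a → Near D ε c →
    ‖D.b a‖ ≤ 1 → ‖D.b c‖ ≤ 1 → ∃ k, cm a c k = 1 := by
  obtain ⟨m, hm1, hm⟩ := transfer D
  obtain ⟨p, hp⟩ : ∃ p : ℕ, 8 * m ^ 2 ≤ 2 ^ p := ⟨8 * m ^ 2, Nat.lt_two_pow_self.le⟩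
  have hμ : 2 ≤ D.μ := D.two_le
  have hμ0 : 0 < D.μ := by linarith
  have hμ1 : 1 ≤ D.μ := by linarith
  have hε0 : 0 < min (1 / 8 : ℝ) (1 / (8 * D.μ ^ p)) := by positivity
  have hε8 : min (1 / 8 : ℝ) (1 / (8 * D.μ ^ p)) ≤ 1 / 8 := min_le_left _ _
  have hεp : min (1 / 8 : ℝ) (1 / (8 * D.μ ^ p)) ≤ 1 / (8 * D.μ ^ p) := min_le_right _ _
  generalize min (1 / 8 : ℝ) (1 / (8 * D.μ ^ p)) = ε at hε0 hε8 hεp
  refine ⟨ε, hε0, hε8, ?_⟩
  intro a c ha hc hba hbc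
  have hdec := cm_decay D ε hε0 hε8 a c ha hc hba hbc
  have hb : ∀ k, ‖D.b (cm a c k)‖ ≤ 1 := fun k =>
    (hdec k).2.trans (pow_le_one₀ (by positivity) (by linarith))
  obtain ⟨M0, hM0⟩ := D.st_chain {0} {D.z0, D.σ a D.z0, D.σ c D.z0} isCompact_singleton
    (Set.Finite.isCompact (Set.toFinite _))
  have hMa : Chn D.St 0 M0 D.z0 (D.σ a D.z0) :=
    hM0 0 rfl D.z0 (by simp) (D.σ a D.z0) (by simp)
  have hMc : Chn D.St 0 M0 D.z0 (D.σ c D.z0) :=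
    hM0 0 rfl D.z0 (by simp) (D.σ c D.z0) (by simp)
  obtain ⟨q, hq⟩ : ∃ q : ℕ, M0 ≤ 2 ^ q := ⟨M0, Nat.lt_two_pow_self.le⟩
  have hchain := cm_chain D hm1 hm a c hba M0 hb hMa hMc
  refine eventually_one D (cm a c) (fun k => k * p + q) (fun k => D.μ ^ q * (1 / 2) ^ k)
    ?_ ?_ ?_ ?_
  · have h1 : Tendsto (fun k : ℕ => ((1 : ℝ) / 2) ^ k) atTop (𝓝 0) :=
      tendsto_pow_atTop_nhds_zero_of_lt_one (by norm_num) (by norm_num)
    simpa using h1.const_mul (D.μ ^ q)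
  · intro k v
    refine ((hdec k).1 v).trans ?_
    refine mul_le_mul_of_nonneg_right ?_ (norm_nonneg v)
    have h1 : (2 * ε) ^ k ≤ (1 / 2) ^ k := pow_le_pow_left₀ (by positivity) (by linarith) k
    have h2 : 1 ≤ D.μ ^ q := one_le_pow₀ hμ1
    have h3 : (0 : ℝ) ≤ (1 / 2) ^ k := by positivity
    calc (2 * ε) ^ k * ε ≤ (1 / 2) ^ k * 1 := mul_le_mul h1 (by linarith) hε0.le h3
      _ ≤ D.μ ^ q * (1 / 2) ^ k := by nlinarith
  · intro k
    show ‖D.A^[k * p + q] (D.b (cm a c k))‖ ≤ D.μ ^ q * (1 / 2) ^ k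
    rw [A_iter]
    have h1 := (hdec k).2
    have h2 : D.μ ^ p * (4 * ε) ≤ 1 / 2 := by
      have h3 : D.μ ^ p * (4 * ε) ≤ D.μ ^ p * (4 * (1 / (8 * D.μ ^ p))) := by
        refine mul_le_mul_of_nonneg_left ?_ (by positivity)
        linarith
      refine h3.trans (le_of_eq ?_)
      field_simp
      norm_num
    calc D.μ ^ (k * p + q) * ‖D.b (cm a c k)‖ ≤ D.μ ^ (k * p + q) * (4 * ε) ^ k :=
          mul_le_mul_of_nonneg_left h1 (by positivity)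
      _ = D.μ ^ q * (D.μ ^ p * (4 * ε)) ^ k := by
          rw [mul_pow, pow_add, mul_comm k p, pow_mul]; ring
      _ ≤ D.μ ^ q * (1 / 2) ^ k :=
          mul_le_mul_of_nonneg_left (pow_le_pow_left₀ (by positivity) h2 k) (by positivity)
  · intro k
    show D.St 0 D.z0 (D.G^[k * p + q] (D.σ (cm a c k) D.z0))
    have h1 : (8 * m ^ 2) ^ k * M0 ≤ 2 ^ (k * p + q) := by
      calc (8 * m ^ 2) ^ k * M0 ≤ (2 ^ p) ^ k * 2 ^ q :=
            Nat.mul_le_mul (Nat.pow_le_pow_left hp k) hq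
        _ = 2 ^ (k * p + q) := by rw [← pow_mul, ← pow_add, mul_comm p k]
    have h2 := chn_halve D (k * p + q) 0 D.z0 (D.σ (cm a c k) D.z0)
      (chn_mono D h1 (hchain k))
    rw [R10a_iter_fix D.A 0 (map_zero D.A), R10a_iter_fix D.G D.z0 D.G_z0] at h2
    exact h2

end Pool.Agent.H147R2.RI
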