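import Pool.Agent.H147R2.RI.RDef

set_option autoImplicit false

namespace Pool.Agent.H147R2.RI

open Pool.Agent.H779R2.To Filter Topology

/-- The underlying endomorphism. -/
noncomputable def R1_T {V : Type*} [NormedAddCommGroup V] [InnerProductSpace ℝ V]
    (f : V ≃ₗᵢ[ℝ] V) : Module.End ℝ V := f.toLinearEquiv.toLinearMap

theorem R1_T_apply {V : Type*} [NormedAddCommGroup V] [InnerProductSpace ℝ V]
    (f : V ≃ₗᵢ[ℝ] V) (v : V) : R1_T f v = f v := rfl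

theorem R1_T_mul {V : Type*} [NormedAddCommGroup V] [InnerProductSpace ℝ V]
    (f g : V ≃ₗᵢ[ℝ] V) : R1_T (f * g) = R1_T f * R1_T g := rfl

theorem R1_trace_conj {V : Type*} [NormedAddCommGroup V] [InnerProductSpace ℝ V]
    (f g : V ≃ₗᵢ[ℝ] V) :
    LinearMap.trace ℝ V (R1_T (f * g * f⁻¹)) = LinearMap.trace ℝ V (R1_T g) := by
  rw [R1_T_mul, LinearMap.trace_mul_comm, ← R1_T_mul, ← mul_assoc, inv_mul_cancel, one_mul]

theorem R1_inner {V : Type*} [NormedAddCommGroup V] [InnerProductSpace ℝ V]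
    (z : V ≃ₗᵢ[ℝ] V) (e u : V) : inner ℝ (z⁻¹ e) u = inner ℝ e (z u) := by
  have h1 : z (z⁻¹ e) = e := z.apply_symm_apply e
  rw [← z.inner_map_map (z⁻¹ e) u, h1]

/-- R1: an isometry commuting with its commutator with a near-identity isometry. -/
theorem frob {V : Type*} [NormedAddCommGroup V] [InnerProductSpace ℝ V] [FiniteDimensional ℝ V]
    (x y : V ≃ₗᵢ[ℝ] V) (c : ℝ) (hc : c < 1) (hy : ∀ v, ‖y v - v‖ ≤ c * ‖v‖)
    (h : x * (x * y * x⁻¹ * y⁻¹) = (x * y * x⁻¹ * y⁻¹) * x) : x * y * x⁻¹ * y⁻¹ = 1 := by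
  set z := x * y * x⁻¹ * y⁻¹ with hz
  have h1 : x * y * x⁻¹ = z * y := by rw [hz]; group
  have hz' : x * z⁻¹ = z⁻¹ * x := by
    have h2 : Commute x z := h
    exact h2.inv_right
  have h2 : x * (z⁻¹ * y) * x⁻¹ = y := by
    calc x * (z⁻¹ * y) * x⁻¹ = (x * z⁻¹) * y * x⁻¹ := by group
      _ = z⁻¹ * (x * y * x⁻¹) := by rw [hz']; group
      _ = y := by rw [h1]; group
  have t1 : LinearMap.trace ℝ V (R1_T (z * y)) = LinearMap.trace ℝ V (R1_T y) := by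
    rw [← h1, R1_trace_conj]
  have t2 : LinearMap.trace ℝ V (R1_T (z⁻¹ * y)) = LinearMap.trace ℝ V (R1_T y) := by
    rw [← R1_trace_conj x (z⁻¹ * y), h2]
  set b := stdOrthonormalBasis ℝ V with hb
  have t3 : ∑ i, inner ℝ (b i - z⁻¹ (b i)) (y (b i - z⁻¹ (b i))) = 0 := by
    have h3 : ∀ i, inner ℝ (b i - z⁻¹ (b i)) (y (b i - z⁻¹ (b i))) =
        inner ℝ (b i) ((R1_T y + R1_T y - R1_T z * R1_T y - R1_T y * R1_T z⁻¹
          - (R1_T y - R1_T z * (R1_T y * R1_T z⁻¹))) (b i)) := by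
      intro i
      have h4 : (R1_T y + R1_T y - R1_T z * R1_T y - R1_T y * R1_T z⁻¹
          - (R1_T y - R1_T z * (R1_T y * R1_T z⁻¹))) (b i) =
          y (b i - z⁻¹ (b i)) - z (y (b i - z⁻¹ (b i))) := by
        show (y (b i) + y (b i) - z (y (b i)) - y (z⁻¹ (b i))
          - (y (b i) - z (y (z⁻¹ (b i))))) = _
        rw [map_sub, map_sub]
        abel
      rw [h4, inner_sub_left, R1_inner, ← inner_sub_right]
    rw [Finset.sum_congr rfl fun i _ => h3 i, ← LinearMap.trace_eq_sum_inner]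
    rw [map_sub, map_sub, map_sub, map_sub, map_add]
    have t4 : LinearMap.trace ℝ V (R1_T z * (R1_T y * R1_T z⁻¹)) = LinearMap.trace ℝ V (R1_T y) := by
      rw [← R1_T_mul, ← R1_T_mul, ← mul_assoc, R1_trace_conj]
    have t5 : LinearMap.trace ℝ V (R1_T y * R1_T z⁻¹) = LinearMap.trace ℝ V (R1_T y) := by
      rw [LinearMap.trace_mul_comm, ← R1_T_mul, t2]
    rw [t4, t5, ← R1_T_mul, t1]
    ring
  have h5 : ∀ i, (1 - c) * ‖b i - z⁻¹ (b i)‖ ^ 2 ≤
      inner ℝ (b i - z⁻¹ (b i)) (y (b i - z⁻¹ (b i))) := by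
    intro i
    set w := b i - z⁻¹ (b i) with hw
    have h6 : inner ℝ w (y w) = ‖w‖ ^ 2 + inner ℝ w (y w - w) := by
      rw [inner_sub_right, real_inner_self_eq_norm_sq]
      ring
    have h7 : |inner ℝ w (y w - w)| ≤ ‖w‖ * ‖y w - w‖ := abs_real_inner_le_norm _ _
    have h8 : ‖w‖ * ‖y w - w‖ ≤ ‖w‖ * (c * ‖w‖) :=
      mul_le_mul_of_nonneg_left (hy w) (norm_nonneg w)
    rw [h6]
    have h9 := (abs_le.mp (h7.trans h8)).1
    nlinarith
  have h10 : ∀ i, b i - z⁻¹ (b i) = 0 := by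
    intro i
    have h11 : ∑ i, (1 - c) * ‖b i - z⁻¹ (b i)‖ ^ 2 ≤ 0 := by
      rw [← t3]
      exact Finset.sum_le_sum fun i _ => h5 i
    have h12 : (1 - c) * ‖b i - z⁻¹ (b i)‖ ^ 2 ≤ ∑ i, (1 - c) * ‖b i - z⁻¹ (b i)‖ ^ 2 :=
      Finset.single_le_sum (f := fun i => (1 - c) * ‖b i - z⁻¹ (b i)‖ ^ 2)
        (fun j _ => mul_nonneg (by linarith) (sq_nonneg _)) (Finset.mem_univ i)
    have h13 : (1 - c) * ‖b i - z⁻¹ (b i)‖ ^ 2 ≤ 0 := h12.trans h11
    have h14 : ‖b i - z⁻¹ (b i)‖ ^ 2 ≤ 0 := by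
      by_contra hcon
      push Not at hcon
      have := mul_pos (by linarith : 0 < 1 - c) hcon
      linarith
    have h15 : ‖b i - z⁻¹ (b i)‖ = 0 := by
      have := sq_nonneg ‖b i - z⁻¹ (b i)‖
      exact pow_eq_zero_iff (two_ne_zero) |>.mp (le_antisymm h14 this)
    exact norm_eq_zero.mp h15
  have h16 : z⁻¹ = 1 := by
    have h17 : (z⁻¹ : V ≃ₗᵢ[ℝ] V).toLinearEquiv.toLinearMap = LinearMap.id := by
      apply b.toBasis.ext
      intro i
      rw [OrthonormalBasis.coe_toBasis]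
      exact (sub_eq_zero.mp (h10 i)).symm
    ext v
    exact LinearMap.congr_fun h17 v
  rw [← inv_inv z, h16, inv_one]

end Pool.Agent.H147R2.RI
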