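import Pool.Agent.H147R2.RI.RDef

set_option autoImplicit false

namespace Pool.Agent.H147R2.RI

open Pool.Agent.H779R2.To Filter Topology

variable {V Z Γ : Type*} [NormedAddCommGroup V] [InnerProductSpace ℝ V] [FiniteDimensional ℝ V]
  [MetricSpace Z] [Group Γ]

/-- auxiliary: `(R - 1)^2 w = 0` implies `(R - 1) w = 0` for an isometry -/
theorem R2_unip (R : V ≃ₗᵢ[ℝ] V) (w : V) (h : R (R w - w) = R w - w) : R w = w := by
  have h1 : inner ℝ (R w - w) (R w - w) = (0 : ℝ) := by
    have e1 : inner ℝ (R w) (R w - w) = inner ℝ w (R w - w) := by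
      conv_lhs => rw [← h]
      exact R.inner_map_map w (R w - w)
    rw [inner_sub_left, e1, sub_self]
  exact sub_eq_zero.mp (inner_self_eq_zero.mp h1)

theorem R2_unip_pow (R : V ≃ₗᵢ[ℝ] V) (f : V → V) (hf : f = fun v => R v - v) (j : ℕ) (w : V)
    (h : f^[j] w = 0) : R w = w := by
  induction j generalizing w with
  | zero =>
    have : w = 0 := h
    rw [this, map_zero]
  | succ j ih =>
    rw [Function.iterate_succ_apply] at h
    have h2 := ih (f w) h
    rw [hf] at h2
    exact R2_unip R w h2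

theorem R2_cm (D : RDat V Z Γ) (a c : Γ) (h : D.L (a * c) = D.L (c * a)) (j : ℕ) :
    D.L (cm a c (j + 1)) = 1 ∧
      D.b (cm a c (j + 1)) = (fun v => D.L a v - v)^[j] (D.b (a * c * a⁻¹ * c⁻¹)) := by
  induction j with
  | zero =>
    refine ⟨?_, rfl⟩
    show D.L (a * c * a⁻¹ * c⁻¹) = 1
    rw [map_mul, map_mul, h, ← map_mul, ← map_mul]
    have : c * a * a⁻¹ * c⁻¹ = 1 := by group
    rw [this, map_one]
  | succ j ih =>
    obtain ⟨i1, i2⟩ := ih
    have hinv : D.L ((cm a c (j + 1))⁻¹) = 1 := by rw [map_inv, i1, inv_one]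
    constructor
    · show D.L (a * cm a c (j + 1) * a⁻¹ * (cm a c (j + 1))⁻¹) = 1
      rw [map_mul, map_mul, map_mul, i1, hinv, mul_one, mul_one, ← map_mul, mul_inv_cancel, map_one]
    · rw [Function.iterate_succ_apply', ← i2]
      show D.b (a * cm a c (j + 1) * a⁻¹ * (cm a c (j + 1))⁻¹) =
        D.L a (D.b (cm a c (j + 1))) - D.b (cm a c (j + 1))
      set t := cm a c (j + 1) with ht
      have one_app : ∀ v : V, (1 : V ≃ₗᵢ[ℝ] V) v = v := fun v => rfl
      have e1 : D.b t⁻¹ = - D.b t := by rw [D.b_inv, hinv, one_app]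
      have e2 : D.L (a * t * a⁻¹) = 1 := by
        rw [map_mul, map_mul, i1, mul_one, ← map_mul, mul_inv_cancel, map_one]
      rw [D.b_mul (a * t * a⁻¹), e2, one_app, e1, D.b_mul (a * t), D.b_mul a t]
      have e3 : D.L (a * t) (D.b a⁻¹) = - D.b a := by
        rw [D.b_inv, map_neg, map_mul, i1, mul_one]
        congr 1
        have : D.L a (D.L a⁻¹ (D.b a)) = (D.L a * D.L a⁻¹) (D.b a) := rfl
        rw [this, ← map_mul, mul_inv_cancel, map_one]
        rfl
      rw [e3]
      abel

/-- R2: if the linear parts of `a`, `c` commute and the iterated commutators are trivial then `a`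
and `c` commute. -/
theorem comm_of_lin (D : RDat V Z Γ) (a c : Γ) (h : D.L (a * c) = D.L (c * a)) (k k' : ℕ)
    (h1 : cm a c k = 1) (h2 : cm c a k' = 1) : a * c = c * a := by
  have one_app : ∀ v : V, (1 : V ≃ₗᵢ[ℝ] V) v = v := fun v => rfl
  cases k with
  | zero =>
    have : c = 1 := h1
    rw [this, mul_one, one_mul]
  | succ j =>
    cases k' with
    | zero =>
      have : a = 1 := h2
      rw [this, mul_one, one_mul]
    | succ j' =>
      obtain ⟨-, b1⟩ := R2_cm D a c h j
      obtain ⟨l2, b2⟩ := R2_cm D c a h.symm j'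
      obtain ⟨l0, -⟩ := R2_cm D a c h 0
      rw [h1, D.b_one] at b1
      rw [h2, D.b_one] at b2
      set t := a * c * a⁻¹ * c⁻¹ with ht
      have lt : D.L t = 1 := l0
      have lti : D.L t⁻¹ = 1 := by rw [map_inv, lt, inv_one]
      have ha : D.L a (D.b t) = D.b t := R2_unip_pow (D.L a) _ rfl j (D.b t) b1.symm
      have hti : c * a * c⁻¹ * a⁻¹ = t⁻¹ := by rw [ht]; group
      rw [hti] at b2
      have hc' : D.L c (D.b t⁻¹) = D.b t⁻¹ := R2_unip_pow (D.L c) _ rfl j' (D.b t⁻¹) b2.symm
      have ebt : D.b t⁻¹ = - D.b t := by rw [D.b_inv, lti, one_app]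
      have hc : D.L c (D.b t) = D.b t := by
        rw [ebt, map_neg] at hc'
        exact neg_injective hc'
      have hac : a * c = t * (c * a) := by rw [ht]; group
      have htau : D.b t = (D.L a (D.b c) - D.b c) - (D.L c (D.b a) - D.b a) := by
        have e := congrArg D.b hac
        rw [D.b_mul a c, D.b_mul t, lt, one_app, D.b_mul c a] at e
        have e' : D.b t = (D.L a (D.b c) + D.b a) - (D.L c (D.b a) + D.b c) := by
          rw [e]; abel
        rw [e']; abel
      have z1 : ∀ (R : V ≃ₗᵢ[ℝ] V) (w τ : V), R τ = τ → inner ℝ (R w - w) τ = (0 : ℝ) := by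
        intro R w τ hR
        rw [inner_sub_left]
        have : inner ℝ (R w) τ = (inner ℝ w τ : ℝ) := by
          conv_lhs => rw [← hR]
          exact R.inner_map_map w τ
        rw [this, sub_self]
      have h0 : inner ℝ (D.b t) (D.b t) = (0 : ℝ) := by
        nth_rewrite 1 [htau]
        rw [inner_sub_left, z1 _ _ _ ha, z1 _ _ _ hc, sub_zero]
      have hb : D.b t = 0 := inner_self_eq_zero.mp h0
      have ht1 : t = 1 := D.inj t lt hb
      rw [hac, ht1, one_mul]

end Pool.Agent.H147R2.RI
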