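import Pool.Agent.H147R2.RI.RDef
import Pool.Agent.H147R2.RI.R1
import Pool.Agent.H147R2.RI.R2

set_option autoImplicit false

namespace Pool.Agent.H147R2.RI

open Pool.Agent.H779R2.To Filter Topology

theorem R3_comm {V : Type*} [NormedAddCommGroup V] [InnerProductSpace ℝ V] (x y : V ≃ₗᵢ[ℝ] V)
    (e e' : ℝ) (he : 0 ≤ e) (he' : 0 ≤ e') (hx : ∀ v, ‖x v - v‖ ≤ e * ‖v‖)
    (hy : ∀ v, ‖y v - v‖ ≤ e' * ‖v‖) (v : V) :
    ‖(x * y * x⁻¹ * y⁻¹) v - v‖ ≤ 2 * e * e' * ‖v‖ := by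
  obtain ⟨w, hw⟩ : ∃ w, y (x w) = v := ⟨x.symm (y.symm v), by simp⟩
  have h1 : (x * y * x⁻¹ * y⁻¹) v = x (y w) := by
    rw [← hw]
    change x (y (x.symm (y.symm (y (x w))))) = x (y w)
    rw [y.symm_apply_apply, x.symm_apply_apply]
  have hn : ‖w‖ = ‖v‖ := by rw [← hw, y.norm_map, x.norm_map]
  have h2 : (x * y * x⁻¹ * y⁻¹) v - v = (x (y w - w) - (y w - w)) - (y (x w - w) - (x w - w)) := by
    rw [h1, ← hw, map_sub, map_sub]
    abel
  rw [h2, ← hn]
  have h3 : ‖x (y w - w) - (y w - w)‖ ≤ e * (e' * ‖w‖) :=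
    (hx _).trans (mul_le_mul_of_nonneg_left (hy w) he)
  have h4 : ‖y (x w - w) - (x w - w)‖ ≤ e' * (e * ‖w‖) :=
    (hy _).trans (mul_le_mul_of_nonneg_left (hx w) he')
  refine (norm_sub_le _ _).trans ?_
  nlinarith [h3, h4]

variable {V Z Γ : Type*} [NormedAddCommGroup V] [InnerProductSpace ℝ V] [FiniteDimensional ℝ V]
  [MetricSpace Z] [Group Γ]

/-- R3: near-identity elements with trivial iterated commutators commute. -/
theorem comm_of_cm (D : RDat V Z Γ) (ε : ℝ) (hε : ε ≤ 1 / 8) (a c : Γ) (ha : Near D ε a)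
    (hc : Near D ε c) (k k' : ℕ) (h1 : cm a c k = 1) (h2 : cm c a k' = 1) : a * c = c * a := by
  have hx : ∀ v, ‖D.L a v - v‖ ≤ 1 / 8 * ‖v‖ := fun v =>
    (ha v).trans (mul_le_mul_of_nonneg_right hε (norm_nonneg _))
  have hsucc : ∀ j, D.L (cm a c (j + 1)) =
      D.L a * D.L (cm a c j) * (D.L a)⁻¹ * (D.L (cm a c j))⁻¹ := by
    intro j
    rw [cm, map_mul, map_mul, map_mul, map_inv, map_inv]
  have hy : ∀ j, ∀ v, ‖D.L (cm a c j) v - v‖ ≤ 1 / 2 * ‖v‖ := by
    intro j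
    induction j with
    | zero =>
      intro v
      refine (hc v).trans (mul_le_mul_of_nonneg_right (by linarith) (norm_nonneg _))
    | succ j ih =>
      intro v
      rw [hsucc]
      refine (R3_comm (D.L a) (D.L (cm a c j)) (1 / 8) (1 / 2) (by norm_num) (by norm_num)
        hx ih v).trans (mul_le_mul_of_nonneg_right (by norm_num) (norm_nonneg _))
  have hdesc : ∀ j, D.L (cm a c (j + 2)) = 1 → D.L (cm a c (j + 1)) = 1 := by
    intro j hj
    rw [hsucc (j + 1)] at hj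
    have h3 : D.L a * D.L (cm a c (j + 1)) = D.L (cm a c (j + 1)) * D.L a := by
      have h4 : D.L a * D.L (cm a c (j + 1)) * (D.L a)⁻¹ * (D.L (cm a c (j + 1)))⁻¹ *
          (D.L (cm a c (j + 1)) * D.L a) = D.L a * D.L (cm a c (j + 1)) := by group
      rw [← h4, hj, one_mul]
    rw [hsucc j] at h3 ⊢
    exact frob (D.L a) (D.L (cm a c j)) (1 / 2) (by norm_num) (hy j) h3
  have hone : ∀ j, D.L (cm a c (j + 1)) = 1 → D.L (cm a c 1) = 1 := by
    intro j
    induction j with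
    | zero => exact id
    | succ j ih => exact fun h => ih (hdesc j h)
  cases k with
  | zero =>
    have hc1 : c = 1 := h1
    rw [hc1, mul_one, one_mul]
  | succ k =>
    have h3 : D.L (cm a c 1) = 1 := hone k (by rw [h1, map_one])
    rw [hsucc 0] at h3
    have h4 : D.L (a * c) = D.L (c * a) := by
      have h5 : D.L a * D.L c * (D.L a)⁻¹ * (D.L c)⁻¹ * (D.L c * D.L a) = D.L a * D.L c := by
        group
      have h6 : D.L a * D.L c * (D.L a)⁻¹ * (D.L c)⁻¹ = 1 := h3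
      rw [map_mul, map_mul, ← h5, h6, one_mul]
    exact comm_of_lin D a c h4 (k + 1) k' h1 h2

end Pool.Agent.H147R2.RI
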