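import Pool.Agent.H147R2.RI.RDef
import Pool.Agent.H147R2.RI.R3
import Pool.Agent.H147R2.RI.R9
import Pool.Agent.H147R2.RI.R10a

set_option autoImplicit false

namespace Pool.Agent.H147R2.RI

open Pool.Agent.H779R2.To Filter Topology

variable {V Z Γ : Type*} [NormedAddCommGroup V] [InnerProductSpace ℝ V] [FiniteDimensional ℝ V]
  [MetricSpace Z] [Group Γ]

/-- R10b: near-identity elements commute. -/
theorem near_comm (D : RDat V Z Γ) : ∃ ε > 0, ∀ a c, Near D ε a → Near D ε c →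
    a * c = c * a := by
  obtain ⟨ε, hε, hε8, hcm⟩ := cm_one D
  refine ⟨ε, hε, ?_⟩
  intro a c ha hc
  have hμ : 1 < D.μ := lt_of_lt_of_le (by norm_num) D.two_le
  obtain ⟨n, hn⟩ := pow_unbounded_of_one_lt (max ‖D.b a‖ ‖D.b c‖) hμ
  have hpull : ∀ x : Γ, ∃ x' : Γ, D.φ^[n] x' = x := by
    intro x
    exact (D.φ.surjective.iterate n) x
  obtain ⟨a', ha'⟩ := hpull a
  obtain ⟨c', hc'⟩ := hpull c
  have hpow : 0 < D.μ ^ n := pow_pos (lt_trans one_pos hμ) n
  have hsmall : ∀ x x' : Γ, D.φ^[n] x' = x → ‖D.b x‖ ≤ D.μ ^ n → ‖D.b x'‖ ≤ 1 := by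
    intro x x' hx hb
    have h1 := (phi_iter D n x').1
    rw [hx] at h1
    have h2 := A_iter D n (D.b x')
    rw [← h1] at h2
    rw [h2] at hb
    have : D.μ ^ n * ‖D.b x'‖ ≤ D.μ ^ n * 1 := by rw [mul_one]; exact hb
    exact le_of_mul_le_mul_left this hpow
  have hba := hsmall a a' ha' ((le_max_left _ _).trans hn.le)
  have hbc := hsmall c c' hc' ((le_max_right _ _).trans hn.le)
  have hna : Near D ε a' := (near_phi D n ε a').1 (by rw [ha']; exact ha)
  have hnc : Near D ε c' := (near_phi D n ε c').1 (by rw [hc']; exact hc)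
  obtain ⟨k, hk⟩ := hcm a' c' hna hnc hba hbc
  obtain ⟨k', hk'⟩ := hcm c' a' hnc hna hbc hba
  have hcomm := comm_of_cm D ε hε8 a' c' hna hnc k k' hk hk'
  have h := congrArg (D.φ^[n]) hcomm
  rw [iterate_map_mul, iterate_map_mul, ha', hc'] at h
  exact h

end Pool.Agent.H147R2.RI
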