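import Pool.Agent.H147R2.RI.RDef

set_option autoImplicit false

namespace Pool.Agent.H147R2.RI

open Pool.Agent.H779R2.To Filter Topology

variable {V Z Γ : Type*} [NormedAddCommGroup V] [InnerProductSpace ℝ V] [FiniteDimensional ℝ V]
  [MetricSpace Z] [Group Γ]

/-- R11: compactness of the orthogonal group. -/
theorem near_fin (D : RDat V Z Γ) (ε : ℝ) (hε : 0 < ε) : ∃ Q : Finset Γ, ∀ a, ∃ q ∈ Q,
    Near D ε (q⁻¹ * a) := by
  classical
  have : ProperSpace (V →L[ℝ] V) := FiniteDimensional.proper ℝ (V →L[ℝ] V)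
  let T : Γ → (V →L[ℝ] V) := fun a => (D.L a).toLinearIsometry.toContinuousLinearMap
  have hTv : ∀ a v, T a v = D.L a v := fun a v => rfl
  have hsub : Set.range T ⊆ Metric.closedBall 0 1 := by
    rintro _ ⟨a, rfl⟩
    rw [mem_closedBall_zero_iff]
    refine ContinuousLinearMap.opNorm_le_bound _ zero_le_one fun v => ?_
    rw [hTv, (D.L a).norm_map, one_mul]
  have htb : TotallyBounded (Set.range T) :=
    (isCompact_closedBall (0 : V →L[ℝ] V) 1).totallyBounded.subset hsub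
  obtain ⟨t, ht, htf, hcov⟩ := Metric.finite_approx_of_totallyBounded htb ε hε
  have hex : ∀ y : V →L[ℝ] V, y ∈ t → ∃ a : Γ, T a = y := fun y hy => ht hy
  choose! g hg using hex
  refine ⟨htf.toFinset.image g, fun a => ?_⟩
  obtain ⟨y, hy, hay⟩ := Set.mem_iUnion₂.1 (hcov ⟨a, rfl⟩)
  refine ⟨g y, Finset.mem_image_of_mem _ (htf.mem_toFinset.2 hy), fun v => ?_⟩
  have h1 : ‖T a - T (g y)‖ ≤ ε := by
    rw [hg y hy, ← dist_eq_norm]
    exact (Metric.mem_ball.1 hay).le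
  have h2 : D.L (g y) (D.L ((g y)⁻¹ * a) v - v) = D.L a v - D.L (g y) v := by
    rw [map_sub]
    congr 1
    have h3 : D.L (g y) (D.L ((g y)⁻¹ * a) v) = (D.L (g y) * D.L ((g y)⁻¹ * a)) v := rfl
    rw [h3, ← map_mul, mul_inv_cancel_left]
  calc ‖D.L ((g y)⁻¹ * a) v - v‖ = ‖D.L (g y) (D.L ((g y)⁻¹ * a) v - v)‖ :=
        ((D.L (g y)).norm_map _).symm
    _ = ‖(T a - T (g y)) v‖ := by rw [h2]; rfl
    _ ≤ ‖T a - T (g y)‖ * ‖v‖ := ContinuousLinearMap.le_opNorm _ _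
    _ ≤ ε * ‖v‖ := mul_le_mul_of_nonneg_right h1 (norm_nonneg v)

end Pool.Agent.H147R2.RI
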