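import Pool.Agent.H147R2.RI.RDef
import Pool.Agent.H147R2.RI.R11

set_option autoImplicit false

namespace Pool.Agent.H147R2.RI

open Pool.Agent.H779R2.To Filter Topology

variable {V Z Γ : Type*} [NormedAddCommGroup V] [InnerProductSpace ℝ V] [FiniteDimensional ℝ V]
  [MetricSpace Z] [Group Γ]

omit [FiniteDimensional ℝ V] in
/-- displacement is equivariant for commuting elements -/
theorem r12_equi (D : RDat V Z Γ) (a c : Γ) (h : a * c = c * a) (v : V) :
    D.L a (D.L c v + D.b c) + D.b a - (D.L c v + D.b c) = D.L c (D.L a v + D.b a - v) := by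
  have h1 : D.L a (D.b c) + D.b a = D.L c (D.b a) + D.b c := by
    rw [← D.b_mul, ← D.b_mul, h]
  have h2 : D.L a (D.L c v) = D.L c (D.L a v) := by
    have e1 : D.L a (D.L c v) = (D.L a * D.L c) v := rfl
    have e2 : D.L c (D.L a v) = (D.L c * D.L a) v := rfl
    rw [e1, e2, ← map_mul, ← map_mul, h]
  rw [map_add, h2, add_assoc, h1, map_sub, map_add]
  abel

/-- R12: near-identity elements are translations. -/
theorem near_trans (D : RDat V Z Γ) (ε : ℝ) (hε : 0 < ε)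
    (h : ∀ a c, Near D ε a → Near D ε c → a * c = c * a) (a : Γ) (ha : Near D ε a) :
    D.L a = 1 := by
  obtain ⟨K, hK, hKc⟩ := D.cocompact
  obtain ⟨Q, hQ⟩ := near_fin D ε hε
  have hb : Bornology.IsBounded (Prod.fst '' K) := (hK.image continuous_fst).isBounded
  obtain ⟨R, hR⟩ := hb.exists_norm_le
  set B : ℝ := ∑ q ∈ Q, ‖D.b q⁻¹‖ with hB
  have hBq : ∀ q ∈ Q, ‖D.b q⁻¹‖ ≤ B := fun q hq =>
    Finset.single_le_sum (f := fun q => ‖D.b q⁻¹‖) (fun _ _ => norm_nonneg _) hq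
  have hd : ∀ v : V, ‖D.L a v - v‖ ≤ 2 * (R + B) + 2 * ‖D.b a‖ := by
    intro v
    obtain ⟨g, hg⟩ := hKc (v, D.z0)
    obtain ⟨q, hq, hnear⟩ := hQ g
    have hcomm := h a (q⁻¹ * g) ha hnear
    have h1 := r12_equi D a (q⁻¹ * g) hcomm v
    set w : V := D.L (q⁻¹ * g) v + D.b (q⁻¹ * g) with hw
    have hw2 : w = D.L q⁻¹ (D.L g v + D.b g) + D.b q⁻¹ := by
      rw [hw, D.b_mul, map_mul, map_add, add_assoc]
      rfl
    have hgv : ‖D.L g v + D.b g‖ ≤ R := hR _ ⟨_, hg, rfl⟩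
    have hwn : ‖w‖ ≤ R + B := by
      rw [hw2]
      refine (norm_add_le _ _).trans ?_
      rw [(D.L q⁻¹).norm_map]
      exact add_le_add hgv (hBq q hq)
    have h2 : ‖D.L a v + D.b a - v‖ = ‖D.L a w + D.b a - w‖ := by
      rw [h1, (D.L (q⁻¹ * g)).norm_map]
    have h3 : ‖D.L a w + D.b a - w‖ ≤ 2 * (R + B) + ‖D.b a‖ := by
      refine (norm_sub_le _ _).trans ?_
      have := norm_add_le (D.L a w) (D.b a)
      rw [(D.L a).norm_map] at this
      linarith
    have h4 : D.L a v - v = (D.L a v + D.b a - v) - D.b a := by abel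
    rw [h4]
    refine (norm_sub_le _ _).trans ?_
    rw [h2]
    linarith
  have hz : ∀ v : V, D.L a v = v := by
    intro v
    by_contra hne
    have hpos : 0 < ‖D.L a v - v‖ := norm_pos_iff.2 (sub_ne_zero.2 hne)
    obtain ⟨n, hn⟩ := exists_nat_gt ((2 * (R + B) + 2 * ‖D.b a‖) / ‖D.L a v - v‖)
    rw [div_lt_iff₀ hpos] at hn
    have h5 := hd ((n : ℝ) • v)
    rw [map_smul, ← smul_sub, norm_smul, Real.norm_natCast] at h5
    linarith
  ext v
  exact hz v

end Pool.Agent.H147R2.RI
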