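import Pool.Agent.H147R2.RI.RDef
import Pool.Agent.H147R2.RI.R10b
import Pool.Agent.H147R2.RI.R11
import Pool.Agent.H147R2.RI.R12

set_option autoImplicit false

namespace Pool.Agent.H147R2.RI

open Pool.Agent.H779R2.To Filter Topology

variable {V Z Γ : Type*} [NormedAddCommGroup V] [InnerProductSpace ℝ V] [FiniteDimensional ℝ V]
  [MetricSpace Z] [Group Γ]

/-- R13: the linear part is finite. -/
theorem ker_fin (D : RDat V Z Γ) : D.L.ker.FiniteIndex := by
  obtain ⟨ε, hε, hcomm⟩ := near_comm D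
  obtain ⟨Q, hQ⟩ := near_fin D ε hε
  have hsurj : Function.Surjective (fun q : Q => (QuotientGroup.mk (q : Γ) : Γ ⧸ D.L.ker)) := by
    intro y
    induction y using QuotientGroup.induction_on with
    | H a =>
      obtain ⟨q, hq, hn⟩ := hQ a
      refine ⟨⟨q, hq⟩, ?_⟩
      show (QuotientGroup.mk q : Γ ⧸ D.L.ker) = QuotientGroup.mk a
      rw [QuotientGroup.eq, MonoidHom.mem_ker]
      exact near_trans D ε hε hcomm _ hn
  have : Finite (Γ ⧸ D.L.ker) := Finite.of_surjective _ hsurj
  exact Subgroup.finiteIndex_of_finite_quotient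

end Pool.Agent.H147R2.RI
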