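import Pool.Agent.H147R2.RI.FDef
import Pool.Agent.H779R2.To.TMain
import Pool.Agent.H147R2.RI.F1
import Pool.Agent.H147R2.RI.F2
import Pool.Agent.H147R2.RI.F3
import Pool.Agent.H147R2.RI.F4
import Pool.Agent.H147R2.RI.F5
import Pool.Agent.H147R2.RI.R13

set_option autoImplicit false

namespace Pool.Agent.H147R2.RI

open Pool.Agent.H779R2.To Filter Topology

variable {V Z Γ : Type*} [NormedAddCommGroup V] [InnerProductSpace ℝ V] [MetricSpace Z] [Group Γ]

/-- `f` is finitely covered by a hyperbolic automorphism of a torus. -/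
def FinToral {X : Type*} [TopologicalSpace X] (f : X → X) : Prop :=
  ∃ (m : ℕ) (A : Matrix (Fin m) (Fin m) ℤ) (q : (Fin m → AddCircle (1 : ℝ)) → X),
    IsUnit A.det ∧ HypMat A ∧ IsLocalHomeomorph q ∧ Function.Surjective q ∧
    (∀ x, (q ⁻¹' {x}).Finite) ∧ ∀ y, f (q y) = q (fun i => ∑ j, A i j • y j)

/-- Abstract theorem: finitely covered by a hyperbolic toral automorphism. -/
theorem finToral_of_rdat [FiniteDimensional ℝ V] [LocallyCompactSpace Z] [PathConnectedSpace Z]
    [SimplyConnectedSpace (V × Z)] [LocallyPathConnectedSpace (V × Z)] (R : RDat V Z Γ)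
    {X : Type*} [TopologicalSpace X] [T2Space X]
    (P : V × Z → X) (hP : IsCoveringMap P) (hs : Function.Surjective P)
    (hfib : ∀ y y', P y = P y' ↔ ∃ a, y' = R.act a y) (f g : X ≃ₜ X)
    (hg : ∀ y, P (R.gt y) = g (P y)) (n : ℕ) (hn : 1 ≤ n) (hf : ∀ x, f^[n] x = g x) :
    FinToral f := by
  have : ConnectedSpace (V × Z) := inferInstance
  have : Nonempty Z := inferInstance
  have hfree := act_free R P hP hfib
  obtain ⟨F, hF⟩ := exists_lift P hP hs f
  obtain ⟨ψ, hψ⟩ := exists_psi' R P hP hfib f F hF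
  have hFn : ∀ k y, P (F^[k] y) = f^[k] (P y) := by
    intro k
    induction k with
    | zero => intro y; rfl
    | succ k ih =>
      intro y
      rw [Function.iterate_succ_apply', Function.iterate_succ_apply', hF, ih]
  obtain ⟨δ, hδ⟩ := exists_delta' R P hP hfib (F^[n]) R.gt (F.continuous.iterate n)
    R.gt.continuous (fun y => by rw [hFn, hf, hg])
  obtain ⟨Δ, -, hΔ2, hΔ3, hΔ4, hΔ5, k, hk, δ', hδ', hFk⟩ :=
    exists_sub R (ker_fin R) hfree F ψ hψ n hn δ hδ
  obtain ⟨hPQ, q, hq1, hq2, hq3, hq4⟩ := exists_quot R P hP hs hfib hfree Δ hΔ2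
  obtain ⟨T, D, hD1, hD2⟩ := exists_tdat' R Δ hΔ2 hΔ3 hΔ5 k hk
  obtain ⟨f', hf'⟩ := descend R Δ F ψ hψ hΔ4
  obtain ⟨g', hg'⟩ := descend R Δ R.gt R.φ (gt_act R) hΔ5
  let gk : XQ R Δ ≃ₜ XQ R Δ := g' ^ k
  have hgk : ∀ y, PQ R Δ (D.gt y) = gk (PQ R Δ y) := by
    have hj : ∀ (j : ℕ) y, PQ R Δ (R.gt^[j] y) = (g' ^ j) (PQ R Δ y) := by
      intro j
      induction j with
      | zero => intro y; rfl
      | succ j ih =>
        intro y
        rw [Function.iterate_succ_apply', hg', ih, pow_succ']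
        rfl
    intro y
    rw [hD1]
    exact hj k y
  have hfk : ∀ x, f'^[n * k] x = gk x := by
    intro x
    obtain ⟨y, rfl⟩ : ∃ y, PQ R Δ y = x := Quotient.exists_rep x
    have hj : ∀ (j : ℕ) y, PQ R Δ (F^[j] y) = f'^[j] (PQ R Δ y) := by
      intro j
      induction j with
      | zero => intro y; rfl
      | succ j ih =>
        intro y
        rw [Function.iterate_succ_apply', Function.iterate_succ_apply', hf', ih]
    rw [← hj, hFk, ← hgk, hD1]
    exact ((PQ_eq R Δ _ _).mpr ⟨δ', hδ', rfl⟩).symm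
  have hsurj : Function.Surjective (PQ R Δ) := Quotient.exists_rep
  have htor : IsToral f' := toral_of_tdat D (PQ R Δ) hPQ hsurj
    (fun y y' => (PQ_eq R Δ y y').trans (hD2 y y')) f' gk hgk (n * k)
    (Nat.mul_pos hn hk) hfk
  obtain ⟨m, A, h, hdet, hA, hh⟩ := htor
  refine ⟨m, A, q ∘ h.symm, hdet, hA, hq2.comp h.symm.isLocalHomeomorph,
    hq3.comp h.symm.surjective, fun x => ?_, fun y => ?_⟩
  · rw [Set.preimage_comp]
    exact (hq4 x).preimage h.symm.injective.injOn
  · have hqf : ∀ x, f (q x) = q (f' x) := by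
      intro x
      obtain ⟨y, rfl⟩ := hsurj x
      rw [hq1, ← hf', hq1, hF]
    show f (q (h.symm y)) = q (h.symm _)
    rw [hqf]
    congr 1
    rw [Homeomorph.eq_symm_apply]
    funext i
    rw [hh]
    simp

end Pool.Agent.H147R2.RI
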