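import Pool.Agent.H779R2.To.TDef

set_option autoImplicit false

/-!
Conformal case of arbitrary rank: the deck group acts on the space of stable leaves by isometries;
its linear part is finite.
-/

namespace Pool.Agent.H147R2.RI

open Pool.Agent.H779R2.To Filter Topology

/-- A group `Γ` acting on the product `V × Z` of a Euclidean space and a stable leaf, by isometries
`v ↦ L a v + b a` on `V` and homeomorphisms `σ a` of `Z`; a map `(A, G)`, a similarity of factor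
`μ ≥ 2` on `V`, normalizing the action; a relation `St u` (one step in the stable leaf over `u`)
which is contracted. -/
structure RDat (V Z Γ : Type*) [NormedAddCommGroup V] [InnerProductSpace ℝ V] [MetricSpace Z]
    [Group Γ] where
  L : Γ →* (V ≃ₗᵢ[ℝ] V)
  b : Γ → V
  σ : Γ →* (Z ≃ₜ Z)
  b_mul : ∀ a c, b (a * c) = L a (b c) + b a
  inj : ∀ a, L a = 1 → b a = 0 → a = 1
  A : V ≃L[ℝ] V
  μ : ℝ
  two_le : 2 ≤ μ
  A_norm : ∀ v, ‖A v‖ = μ * ‖v‖
  G : Z ≃ₜ Z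
  z0 : Z
  G_z0 : G z0 = z0
  φ : Γ ≃* Γ
  b_φ : ∀ a, b (φ a) = A (b a)
  L_φ : ∀ a v, L (φ a) (A v) = A (L a v)
  G_σ : ∀ a s, G (σ a s) = σ (φ a) (G s)
  proper : ∀ K K' : Set (V × Z), IsCompact K → IsCompact K' →
    {a : Γ | ∃ y ∈ K, ((L a y.1 + b a, σ a y.2) : V × Z) ∈ K'}.Finite
  cocompact : ∃ K : Set (V × Z), IsCompact K ∧
    ∀ y : V × Z, ∃ a : Γ, ((L a y.1 + b a, σ a y.2) : V × Z) ∈ K
  St : V → Z → Z → Prop
  st_refl : ∀ u s, St u s s
  st_symm : ∀ u s s', St u s s' → St u s' s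
  st_act : ∀ a u s s', St u s s' → St (L a u + b a) (σ a s) (σ a s')
  st_two : ∀ u s s' s'', St u s s' → St u s' s'' → St (A u) (G s) (G s'')
  st_cpt : ∀ K : Set (V × Z), IsCompact K → ∃ K' : Set (V × Z), IsCompact K' ∧
    ∀ u s s', (u, s) ∈ K → St u s s' → (u, s') ∈ K'
  st_chain : ∀ (B : Set V) (K : Set Z), IsCompact B → IsCompact K → ∃ m : ℕ,
    ∀ u ∈ B, ∀ s ∈ K, ∀ s' ∈ K, Chn St u m s s'
  st_exp : ∀ u s s', (∀ n : ℕ, St (A.symm^[n] u) (G.symm^[n] s) (G.symm^[n] s')) → s = s'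

section basic

variable {V Z Γ : Type*} [NormedAddCommGroup V] [InnerProductSpace ℝ V] [MetricSpace Z] [Group Γ]

/-- The action on the product. -/
def RDat.act (D : RDat V Z Γ) (a : Γ) (y : V × Z) : V × Z := (D.L a y.1 + D.b a, D.σ a y.2)

theorem RDat.b_one (D : RDat V Z Γ) : D.b 1 = 0 := by
  have h := D.b_mul 1 1
  rw [one_mul, map_one] at h
  have h1 : (1 : V ≃ₗᵢ[ℝ] V) (D.b 1) = D.b 1 := rfl
  rw [h1] at h
  have : D.b 1 + 0 = D.b 1 + D.b 1 := by rw [add_zero]; exact h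
  exact (add_left_cancel this).symm

theorem RDat.b_inv (D : RDat V Z Γ) (a : Γ) : D.b a⁻¹ = - D.L a⁻¹ (D.b a) := by
  have h := D.b_mul a⁻¹ a
  rw [inv_mul_cancel, D.b_one] at h
  exact (neg_eq_of_add_eq_zero_right h.symm).symm

theorem RDat.act_mul (D : RDat V Z Γ) (a c : Γ) (y : V × Z) :
    D.act (a * c) y = D.act a (D.act c y) := by
  refine Prod.ext ?_ ?_
  · show D.L (a * c) y.1 + D.b (a * c) = D.L a (D.L c y.1 + D.b c) + D.b a
    rw [D.b_mul, map_mul, map_add, add_assoc]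
    rfl
  · show D.σ (a * c) y.2 = D.σ a (D.σ c y.2)
    rw [map_mul]
    rfl

theorem RDat.act_one (D : RDat V Z Γ) (y : V × Z) : D.act 1 y = y := by
  refine Prod.ext ?_ ?_
  · show D.L 1 y.1 + D.b 1 = y.1
    rw [D.b_one, map_one, add_zero]
    rfl
  · show D.σ 1 y.2 = y.2
    rw [map_one]
    rfl

end basic

/-- Iterated commutators: `cm a c 0 = c`, `cm a c (k+1) = a (cm a c k) a⁻¹ (cm a c k)⁻¹`. -/
def cm {Γ : Type*} [Group Γ] (a c : Γ) : ℕ → Γ
  | 0 => c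
  | k + 1 => a * cm a c k * a⁻¹ * (cm a c k)⁻¹

/-- The linear part of `a` is `ε`-close to the identity. -/
def Near {V Z Γ : Type*} [NormedAddCommGroup V] [InnerProductSpace ℝ V] [MetricSpace Z] [Group Γ]
    (D : RDat V Z Γ) (ε : ℝ) (a : Γ) : Prop := ∀ v, ‖D.L a v - v‖ ≤ ε * ‖v‖

end Pool.Agent.H147R2.RI
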