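import Pool.Agent.H779R2.To.GMain
import Pool.Agent.H779R2.Nu.N01
import Pool.Agent.H147R2.RI.RDef

set_option autoImplicit false

namespace Pool.Agent.H147R2.RI

open Pool.Agent.H721R2 Pool.Agent.H789R2.AN Pool.Agent.H789R2.GP Pool.Agent.H779R2.An
  Pool.Agent.H779R2.To Pool.Agent.H779R2.Nu
open Filter Topology

variable {X E : Type*} [MetricSpace X] [CompactSpace X] [NormedAddCommGroup E]
  [InnerProductSpace ℝ E] [FiniteDimensional ℝ E]

/-- A map of `W^u(p) × W^s(p)` of product form, conformal and affine on the first factor, which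
commutes with the covering map. -/
structure DM {S : HypSys X E} (B₀ : CS0 S) {F : Flat S} {p : X} (x : Xi F p) {c : ℝ}
    (T : QS S.g c) where
  M : S.Vu p ≃L[ℝ] S.Vu p
  κ : ℝ
  κ_pos : 0 < κ
  b : S.Vu p
  σ : SLf S.g p ≃ₜ SLf S.g p
  conf : ∀ v w : S.Vu p, B₀.B p (M v : E) (M w : E) = κ * B₀.B p (v : E) (w : E)
  inv : ∀ y : S.Vu p × SLf S.g p, x.P T (M y.1 + b, σ y.2) = x.P T y

omit [CompactSpace X] in
/-- The linear part of the deck transformation. -/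
theorem G1_lin {S : HypSys X E} (F : Flat S) (p s : X) (hu : UAsym S s p) (hs : SAsym S s p) :
    ∃ M : S.Vu p ≃L[ℝ] S.Vu p, ∀ v : S.Vu p, ((M v : S.Vu p) : E) = F.H s p (F.τ p s (v : E)) := by
  have t1 : ∀ v ∈ S.Vu p, F.τ p s v ∈ S.Vu s := F.τ_mem p s hu.symm
  have t2 : ∀ v ∈ S.Vu s, F.τ s p v ∈ S.Vu p := F.τ_mem s p hu
  have h1 : ∀ v ∈ S.Vu s, F.H s p v ∈ S.Vu p := F.H_mem s p hs
  have h2 : ∀ v ∈ S.Vu p, F.H p s v ∈ S.Vu s := F.H_mem p s hs.symm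
  have tt1 : ∀ v ∈ S.Vu p, F.τ s p (F.τ p s v) = v := fun v hv => by
    rw [F.τ_comp p s p hu.symm hu v hv, F.τ_self p v hv]
  have tt2 : ∀ v ∈ S.Vu s, F.τ p s (F.τ s p v) = v := fun v hv => by
    rw [F.τ_comp s p s hu hu.symm v hv, F.τ_self s v hv]
  have hh1 : ∀ v ∈ S.Vu s, F.H p s (F.H s p v) = v := fun v hv => by
    rw [F.H_comp s p s hs hs.symm v hv, F.H_self s v hv]
  have hh2 : ∀ v ∈ S.Vu p, F.H s p (F.H p s v) = v := fun v hv => by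
    rw [F.H_comp p s p hs.symm hs v hv, F.H_self p v hv]
  let M₀ : S.Vu p ≃ₗ[ℝ] S.Vu p :=
    { toFun := fun v => ⟨F.H s p (F.τ p s (v : E)), h1 _ (t1 _ v.2)⟩
      invFun := fun v => ⟨F.τ s p (F.H p s (v : E)), t2 _ (h2 _ v.2)⟩
      map_add' := fun v w => by
        apply Subtype.ext
        show F.H s p (F.τ p s ((v : E) + (w : E))) = _
        rw [map_add, map_add]
        rfl
      map_smul' := fun r v => by
        apply Subtype.ext
        show F.H s p (F.τ p s (r • (v : E))) = _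
        rw [map_smul, map_smul]
        rfl
      left_inv := fun v => by
        apply Subtype.ext
        show F.τ s p (F.H p s (F.H s p (F.τ p s (v : E)))) = (v : E)
        rw [hh1 _ (t1 _ v.2), tt1 _ v.2]
      right_inv := fun v => by
        apply Subtype.ext
        show F.H s p (F.τ p s (F.τ s p (F.H p s (v : E)))) = (v : E)
        rw [tt2 _ (h2 _ v.2), hh2 _ v.2] }
  exact ⟨M₀.toContinuousLinearEquiv, fun v => rfl⟩

theorem G1_aff {S : HypSys X E} {F : Flat S} {c : ℝ} {T : QS S.g c}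
    (hT : ∀ a s u x, T.Q a s u x ↔ QdF F a s u x) (p : X) (z : Leaf S.g p) (hz : z.pr T = p)
    (w u' : X) (h : T.Q z.s p w u') :
    F.Lc p u' = F.H z.s p (F.τ p z.s (F.Lc p w)) + F.Lc p z.u := by
  obtain ⟨hu, _, htr⟩ := deckaux_tr F T hT p z hz
  rw [deckaux_Q F p z.s w u' ((hT _ _ _ _).mp h) hu.symm, htr]
  abel

theorem G1_deck {S : HypSys X E} (B₀ : CS0 S) {F : Flat S} {c : ℝ} {T : QS S.g c} (hc : 0 < c)
    (hT : ∀ a s u x, T.Q a s u x ↔ QdF F a s u x) {p : X} (x : Xi F p) (z : Leaf S.g p)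
    (hz : z.pr T = p) :
    ∃ d : DM B₀ x T, (∀ v : S.Vu p, ((d.M v : S.Vu p) : E) = F.H z.s p (F.τ p z.s (v : E))) ∧
      ((d.b : S.Vu p) : E) = F.Lc p z.u ∧ ∀ s : SLf S.g p, T.Q z.u s.1.val p (d.σ s).1.val := by
  obtain ⟨hu, hs, _⟩ := deckaux_tr F T hT p z hz
  have q0 : T.Q p z.s z.u p := by
    have := z.pr_spec T
    rwa [hz] at this
  obtain ⟨M, hM⟩ := G1_lin F p z.s hu hs
  obtain ⟨σ, hσ⟩ := V4aux.one hc T q0 z.hu
  obtain ⟨κ1, hκ1, h1⟩ := cs0_tau B₀ F p z.s hu.symm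
  obtain ⟨κ2, hκ2, h2⟩ := cs0_hol B₀ F z.s p hs
  have hP : ∀ v, x.P T (x.Ξ v) = v.pr T := fun v => by
    show (x.Ξ.symm (x.Ξ v)).pr T = _
    rw [Homeomorph.symm_apply_apply]
  refine ⟨⟨M, κ2 * κ1, mul_pos hκ2 hκ1, (x.Ξ z).1, σ, ?_, ?_⟩, hM, x.fst z, hσ⟩
  · intro v w
    rw [hM, hM, h2 _ (F.τ_mem p z.s hu.symm _ v.2) _ (F.τ_mem p z.s hu.symm _ w.2),
      h1 _ v.2 _ w.2, mul_assoc]
  · intro y
    obtain ⟨w, rfl⟩ := x.Ξ.surjective y
    have hsp : WS S.g.symm z.s p := T.wU _ _ _ _ q0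
    have hup : WS S.g z.u p := T.wS _ _ _ _ q0
    obtain ⟨u', hu'⟩ := T.ex z.s p w.u z.hs.symm' (hsp.trans w.hu)
    obtain ⟨t', ht'⟩ := T.ex z.u w.s p (hup.trans w.hs) z.hu.symm'
    let v : Leaf S.g p := ⟨u', t', T.wU _ _ _ _ hu', T.wS _ _ _ _ ht'⟩
    have hv : v.pr T = w.pr T := by
      apply Leaf.pr_eq
      show T.Q p t' u' (w.pr T)
      have a1 : T.Q p t' z.u w.s := T.flipU _ _ _ _ ht'
      have a2 : T.Q p z.u z.s p := T.flipU _ _ _ _ (T.flipS _ _ _ _ q0)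
      have a3 : T.Q p z.u w.u u' := T.compU _ _ _ _ _ _ a2 hu'
      have a4 : T.Q z.u p u' w.u := T.flipS _ _ _ _ a3
      have a5 : T.Q z.u w.s u' (w.pr T) := T.compS _ _ _ _ _ _ a4 (w.pr_spec T)
      exact T.compU _ _ _ _ _ _ a1 a5
    have hvw : x.Ξ v = (M (x.Ξ w).1 + (x.Ξ z).1, σ (x.Ξ w).2) := by
      apply Prod.ext
      · apply Subtype.ext
        show ((x.Ξ v).1 : E) = ((M (x.Ξ w).1 : S.Vu p) : E) + ((x.Ξ z).1 : E)
        rw [x.fst, x.fst, hM, x.fst]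
        exact G1_aff hT p z hz w.u u' hu'
      · apply Subtype.ext
        apply SM.ext
        have k1 := hσ (x.Ξ w).2
        rw [x.snd] at k1
        show (x.Ξ v).2.1.val = _
        rw [x.snd]
        exact T.unique _ _ _ _ _ ht' k1
    show x.P T (M (x.Ξ w).1 + (x.Ξ z).1, σ (x.Ξ w).2) = x.P T (x.Ξ w)
    rw [← hvw, hP, hP, hv]

/-- G1: the fibres of the covering map are the orbits of maps of product form. -/
theorem exists_dm {S : HypSys X E} (B₀ : CS0 S) {F : Flat S} {c : ℝ} {T : QS S.g c} (hc : 0 < c)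
    (hT : ∀ a s u x, T.Q a s u x ↔ QdF F a s u x) {p : X} (x : Xi F p)
    (y y' : S.Vu p × SLf S.g p) (h : x.P T y = x.P T y') :
    ∃ d : DM B₀ x T, y' = (d.M y.1 + d.b, d.σ y.2) := by
  obtain ⟨w, rfl⟩ := x.Ξ.surjective y
  obtain ⟨w', rfl⟩ := x.Ξ.surjective y'
  have hP : ∀ v, x.P T (x.Ξ v) = v.pr T := fun v => by
    show (x.Ξ.symm (x.Ξ v)).pr T = _
    rw [Homeomorph.symm_apply_apply]
  rw [hP, hP] at h
  have pw : T.Q p w.s w.u (w'.pr T) := by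
    have := w.pr_spec T
    rwa [h] at this
  have pw' := w'.pr_spec T
  generalize w'.pr T = q at pw pw'
  have e1 : WS S.g.symm w.s q := T.wU _ _ _ _ pw
  have e2 : WS S.g.symm w'.s q := T.wU _ _ _ _ pw'
  obtain ⟨ζu, hζu⟩ := T.ex w'.s p w.s w'.hs.symm' (e2.trans e1.symm')
  have f1 : WS S.g w.s ζu := T.wS _ _ _ _ hζu
  have f2 : WS S.g.symm p ζu := T.wU _ _ _ _ hζu
  obtain ⟨ζs, hζs⟩ := T.ex ζu p p (f1.symm'.trans w.hs.symm') f2.symm'
  let ζ : Leaf S.g p := ⟨ζu, ζs, f2, T.wS _ _ _ _ hζs⟩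
  have hζ : ζ.pr T = p := Leaf.pr_eq T (T.flipU _ _ _ _ hζs)
  have g1 : T.Q p w'.s ζu w.s := T.flipS _ _ _ _ hζu
  have g1' : T.Q ζu w.s p w'.s := T.flipU _ _ _ _ g1
  have g2 : T.Q ζu w.s w'.u q := T.compU _ _ _ _ _ _ g1' pw'
  have g3 : T.Q ζu p w'.u w.u := T.compS _ _ _ _ _ _ g2 (T.flipS _ _ _ _ pw)
  have g4 : T.Q p ζu w.u w'.u := T.flipS _ _ _ _ g3
  have g5 : T.Q ζs p p ζu := T.flipS _ _ _ _ (T.flipU _ _ _ _ hζs)
  have g6 : T.Q ζs p w.u w'.u := T.compU _ _ _ _ _ _ g5 g4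
  obtain ⟨d, hM, hb, hσ⟩ := G1_deck B₀ hc hT x ζ hζ
  refine ⟨d, ?_⟩
  apply Prod.ext
  · apply Subtype.ext
    show ((x.Ξ w').1 : E) = ((d.M (x.Ξ w).1 : S.Vu p) : E) + (d.b : E)
    rw [x.fst, hM, x.fst, hb]
    exact G1_aff hT p ζ hζ w.u w'.u g6
  · apply Subtype.ext
    apply SM.ext
    have k1 := hσ (x.Ξ w).2
    rw [x.snd] at k1
    show (x.Ξ w').2.1.val = _
    rw [x.snd]
    exact T.unique _ _ _ _ _ g1' k1

end Pool.Agent.H147R2.RI
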