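import Pool.Agent.H147R2.RI.G1

set_option autoImplicit false

namespace Pool.Agent.H147R2.RI

open Pool.Agent.H721R2 Pool.Agent.H789R2.AN Pool.Agent.H789R2.GP Pool.Agent.H779R2.An
  Pool.Agent.H779R2.To Pool.Agent.H779R2.Nu
open Filter Topology

variable {X E : Type*} [MetricSpace X] [CompactSpace X] [NormedAddCommGroup E]
  [InnerProductSpace ℝ E] [FiniteDimensional ℝ E]

/-- G2: these maps are isometries on the first factor. -/
theorem dm_kap {S : HypSys X E} (B₀ : CS0 S) {F : Flat S} {c c' : ℝ} {T : QS S.g c}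
    (h : LP S.g c') (hc : 0 < c) (hT : ∀ a s u x, T.Q a s u x ↔ QdF F a s u x) {p : X}
    (x : Xi F p) (hpos : 0 < Module.finrank ℝ (S.Vu p)) (d : DM B₀ x T) : d.κ = 1 := by
  by_contra hκ
  have hBpos : ∀ v : S.Vu p, v ≠ 0 → 0 < B₀.B p (v : E) (v : E) := by
    intro v hv
    refine B₀.pos p v v.2 ?_
    intro h0
    exact hv (Subtype.ext h0)
  have hfix : ∀ v : S.Vu p, d.M v = v → v = 0 := by
    intro v hv
    by_contra h0
    have h1 := d.conf v v
    rw [hv] at h1
    have h2 := hBpos v h0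
    have h3 : (1 - d.κ) * B₀.B p (v : E) (v : E) = 0 := by linarith
    rcases mul_eq_zero.1 h3 with h4 | h4
    · exact hκ (by linarith)
    · exact h2.ne' h4
  let Lm : S.Vu p →ₗ[ℝ] S.Vu p := LinearMap.id - (d.M : S.Vu p →L[ℝ] S.Vu p).toLinearMap
  have hLm : ∀ v, Lm v = v - d.M v := fun v => rfl
  have hinj : Function.Injective Lm := by
    rw [injective_iff_map_eq_zero]
    intro v hv
    rw [hLm] at hv
    exact hfix v (sub_eq_zero.1 hv).symm
  obtain ⟨v0, hv0⟩ := (LinearMap.injective_iff_surjective.1 hinj) d.b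
  rw [hLm] at hv0
  have hv1 : d.M v0 + d.b = v0 := by rw [← hv0]; abel
  have hsig : ∀ s, d.σ s = s := by
    intro s
    have h1 := d.inv (v0, s)
    simp only [hv1] at h1
    exact xi_inj hT x v0 _ _ h1
  have hP : ∀ (v : S.Vu p) (s : SLf S.g p), x.P T (d.M v + d.b, s) = x.P T (v, s) := by
    intro v s
    have h1 := d.inv (v, s)
    simp only [hsig] at h1
    exact h1
  have hcov : IsCoveringMap (x.P T) := (pr_isCoveringMap h hc T p).comp_homeomorph x.Ξ.symm
  let s : SLf S.g p := (x.Ξ (Leaf.base _ _)).2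
  have heq : (fun v : S.Vu p => ((d.M v + d.b, s) : S.Vu p × SLf S.g p)) =
      fun v : S.Vu p => ((v, s) : S.Vu p × SLf S.g p) := by
    refine hcov.eq_of_comp_eq ?_ ?_ ?_ v0 ?_
    · exact (d.M.continuous.add continuous_const).prodMk continuous_const
    · exact continuous_id.prodMk continuous_const
    · funext v
      exact hP v s
    · simp only [hv1]
  have hall : ∀ v : S.Vu p, d.M v + d.b = v := fun v => congrArg Prod.fst (congrFun heq v)
  have hb : d.b = 0 := by
    have := hall 0
    rw [map_zero, zero_add] at this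
    exact this
  have hM : ∀ v : S.Vu p, d.M v = v := by
    intro v
    have := hall v
    rw [hb, add_zero] at this
    exact this
  have hnt : Nontrivial (S.Vu p) := Module.nontrivial_of_finrank_pos hpos
  obtain ⟨v, hv⟩ := exists_ne (0 : S.Vu p)
  exact hv (hfix v (hM v))

/-- and they are determined by the first factor. -/
theorem dm_sig {S : HypSys X E} (B₀ : CS0 S) {F : Flat S} {c : ℝ} {T : QS S.g c}
    (hT : ∀ a s u x, T.Q a s u x ↔ QdF F a s u x) {p : X}
    (x : Xi F p) (σ : SLf S.g p → SLf S.g p) (h : ∀ y : S.Vu p × SLf S.g p,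
      x.P T (y.1, σ y.2) = x.P T y) (s : SLf S.g p) : σ s = s :=
  xi_inj hT x 0 _ _ (h (0, s))

end Pool.Agent.H147R2.RI
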