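import Pool.Agent.H779R2.Nu.NDef

set_option autoImplicit false

namespace Pool.Agent.H147R2.RI

open Pool.Agent.H721R2 Pool.Agent.H779R2.An Pool.Agent.H779R2.Nu
open Filter Topology

/-- Orthonormal coordinates for a positive definite form (copy of `H779R2.Nu.N03.exists_iso`). -/
theorem G3a_exists_iso {V : Type*} [AddCommGroup V] [Module ℝ V] [FiniteDimensional ℝ V]
    (b : V →ₗ[ℝ] V →ₗ[ℝ] ℝ) (hs : ∀ v w, b v w = b w v) (hp : ∀ v, v ≠ 0 → 0 < b v v) {D : ℕ}
    (hd : Module.finrank ℝ V = D) :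
    ∃ e : EuclideanSpace ℝ (Fin D) ≃ₗ[ℝ] V, ∀ u, b (e u) (e u) = ‖u‖ ^ 2 := by
  let core : InnerProductSpace.Core ℝ V :=
    { inner := fun v w => b v w
      conj_inner_symm := fun v w => by simp [hs v w]
      re_inner_nonneg := fun v => by
        rcases eq_or_ne v 0 with rfl | hv
        · simp
        · simpa using (hp v hv).le
      add_left := fun u v w => by simp
      smul_left := fun u v r => by simp
      definite := fun v hv => by
        by_contra h0
        exact (hp v h0).ne' hv }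
  letI : NormedAddCommGroup V := core.toNormedAddCommGroup
  letI : InnerProductSpace ℝ V := InnerProductSpace.ofCore core.toCore
  let β := (stdOrthonormalBasis ℝ V).reindex (finCongr hd)
  refine ⟨β.repr.symm.toLinearEquiv, fun u => ?_⟩
  have h1 : b (β.repr.symm u) (β.repr.symm u) = inner ℝ (β.repr.symm u) (β.repr.symm u) := rfl
  have h2 : ‖β.repr.symm u‖ = ‖u‖ := β.repr.symm.norm_map u
  show b (β.repr.symm u) (β.repr.symm u) = ‖u‖ ^ 2
  rw [h1, real_inner_self_eq_norm_sq, h2]

variable {X E : Type*} [MetricSpace X] [CompactSpace X] [NormedAddCommGroup E]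
  [InnerProductSpace ℝ E] [FiniteDimensional ℝ E]

/-- G3a: Euclidean coordinates. -/
theorem exists_coord {S : HypSys X E} (B₀ : CS0 S) (p : X) {D : ℕ}
    (hD : Module.finrank ℝ (S.Vu p) = D) :
    ∃ e : S.Vu p ≃L[ℝ] EuclideanSpace ℝ (Fin D),
      ∀ v : S.Vu p, ‖e v‖ ^ 2 = B₀.B p (v : E) (v : E) := by
  obtain ⟨e, he⟩ := G3a_exists_iso ((B₀.B p).compl₁₂ (S.Vu p).subtype (S.Vu p).subtype)
    (fun v u => B₀.symm p v v.2 u u.2)
    (fun v hv => B₀.pos p v v.2 (fun h => hv (Subtype.ext h))) hD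
  refine ⟨e.symm.toContinuousLinearEquiv, fun v => ?_⟩
  have h1 := he (e.symm v)
  rw [LinearEquiv.apply_symm_apply] at h1
  exact h1.symm

end Pool.Agent.H147R2.RI
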