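import Pool.Agent.H779R2.Nu.NDef
import Pool.Agent.H779R2.An.Basic

set_option autoImplicit false

/-! G3b: the multiplier at a periodic point is a similarity (helper765). -/

namespace Pool.Agent.H147R2.RI

open Pool.Agent.H721R2 Pool.Agent.H779R2.An Pool.Agent.H779R2.Nu
open Filter Topology

variable {X E : Type*} [MetricSpace X] [CompactSpace X] [NormedAddCommGroup E]
  [InnerProductSpace ℝ E] [FiniteDimensional ℝ E]

omit [CompactSpace X] [FiniteDimensional ℝ E] in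
theorem G3b_conf {S : HypSys X E} (B₀ : CS0 S) (p : X) (n : ℕ) :
    ∃ k : ℝ, 0 < k ∧ ∀ v ∈ S.Vu p,
      B₀.B (S.g^[n] p) (Dn S n p v) (Dn S n p v) = k * B₀.B p v v := by
  induction n with
  | zero => exact ⟨1, one_pos, fun v _ => by rw [one_mul]; rfl⟩
  | succ n ih =>
    obtain ⟨k, hk, h⟩ := ih
    refine ⟨B₀.a (S.g^[n] p) * k, mul_pos (B₀.a_pos _) hk, fun v hv => ?_⟩
    rw [Dn_succ, Function.iterate_succ_apply',
      B₀.conf _ _ (Dn_mem S n p hv) _ (Dn_mem S n p hv), h v hv, mul_assoc]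

/-- G3b: the multiplier at a periodic point is a similarity. -/
theorem A_sim {S : HypSys X E} (B₀ : CS0 S) (p : X) (N : ℕ) (hN : 1 ≤ N) (hp : S.g^[N] p = p)
    (A : S.Vu p ≃L[ℝ] S.Vu p) (hA : ∀ v : S.Vu p, (A v : E) = Dn S N p v)
    (hA' : ∀ v, ‖A.symm v‖ ≤ 1 / 2 * ‖v‖) {D : ℕ} (e : S.Vu p ≃L[ℝ] EuclideanSpace ℝ (Fin D))
    (he : ∀ v : S.Vu p, ‖e v‖ ^ 2 = B₀.B p (v : E) (v : E)) :
    ∃ μ : ℝ, 2 ≤ μ ∧ ∀ v, ‖e (A v)‖ = μ * ‖e v‖ := by
  obtain ⟨k, hk, h⟩ := G3b_conf B₀ p N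
  rw [hp] at h
  have h1 : ∀ v, ‖e (A v)‖ = Real.sqrt k * ‖e v‖ := by
    intro v
    have h2 : ‖e (A v)‖ ^ 2 = k * ‖e v‖ ^ 2 := by
      rw [he, he, hA, h _ v.2]
    have h3 : ‖e (A v)‖ ^ 2 = (Real.sqrt k * ‖e v‖) ^ 2 := by
      rw [h2, mul_pow, Real.sq_sqrt hk.le]
    exact (sq_eq_sq₀ (norm_nonneg _) (by positivity)).1 h3
  by_cases hz : ∀ v, e v = 0
  · refine ⟨2, le_rfl, fun v => ?_⟩
    rw [hz, hz, norm_zero, mul_zero]
  · push Not at hz
    obtain ⟨v, hv⟩ := hz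
    refine ⟨Real.sqrt k, ?_, h1⟩
    by_contra hcon
    push Not at hcon
    have hk0 : 0 ≤ Real.sqrt k := Real.sqrt_nonneg _
    have key : ∀ n : ℕ, ∀ w : S.Vu p,
        ‖e w‖ = Real.sqrt k ^ n * ‖e ((A.symm)^[n] w)‖ ∧
        ‖(A.symm)^[n] w‖ ≤ (1 / 2) ^ n * ‖w‖ := by
      intro n
      induction n with
      | zero => intro w; simp
      | succ n ih =>
        intro w
        obtain ⟨i1, i2⟩ := ih w
        rw [Function.iterate_succ_apply']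
        refine ⟨?_, ?_⟩
        · have h4 := h1 (A.symm ((A.symm)^[n] w))
          rw [ContinuousLinearEquiv.apply_symm_apply] at h4
          rw [i1, h4, pow_succ]
          ring
        · refine (hA' _).trans ?_
          rw [pow_succ]
          calc (1 / 2 : ℝ) * ‖(A.symm)^[n] w‖ ≤ 1 / 2 * ((1 / 2) ^ n * ‖w‖) :=
                mul_le_mul_of_nonneg_left i2 (by norm_num)
            _ = (1 / 2) ^ n * (1 / 2) * ‖w‖ := by ring
    have hle : ∀ n : ℕ, ‖e v‖ ≤ (Real.sqrt k / 2) ^ n *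
        (‖(e : S.Vu p →L[ℝ] EuclideanSpace ℝ (Fin D))‖ * ‖v‖) := by
      intro n
      obtain ⟨i1, i2⟩ := key n v
      have h5 : ‖e ((A.symm)^[n] v)‖ ≤
          ‖(e : S.Vu p →L[ℝ] EuclideanSpace ℝ (Fin D))‖ * ‖(A.symm)^[n] v‖ :=
        (e : S.Vu p →L[ℝ] EuclideanSpace ℝ (Fin D)).le_opNorm _
      calc ‖e v‖ = Real.sqrt k ^ n * ‖e ((A.symm)^[n] v)‖ := i1
        _ ≤ Real.sqrt k ^ n * (‖(e : S.Vu p →L[ℝ] EuclideanSpace ℝ (Fin D))‖ *
            ((1 / 2) ^ n * ‖v‖)) := by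
          refine mul_le_mul_of_nonneg_left (h5.trans ?_) (by positivity)
          exact mul_le_mul_of_nonneg_left i2
            (norm_nonneg (e : S.Vu p →L[ℝ] EuclideanSpace ℝ (Fin D)))
        _ = _ := by rw [div_pow, div_pow, one_pow]; ring
    have hlim : Tendsto (fun n : ℕ => (Real.sqrt k / 2) ^ n *
        (‖(e : S.Vu p →L[ℝ] EuclideanSpace ℝ (Fin D))‖ * ‖v‖)) atTop (𝓝 0) := by
      have := (tendsto_pow_atTop_nhds_zero_of_lt_one (by positivity : 0 ≤ Real.sqrt k / 2)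
        (by linarith)).mul_const (‖(e : S.Vu p →L[ℝ] EuclideanSpace ℝ (Fin D))‖ * ‖v‖)
      rwa [zero_mul] at this
    have h6 : ‖e v‖ ≤ 0 := ge_of_tendsto' hlim hle
    exact hv (norm_le_zero_iff.1 h6)

end Pool.Agent.H147R2.RI
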