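import Pool.Agent.H147R2.RI.G2
import Pool.Agent.H147R2.RI.G3a
import Pool.Agent.H147R2.RI.G3b
import Pool.Agent.H147R2.RI.FM

set_option autoImplicit false

namespace Pool.Agent.H147R2.RI

open Pool.Agent.H721R2 Pool.Agent.H789R2.AN Pool.Agent.H789R2.GP Pool.Agent.H779R2.An
  Pool.Agent.H779R2.To Pool.Agent.H779R2.Nu
open Filter Topology

theorem cov_eq_mul {Γ : Type*} [Group Γ] {Y : Type*} [TopologicalSpace Y] (act : Γ → Y ≃ₜ Y)
    (hmul : ∀ a b y, act (a * b) y = act a (act b y)) (hfree : ∀ a y, act a y = y → a = 1)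
    {a b : Γ} {y : Y} (h : act a y = act b y) : a = b := by
  have h0 : ∀ y, act 1 y = y := by
    intro y
    have h := hmul 1 1 y
    rw [mul_one] at h
    exact ((act 1).injective h).symm
  have h1 : act (b⁻¹ * a) y = y := by
    rw [hmul, h, ← hmul, inv_mul_cancel, h0]
  have h2 := hfree _ _ h1
  exact (inv_mul_eq_one.mp h2).symm

theorem proper_of_cov_mul {Γ : Type*} [Group Γ] {X Y : Type*} [TopologicalSpace X] [T2Space X] [MetricSpace Y] (P : Y → X)
    (hP : IsCoveringMap P) (act : Γ → Y ≃ₜ Y)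
    (hmul : ∀ a b y, act (a * b) y = act a (act b y)) (hfree : ∀ a y, act a y = y → a = 1)
    (hfib : ∀ y y', P y = P y' ↔ ∃ a, y' = act a y) (K K' : Set Y) (hK : IsCompact K)
    (hK' : IsCompact K') : {a : Γ | ∃ y ∈ K, act a y ∈ K'}.Finite := by
  by_contra hinf
  have hinf' : {a : Γ | ∃ y ∈ K, act a y ∈ K'}.Infinite := hinf
  set e := hinf'.natEmbedding with he
  have hmem : ∀ n, ∃ y ∈ K, act (e n).1 y ∈ K' := fun n => (e n).2
  choose y hyK hyK' using hmem
  obtain ⟨y0, hy0, φ, hφ, hφt⟩ := hK.tendsto_subseq hyK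
  obtain ⟨y1, hy1, ψ, hψ, hψt⟩ := hK'.tendsto_subseq (fun n => hyK' (φ n))
  have hinv : ∀ a z, P (act a z) = P z := fun a z => ((hfib z (act a z)).2 ⟨a, rfl⟩).symm
  have hyt : Tendsto (fun n => y (φ (ψ n))) atTop (𝓝 y0) := hφt.comp hψ.tendsto_atTop
  have hzt : Tendsto (fun n => act (e (φ (ψ n))).1 (y (φ (ψ n)))) atTop (𝓝 y1) := hψt
  have h1 : Tendsto (fun n => P (y (φ (ψ n)))) atTop (𝓝 (P y0)) :=
    (hP.continuous.tendsto y0).comp hyt
  have h2 : Tendsto (fun n => P (y (φ (ψ n)))) atTop (𝓝 (P y1)) := by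
    have h3 := (hP.continuous.tendsto y1).comp hzt
    refine h3.congr fun n => ?_
    simp only [Function.comp_apply, hinv]
  have h3 : P y0 = P y1 := tendsto_nhds_unique h1 h2
  obtain ⟨a, ha⟩ := (hfib y0 y1).1 h3
  have h4 : Tendsto (fun n => act a (y (φ (ψ n)))) atTop (𝓝 y1) := by
    rw [ha]
    exact ((act a).continuous.tendsto y0).comp hyt
  obtain ⟨U, hUo, hyU, hUinj⟩ := hP.isLocalHomeomorph.isLocallyInjective y1
  have h5 := h4.eventually (hUo.mem_nhds hyU)
  have h6 := hzt.eventually (hUo.mem_nhds hyU)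
  obtain ⟨n, hn⟩ := Filter.eventually_atTop.1 (h5.and h6)
  have h7 : ∀ m, n ≤ m → (e (φ (ψ m))).1 = a := by
    intro m hm
    obtain ⟨h8, h9⟩ := hn m hm
    have h10 : act (e (φ (ψ m))).1 (y (φ (ψ m))) = act a (y (φ (ψ m))) :=
      hUinj h9 h8 (by rw [hinv, hinv])
    exact cov_eq_mul act hmul hfree h10
  have h8 := (h7 n le_rfl).trans (h7 (n + 1) (Nat.le_succ n)).symm
  have h9 : φ (ψ n) = φ (ψ (n + 1)) := e.injective (Subtype.ext h8)
  have h10 := hψ.injective (hφ.injective h9)
  omega


/-- The group of product maps, isometric on the first factor, commuting with `P`. -/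
def Dk {V Z X : Type*} [NormedAddCommGroup V] [InnerProductSpace ℝ V] [MetricSpace Z]
    (P : V × Z → X) : Subgroup ((V ≃ᵃⁱ[ℝ] V) × (Z ≃ₜ Z)) where
  carrier := {g | ∀ y : V × Z, P (g.1 y.1, g.2 y.2) = P y}
  mul_mem' := by
    intro a b ha hb y
    show P (a.1 (b.1 y.1), a.2 (b.2 y.2)) = P y
    rw [ha (b.1 y.1, b.2 y.2)]
    exact hb y
  one_mem' := fun y => rfl
  inv_mem' := by
    intro a ha y
    have h := ha (a.1.symm y.1, a.2.symm y.2)
    simp only [AffineIsometryEquiv.apply_symm_apply, Homeomorph.apply_symm_apply] at h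
    exact h.symm

section dk

variable {V Z X : Type*} [NormedAddCommGroup V] [InnerProductSpace ℝ V] [MetricSpace Z]

theorem aff_eq (g : V ≃ᵃⁱ[ℝ] V) (v : V) : g v = g.linearIsometryEquiv v + g 0 := by
  have h := g.map_vadd 0 v
  simpa using h

/-- Linear part. -/
noncomputable def Dk.L (P : V × Z → X) : Dk P →* (V ≃ₗᵢ[ℝ] V) :=
  MonoidHom.mk' (fun g => g.1.1.linearIsometryEquiv) (by
    intro a b
    rfl)

/-- Action on the second factor. -/
noncomputable def Dk.σ (P : V × Z → X) : Dk P →* (Z ≃ₜ Z) :=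
  MonoidHom.mk' (fun g => g.1.2) (by
    intro a b
    rfl)

/-- The affine isometry `v ↦ L v + b`. -/
noncomputable def mkAff (L : V ≃ₗᵢ[ℝ] V) (b : V) : V ≃ᵃⁱ[ℝ] V :=
  L.toAffineIsometryEquiv.trans (AffineIsometryEquiv.constVAdd ℝ V b)

theorem mkAff_apply (L : V ≃ₗᵢ[ℝ] V) (b v : V) : mkAff L b v = L v + b := by
  show b + L v = L v + b
  rw [add_comm]

/-- Conjugation by a similarity. -/
noncomputable def cjA (B : V ≃L[ℝ] V) (ν : ℝ) (hν : 0 < ν) (hB : ∀ v, ‖B v‖ = ν * ‖v‖)
    (g : V ≃ᵃⁱ[ℝ] V) : V ≃ᵃⁱ[ℝ] V :=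
  mkAff
    { toLinearEquiv := (B.symm.toLinearEquiv.trans g.linearIsometryEquiv.toLinearEquiv).trans
        B.toLinearEquiv
      norm_map' := fun v => by
        show ‖B (g.linearIsometryEquiv (B.symm v))‖ = ‖v‖
        rw [hB, LinearIsometryEquiv.norm_map, ← hB, ContinuousLinearEquiv.apply_symm_apply] }
    (B (g 0))

theorem cjA_apply (B : V ≃L[ℝ] V) (ν : ℝ) (hν : 0 < ν) (hB : ∀ v, ‖B v‖ = ν * ‖v‖)
    (g : V ≃ᵃⁱ[ℝ] V) (v : V) : cjA B ν hν hB g v = B (g (B.symm v)) := by
  unfold cjA
  rw [mkAff_apply, aff_eq g (B.symm v), map_add]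
  rfl

/-- Conjugation of the group. -/
noncomputable def cj {P : V × Z → X} (B : V ≃L[ℝ] V) (H : Z ≃ₜ Z) (κ : X → X) (ν : ℝ)
    (hν : 0 < ν) (hB : ∀ v, ‖B v‖ = ν * ‖v‖) (hP : ∀ y : V × Z, P (B y.1, H y.2) = κ (P y))
    (a : Dk P) : Dk P :=
  ⟨(cjA B ν hν hB a.1.1, (H.symm.trans a.1.2).trans H), fun y => by
    show P (cjA B ν hν hB a.1.1 y.1, H (a.1.2 (H.symm y.2))) = P y
    rw [cjA_apply]
    have h1 := hP (a.1.1 (B.symm y.1), a.1.2 (H.symm y.2))
    have h2 := a.2 (B.symm y.1, H.symm y.2)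
    have h3 := hP (B.symm y.1, H.symm y.2)
    simp only [ContinuousLinearEquiv.apply_symm_apply, Homeomorph.apply_symm_apply] at h1 h2 h3
    rw [h1]
    rw [h3]
    exact congrArg κ h2⟩

end dk

variable {X E : Type*} [MetricSpace X] [CompactSpace X] [NormedAddCommGroup E]
  [InnerProductSpace ℝ E] [FiniteDimensional ℝ E]

/-- The data of the conformal case. -/
theorem finToral_of_qs {E' : Type*} [NormedAddCommGroup E'] [NormedSpace ℝ E'] [ProperSpace E']
    [ChartedSpace E' X] [PreconnectedSpace X] {S : HypSys X E} {F : Flat S} (B₀ : CS0 S)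
    {c c' : ℝ} {T : QS S.g c} (h : LP S.g c')
    (hc : 0 < c) (hT : ∀ a s u x, T.Q a s u x ↔ QdF F a s u x) (p : X) (N : ℕ) (hN : 1 ≤ N)
    (hp : S.g^[N] p = p) {d : ℕ} (hd : Module.finrank ℝ (S.Vu p) = d) (hd0 : 0 < d)
    (f : X ≃ₜ X) (n : ℕ) (hn : 1 ≤ n) (hf : ∀ x, f^[n] x = S.g x) : FinToral f := by
  classical
  obtain ⟨x⟩ := exists_xi F p
  obtain ⟨A, hA, hA'⟩ := exists_A S p N hN hp
  obtain ⟨G, hG⟩ := exists_G S.g p N hp
  obtain ⟨hpc, hlc, hsc, hlp⟩ := leaf_top (E' := E') h hc T x N hN hp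
  have hcov : IsCoveringMap (x.P T) := (pr_isCoveringMap h hc T p).comp_homeomorph x.Ξ.symm
  have hsurj : Function.Surjective (x.P T) := by
    have : Nonempty (S.Vu p × SLf S.g p) := ⟨x.Ξ (Leaf.base _ _)⟩
    exact covering_surj hcov
  obtain ⟨e, he⟩ := exists_coord B₀ p hd
  obtain ⟨μ, hμ2, hμ⟩ := A_sim B₀ p N hN hp A hA hA' e he
  have hμ0 : 0 < μ := by linarith
  obtain ⟨ε₁, hε₁, hcpt⟩ := xi_cpt hc hT x
  set ε := min ε₁ (F.ε₀ / 2) with hεdef
  have hε₀ := F.geo.pos
  have hε : 0 < ε := by positivity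
  have hdist : ∀ a b, S.SRel ε a b → dist a b ≤ ε := fun a b hab => hab 0
  have htri : ∀ a b d, S.SRel ε a b → S.SRel ε b d → S.SRel F.ε₀ a d := by
    intro a b d h1 h3 k
    have h4 : ε ≤ F.ε₀ / 2 := min_le_right _ _
    have := dist_triangle (S.g^[k] a) (S.g^[k] b) (S.g^[k] d)
    have h5 := h1 k
    have h6 := h3 k
    linarith
  have hstep : ∀ a b d, S.SRel ε a b → S.SRel ε b d →
      S.SRel ε (S.g^[N] a) (S.g^[N] d) := by
    intro a b d h1 h3 k
    have h4 := F.geo.scontr a d (htri a b d h1 h3) (k + N)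
    rw [← Function.iterate_add_apply, ← Function.iterate_add_apply]
    refine h4.trans ?_
    have h5 : dist a d ≤ 2 * ε := by
      have := dist_triangle a b d
      linarith [hdist a b h1, hdist b d h3]
    have h6 : (1 / 8 : ℝ) ^ (k + N) ≤ 1 / 8 := by
      obtain ⟨j, hj⟩ : ∃ j, k + N = j + 1 := ⟨k + N - 1, by omega⟩
      rw [hj, pow_succ]
      have : (1 / 8 : ℝ) ^ j ≤ 1 := pow_le_one₀ (by norm_num) (by norm_num)
      linarith
    calc (1 / 8 : ℝ) ^ (k + N) * dist a d ≤ 1 / 8 * (2 * ε) :=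
          mul_le_mul h6 h5 dist_nonneg (by norm_num)
      _ ≤ ε := by linarith
  have hgtP := xi_gt hT x N hp A hA G hG
  -- coordinates
  let W := EuclideanSpace ℝ (Fin d)
  let c₀ : (W × SLf S.g p) ≃ₜ (S.Vu p × SLf S.g p) :=
    e.symm.toHomeomorph.prodCongr (Homeomorph.refl _)
  let P : W × SLf S.g p → X := fun y => x.P T (e.symm y.1, y.2)
  have hPc : IsCoveringMap P := hcov.comp_homeomorph c₀
  have hPs : Function.Surjective P := hsurj.comp c₀.surjective
  have hsc' : SimplyConnectedSpace (W × SLf S.g p) :=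
    c₀.toHomotopyEquiv.simplyConnectedSpace
  have hlp' : LocallyPathConnectedSpace (W × SLf S.g p) :=
    c₀.isOpenEmbedding.locallyPathConnectedSpace
  let A' : W ≃L[ℝ] W := (e.symm.trans A).trans e
  have hA'n : ∀ v, ‖A' v‖ = μ * ‖v‖ := by
    intro v
    show ‖e (A (e.symm v))‖ = μ * ‖v‖
    rw [hμ, ContinuousLinearEquiv.apply_symm_apply]
  have hA'n' : ∀ v, ‖A'.symm v‖ = μ⁻¹ * ‖v‖ := by
    intro v
    have h1 := hA'n (A'.symm v)
    rw [ContinuousLinearEquiv.apply_symm_apply] at h1
    rw [h1]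
    field_simp
  have hPgt : ∀ y : W × SLf S.g p, P (A' y.1, G y.2) = S.g^[N] (P y) := by
    intro y
    show x.P T (e.symm (e (A (e.symm y.1))), G y.2) = S.g^[N] (x.P T (e.symm y.1, y.2))
    rw [ContinuousLinearEquiv.symm_apply_apply]
    exact hgtP (e.symm y.1, y.2)
  have hPgt' : ∀ y : W × SLf S.g p, P (A'.symm y.1, G.symm y.2) = S.g.symm^[N] (P y) := by
    intro y
    have h1 := hPgt (A'.symm y.1, G.symm y.2)
    simp only [ContinuousLinearEquiv.apply_symm_apply, Homeomorph.apply_symm_apply] at h1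
    rw [h1, iter_symm_iter S N]
  -- the group
  have hdk : ∀ y y' : W × SLf S.g p, P y = P y' ↔ ∃ a : Dk P, y' = (a.1.1 y.1, a.1.2 y.2) := by
    intro y y'
    constructor
    · intro hyy
      obtain ⟨q, hq⟩ := exists_dm B₀ hc hT x (e.symm y.1, y.2) (e.symm y'.1, y'.2) hyy
      have hκ := dm_kap B₀ h hc hT x (by rw [hd]; exact hd0) q
      let L : W ≃ₗᵢ[ℝ] W :=
        { toLinearEquiv := (e.symm.toLinearEquiv.trans q.M.toLinearEquiv).trans e.toLinearEquiv
          norm_map' := fun v => by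
            show ‖e (q.M (e.symm v))‖ = ‖v‖
            have h1 := he (q.M (e.symm v))
            rw [q.conf, hκ, one_mul, ← he, ContinuousLinearEquiv.apply_symm_apply] at h1
            exact (sq_eq_sq₀ (norm_nonneg _) (norm_nonneg _)).mp h1 }
      have hL : ∀ v, L v = e (q.M (e.symm v)) := fun v => rfl
      have hmk : ∀ v, e.symm (mkAff L (e q.b) v) = q.M (e.symm v) + q.b := by
        intro v
        rw [mkAff_apply, hL, map_add, ContinuousLinearEquiv.symm_apply_apply,
          ContinuousLinearEquiv.symm_apply_apply]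
      refine ⟨⟨(mkAff L (e q.b), q.σ), fun z => ?_⟩, ?_⟩
      · show x.P T (e.symm (mkAff L (e q.b) z.1), q.σ z.2) = x.P T (e.symm z.1, z.2)
        rw [hmk]
        exact q.inv (e.symm z.1, z.2)
      · refine Prod.ext ?_ (show y'.2 = q.σ y.2 by simpa using congrArg Prod.snd hq)
        have h1 : e.symm y'.1 = q.M (e.symm y.1) + q.b := congrArg Prod.fst hq
        show y'.1 = mkAff L (e q.b) y.1
        apply e.symm.injective
        rw [hmk, h1]
    · rintro ⟨a, rfl⟩
      exact (a.2 y).symm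
  have hsig : ∀ (a : Dk P), (∀ v, a.1.1 v = v) → a = 1 := by
    intro a ha
    apply Subtype.ext
    refine Prod.ext ?_ ?_
    · ext v
      rw [ha v]
      rfl
    · ext s : 1
      refine dm_sig B₀ hT x a.1.2 (fun z => ?_) s
      have h1 := a.2 (e z.1, z.2)
      simp only [ha] at h1
      have h2 : ∀ (v : S.Vu p) (s : SLf S.g p), P (e v, s) = x.P T (v, s) := by
        intro v s
        show x.P T (e.symm (e v), s) = _
        rw [ContinuousLinearEquiv.symm_apply_apply]
      rw [h2, h2] at h1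
      exact h1
  have hW : ConnectedSpace (W × SLf S.g p) := inferInstance
  have hfree : ∀ (a : Dk P) (y : W × SLf S.g p), (a.1.1 y.1, a.1.2 y.2) = y → a = 1 := by
    intro a y hay
    have hcont : Continuous fun z : W × SLf S.g p => ((a.1.1 z.1, a.1.2 z.2) : W × SLf S.g p) :=
      (a.1.1.continuous.comp continuous_fst).prodMk (a.1.2.continuous.comp continuous_snd)
    have h1 : (fun z : W × SLf S.g p => ((a.1.1 z.1, a.1.2 z.2) : W × SLf S.g p)) = id :=
      hPc.eq_of_comp_eq hcont continuous_id (funext fun z => a.2 z) y hay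
    exact hsig a fun v => congrArg Prod.fst (congrFun h1 (v, y.2))
  let act : Dk P → (W × SLf S.g p) ≃ₜ (W × SLf S.g p) := fun a =>
    a.1.1.toHomeomorph.prodCongr a.1.2
  let R : RDat W (SLf S.g p) (Dk P) :=
    { L := Dk.L P
      b := fun a => a.1.1 0
      σ := Dk.σ P
      b_mul := fun a c => aff_eq a.1.1 (c.1.1 0)
      inj := fun a h1 h2 => by
        refine hsig a fun v => ?_
        have h3 : a.1.1.linearIsometryEquiv = 1 := h1
        have h4 : a.1.1 0 = 0 := h2
        rw [aff_eq, h3, h4, add_zero]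
        rfl
      A := A'
      μ := μ
      two_le := hμ2
      A_norm := hA'n
      G := G
      z0 := ⟨⟨p⟩, WS.refl _ _⟩
      G_z0 := by
        apply Subtype.ext
        apply SM.ext
        rw [hG]
        exact hp
      φ :=
        { toFun := cj A' G (S.g^[N]) μ hμ0 hA'n hPgt
          invFun := cj A'.symm G.symm (S.g.symm^[N]) μ⁻¹ (by positivity) hA'n' hPgt'
          left_inv := fun a => by
            apply Subtype.ext
            refine Prod.ext ?_ ?_
            · ext1 v
              show cjA A'.symm μ⁻¹ (inv_pos.mpr hμ0) hA'n' (cjA A' μ hμ0 hA'n a.1.1) v = a.1.1 v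
              rw [cjA_apply, cjA_apply]
              simp
            · ext1 s
              show G.symm (G (a.1.2 (G.symm (G s)))) = a.1.2 s
              simp
          right_inv := fun a => by
            apply Subtype.ext
            refine Prod.ext ?_ ?_
            · ext1 v
              show cjA A' μ hμ0 hA'n (cjA A'.symm μ⁻¹ (inv_pos.mpr hμ0) hA'n' a.1.1) v = a.1.1 v
              rw [cjA_apply, cjA_apply]
              simp
            · ext1 s
              show G (G.symm (a.1.2 (G (G.symm s)))) = a.1.2 s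
              simp
          map_mul' := fun a c => by
            apply Subtype.ext
            refine Prod.ext ?_ ?_
            · ext1 v
              show cjA A' μ hμ0 hA'n (a.1.1 * c.1.1) v =
                cjA A' μ hμ0 hA'n a.1.1 (cjA A' μ hμ0 hA'n c.1.1 v)
              rw [cjA_apply, cjA_apply, cjA_apply, ContinuousLinearEquiv.symm_apply_apply]
              rfl
            · ext1 s
              show G (a.1.2 (c.1.2 (G.symm s))) = G (a.1.2 (G.symm (G (c.1.2 (G.symm s)))))
              rw [Homeomorph.symm_apply_apply] }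
      b_φ := fun a => by
        show cjA A' μ hμ0 hA'n a.1.1 0 = A' (a.1.1 0)
        rw [cjA_apply, map_zero]
      L_φ := fun a v => by
        have h1 := aff_eq (cjA A' μ hμ0 hA'n a.1.1) (A' v)
        rw [cjA_apply, cjA_apply, ContinuousLinearEquiv.symm_apply_apply, map_zero,
          aff_eq a.1.1 v, map_add] at h1
        exact (add_right_cancel h1).symm
      G_σ := fun a s => by
        show G (a.1.2 s) = G (a.1.2 (G.symm (G s)))
        rw [Homeomorph.symm_apply_apply]
      proper := fun K K' hK hK' => by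
        have h1 := proper_of_cov_mul P hPc act (fun _ _ _ => rfl) hfree hdk K K' hK hK'
        refine h1.subset ?_
        rintro a ⟨y, hy, hy'⟩
        refine ⟨y, hy, ?_⟩
        have h2 : act a y = ((Dk.L P a) y.1 + a.1.1 0, (Dk.σ P a) y.2) :=
          Prod.ext (aff_eq a.1.1 y.1) rfl
        rw [h2]
        exact hy'
      cocompact := by
        obtain ⟨K, hK, hK'⟩ := cocompact_of_cov P hPc hPs
        refine ⟨K, hK, fun y => ?_⟩
        obtain ⟨y', hy', hyy⟩ := hK' (P y)
        obtain ⟨a, ha⟩ := (hdk y y').mp hyy.symm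
        refine ⟨a, ?_⟩
        have h1 : ((Dk.L P a) y.1 + a.1.1 0, (Dk.σ P a) y.2) = y' := by
          rw [ha]
          exact Prod.ext (aff_eq a.1.1 y.1).symm rfl
        rw [h1]
        exact hy'
      St := fun u s s' => S.SRel ε (P (u, s)) (P (u, s'))
      st_refl := fun u s k => by rw [dist_self]; exact hε.le
      st_symm := fun u s s' hs k => by rw [dist_comm]; exact hs k
      st_act := fun a u s s' hs => by
        have e1 : (Dk.L P a) u + a.1.1 0 = a.1.1 u := (aff_eq a.1.1 u).symm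
        have h1 := a.2 (u, s)
        have h3 := a.2 (u, s')
        show S.SRel ε (P ((Dk.L P a) u + a.1.1 0, a.1.2 s)) (P ((Dk.L P a) u + a.1.1 0, a.1.2 s'))
        rw [e1]
        simp only at h1 h3
        rw [h1, h3]
        exact hs
      st_two := fun u s s' s'' h1 h3 => by
        have h4 := hPgt (u, s)
        have h5 := hPgt (u, s'')
        show S.SRel ε (P (A' u, G s)) (P (A' u, G s''))
        rw [h4, h5]
        exact hstep _ _ _ h1 h3
      st_cpt := fun K hK => by
        obtain ⟨K', hK', hK''⟩ := hcpt ε hε (min_le_left _ _) (c₀ '' K) (hK.image c₀.continuous)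
        refine ⟨c₀ ⁻¹' K', c₀.isCompact_preimage.mpr hK', fun u s s' hus hs => ?_⟩
        exact hK'' (e.symm u) s s' ⟨(u, s), hus, rfl⟩ hs
      st_chain := fun B K hB hK => by
        obtain ⟨m, hm⟩ := xi_chain hc hT x ε hε (e.symm '' B) K (hB.image e.symm.continuous) hK
        refine ⟨m, fun u hu s hs s' hs' => ?_⟩
        exact hm (e.symm u) ⟨u, hu, rfl⟩ s hs s' hs'
      st_exp := fun u s s' hs => by
        apply xi_inj hT x (e.symm u) s s'
        have key : ∀ (j : ℕ) (s : SLf S.g p),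
            P (u, s) = S.g^[N * j] (P (A'.symm^[j] u, G.symm^[j] s)) := by
          intro j
          induction j with
          | zero => intro s; rfl
          | succ j ih =>
            intro s
            rw [ih s, Nat.mul_succ, Function.iterate_add_apply]
            congr 1
            rw [Function.iterate_succ_apply', Function.iterate_succ_apply']
            have h4 := hPgt (A'.symm (A'.symm^[j] u), G.symm (G.symm^[j] s))
            rw [← h4]
            congr 1
            refine Prod.ext ?_ ?_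
            · exact (A'.apply_symm_apply _).symm
            · exact (G.apply_symm_apply _).symm
        have h4 : ∀ j : ℕ, dist (P (u, s)) (P (u, s')) ≤ (1 / 8 : ℝ) ^ j * ε := by
          intro j
          rw [key j s, key j s']
          have h5 := F.geo.scontr _ _ ((hs j).mono ((min_le_right _ _).trans (by linarith)))
            (N * j)
          have h6 : (1 / 8 : ℝ) ^ (N * j) ≤ (1 / 8) ^ j :=
            pow_le_pow_of_le_one (by norm_num) (by norm_num) (Nat.le_mul_of_pos_left j hN)
          exact h5.trans (mul_le_mul h6 (hdist _ _ (hs j)) dist_nonneg (by positivity))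
        have h5 : Tendsto (fun j : ℕ => (1 / 8 : ℝ) ^ j * ε) atTop (𝓝 0) := by
          have := (tendsto_pow_atTop_nhds_zero_of_lt_one (by norm_num : (0 : ℝ) ≤ 1 / 8)
            (by norm_num)).mul_const ε
          simpa using this
        exact dist_le_zero.mp (ge_of_tendsto' h5 h4) }
  have hit : ∀ y, S.g^[N] y = (f^[n * N]) y := by
    intro y
    have : (S.g : X → X) = f^[n] := funext fun z => (hf z).symm
    rw [this, ← Function.iterate_mul]
  let gN : X ≃ₜ X :=
    { toFun := S.g^[N]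
      invFun := S.g.symm^[N]
      left_inv := iter_symm_iter S N
      right_inv := iter_iter_symm S N
      continuous_toFun := S.g.continuous.iterate N
      continuous_invFun := S.g.symm.continuous.iterate N }
  refine finToral_of_rdat R P hPc hPs (fun y y' => ?_) f gN (fun y => hPgt y) (n * N)
    (Nat.mul_pos hn hN) (fun y => (hit y).symm)
  rw [hdk]
  refine exists_congr fun a => ?_
  have h1 : R.act a y = (a.1.1 y.1, a.1.2 y.2) := Prod.ext (aff_eq a.1.1 y.1).symm rfl
  rw [h1]

end Pool.Agent.H147R2.RI
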