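import Pool.Agent.H147R2.RI.FDef

set_option autoImplicit false

namespace Pool.Agent.H147R2.RI

open Pool.Agent.H779R2.To Filter Topology

variable {V Z Γ : Type*} [NormedAddCommGroup V] [InnerProductSpace ℝ V] [MetricSpace Z] [Group Γ]

/-- J3: for a finite index normal subgroup invariant under `ψ`, a power of `ψ` acts trivially
modulo the subgroup. -/
theorem psi_pow (Δ : Subgroup Γ) [Δ.Normal] [Δ.FiniteIndex] (ψ : Γ ≃* Γ)
    (hψ : ∀ a, ψ a ∈ Δ ↔ a ∈ Δ) : ∃ k : ℕ, 1 ≤ k ∧ ∀ γ : Γ, ψ^[k] γ * γ⁻¹ ∈ Δ := by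
  classical
  have hle : Δ ≤ Δ.comap ψ.toMonoidHom := fun a ha => (hψ a).2 ha
  set g : Γ ⧸ Δ → Γ ⧸ Δ := fun x => QuotientGroup.map Δ Δ ψ.toMonoidHom hle x with hg
  have hgm : ∀ a : Γ, g (a : Γ ⧸ Δ) = ((ψ a : Γ) : Γ ⧸ Δ) := fun a => rfl
  have hinj : Function.Injective g := by
    intro x y hxy
    obtain ⟨a, rfl⟩ := QuotientGroup.mk_surjective x
    obtain ⟨b, rfl⟩ := QuotientGroup.mk_surjective y
    rw [hgm, hgm, QuotientGroup.eq_iff_div_mem, ← map_div, hψ] at hxy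
    rw [QuotientGroup.eq_iff_div_mem]
    exact hxy
  have hbij : Function.Bijective g := Finite.injective_iff_bijective.1 hinj
  set e : Equiv.Perm (Γ ⧸ Δ) := Equiv.ofBijective g hbij with he
  have hfin : Finite (Equiv.Perm (Γ ⧸ Δ)) := inferInstance
  refine ⟨orderOf e, orderOf_pos e, fun γ => ?_⟩
  have h1 : ∀ (k : ℕ) (a : Γ), (e ^ k) (a : Γ ⧸ Δ) = ((ψ^[k] a : Γ) : Γ ⧸ Δ) := by
    intro k
    induction k with
    | zero => intro a; rfl
    | succ k ih =>
      intro a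
      rw [pow_succ, Equiv.Perm.mul_apply, Function.iterate_succ_apply]
      have h2 : e (a : Γ ⧸ Δ) = ((ψ a : Γ) : Γ ⧸ Δ) := hgm a
      rw [h2, ih]
  have h3 := h1 (orderOf e) γ
  rw [pow_orderOf_eq_one, Equiv.Perm.one_apply] at h3
  have h4 := QuotientGroup.eq_iff_div_mem.1 h3.symm
  rw [div_eq_mul_inv] at h4
  exact h4

/-- J3b: elements of the group normalize the translation subgroup. -/
theorem act_norm (R : RDat V Z Γ) (Δ : Subgroup Γ) [Δ.Normal] {T : AddSubgroup V}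
    (D : TDat V Z T) (hfree : ∀ (a : Γ) (y : V × Z), R.act a y = y → a = 1) [Nonempty (V × Z)]
    (hD : ∀ y y', (∃ a ∈ Δ, y' = R.act a y) ↔ ∃ t, y' = D.act t y)
    (hcov : ∀ (γ : Γ) (t : T), ∃ t' : T, ∀ y, R.act γ (D.act t y) = D.act t' (R.act γ y))
    (γ : Γ) : ∃ θ : T ≃+ T, ∀ t y, R.act γ (D.act t y) = D.act (θ t) (R.act γ y) := by
  have huniq : ∀ (t t' : T) (y : V × Z), D.act t y = D.act t' y → t = t' := by
    intro t t' y h
    have h1 : y.1 + D.t t = y.1 + D.t t' := congrArg Prod.fst h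
    exact D.t_inj (add_left_cancel h1)
  obtain ⟨y0⟩ := (inferInstance : Nonempty (V × Z))
  choose f hf using hcov
  have hinv : ∀ (γ : Γ) (t : T), f γ⁻¹ (f γ t) = t := by
    intro γ t
    refine huniq _ _ y0 ?_
    have h1 := hf γ⁻¹ (f γ t) (R.act γ y0)
    rw [← hf γ t y0, ← R.act_mul, ← R.act_mul, inv_mul_cancel, R.act_one, R.act_one] at h1
    exact h1.symm
  refine ⟨{ toFun := f γ, invFun := f γ⁻¹, left_inv := hinv γ, right_inv := ?_, map_add' := ?_ },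
    fun t y => hf γ t y⟩
  · intro t
    have := hinv γ⁻¹ t
    rw [inv_inv] at this
    exact this
  · intro s t
    refine huniq _ _ (R.act γ y0) ?_
    rw [← hf γ (s + t) y0, D.act_add, hf γ s, hf γ t, D.act_add]

end Pool.Agent.H147R2.RI
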