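import Pool.Agent.H147R2.RI.J2
import Pool.Agent.H147R2.RI.J3
import Pool.Agent.H147R2.RI.FM

set_option autoImplicit false

namespace Pool.Agent.H147R2.RI

open Pool.Agent.H779R2.To Filter Topology

/-- `f` is topologically conjugate to a hyperbolic infra-toral automorphism: there is a covering
map `P : ℝᵐ → X` such that `f ∘ P = P ∘ A`, `A` a hyperbolic matrix in `GL(m, ℤ)`, `P` is
`ℤᵐ`-periodic and all deck transformations of `P` are affine maps with linear part in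
`GL(m, ℤ)`. -/
def InfraToral {X : Type*} [TopologicalSpace X] (f : X → X) : Prop :=
  ∃ (m : ℕ) (A : Matrix (Fin m) (Fin m) ℤ) (P : (Fin m → ℝ) → X),
    IsUnit A.det ∧ HypMat A ∧ IsCoveringMap P ∧ Function.Surjective P ∧
    (∀ x, f (P x) = P ((A.map (Int.cast : ℤ → ℝ)).mulVec x)) ∧
    (∀ (x : Fin m → ℝ) (z : Fin m → ℤ), P (x + fun i => (z i : ℝ)) = P x) ∧
    ∀ x y, P x = P y → ∃ (B : Matrix (Fin m) (Fin m) ℤ) (c : Fin m → ℝ), IsUnit B.det ∧
      y = (B.map (Int.cast : ℤ → ℝ)).mulVec x + c ∧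
      ∀ w, P ((B.map (Int.cast : ℤ → ℝ)).mulVec w + c) = P w

variable {V Z Γ : Type*} [NormedAddCommGroup V] [InnerProductSpace ℝ V] [MetricSpace Z] [Group Γ]

/-- the action as a homeomorphism -/
noncomputable def ag (R : RDat V Z Γ) (γ : Γ) : V × Z ≃ₜ V × Z where
  toFun := R.act γ
  invFun := R.act γ⁻¹
  left_inv y := by rw [← R.act_mul, inv_mul_cancel, R.act_one]
  right_inv y := by rw [← R.act_mul, mul_inv_cancel, R.act_one]
  continuous_toFun := (((R.L γ).continuous.comp continuous_fst).add continuous_const).prodMk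
    ((R.σ γ).continuous.comp continuous_snd)
  continuous_invFun := (((R.L γ⁻¹).continuous.comp continuous_fst).add continuous_const).prodMk
    ((R.σ γ⁻¹).continuous.comp continuous_snd)

/-- Abstract theorem: conjugate to a hyperbolic infra-toral automorphism. -/
theorem infra_of_rdat [FiniteDimensional ℝ V] [LocallyCompactSpace Z] [PathConnectedSpace Z]
    [SimplyConnectedSpace (V × Z)] [LocallyPathConnectedSpace (V × Z)] (R : RDat V Z Γ)
    {X : Type*} [TopologicalSpace X] [T2Space X]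
    (P : V × Z → X) (hP : IsCoveringMap P) (hs : Function.Surjective P)
    (hfib : ∀ y y', P y = P y' ↔ ∃ a, y' = R.act a y) (f g : X ≃ₜ X)
    (hg : ∀ y, P (R.gt y) = g (P y)) (n : ℕ) (hn : 1 ≤ n) (hf : ∀ x, f^[n] x = g x) :
    InfraToral f := by
  have : ConnectedSpace (V × Z) := inferInstance
  have : Nonempty Z := inferInstance
  have hfree := act_free R P hP hfib
  obtain ⟨F, hF⟩ := exists_lift P hP hs f
  obtain ⟨ψ, hψ⟩ := exists_psi' R P hP hfib f F hF
  have hFn : ∀ k y, P (F^[k] y) = f^[k] (P y) := by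
    intro k
    induction k with
    | zero => intro y; rfl
    | succ k ih =>
      intro y
      rw [Function.iterate_succ_apply', Function.iterate_succ_apply', hF, ih]
  obtain ⟨δ, hδ⟩ := exists_delta' R P hP hfib (F^[n]) R.gt (F.continuous.iterate n)
    R.gt.continuous (fun y => by rw [hFn, hf, hg])
  obtain ⟨Δ, hΔ1, hΔ2, hΔ3, hΔ4, hΔ5, k, hk, δ', hδ', hFk⟩ :=
    exists_sub R (ker_fin R) hfree F ψ hψ n hn δ hδ
  obtain ⟨hPQ, q, hq1, hq2, hq3, hq4⟩ := exists_quot R P hP hs hfib hfree Δ hΔ2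
  obtain ⟨T, D, hD1, hD2⟩ := exists_tdat' R Δ hΔ2 hΔ3 hΔ5 k hk
  obtain ⟨f', hf'⟩ := descend R Δ F ψ hψ hΔ4
  have hfibQ : ∀ y y', PQ R Δ y = PQ R Δ y' ↔ ∃ t, y' = D.act t y :=
    fun y y' => (PQ_eq R Δ y y').trans (hD2 y y')
  obtain ⟨C, h, h1, h2, h3⟩ := exists_conj D
  obtain ⟨ψT, hψT⟩ := exists_psi (PQ R Δ) hPQ D.act D.act_zero D.act_add D.act_free hfibQ f' F hf'
  obtain ⟨δ₂, hδ₂⟩ := exists_delta (PQ R Δ) hPQ D.act hfibQ (F^[n * k]) D.gt
    (F.continuous.iterate _) D.gt.continuous (fun y => by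
      rw [hFk, hD1]
      exact ((PQ_eq R Δ _ _).mpr ⟨δ', hδ', rfl⟩).symm)
  obtain ⟨A, h', hdet, hA, h4, h5⟩ :=
    conjF C h h1 h2 h3 F ψT hψT (n * k) (Nat.mul_pos hn hk) δ₂ hδ₂
  obtain ⟨K, hK, hKψ⟩ := psi_pow Δ ψ hΔ4
  have hactt : ∀ t y, ∃ a ∈ Δ, D.act t y = R.act a y := fun t y => (hD2 _ _).mpr ⟨t, rfl⟩
  have hcov : ∀ (γ : Γ) (t : T), ∃ t' : T, ∀ y, R.act γ (D.act t y) = D.act t' (R.act γ y) := by
    intro γ t
    refine exists_delta (PQ R Δ) hPQ D.act hfibQ (fun y => R.act γ (D.act t y)) (R.act γ)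
      ((ag R γ).continuous.comp (D.act t).continuous) (ag R γ).continuous (fun y => ?_)
    obtain ⟨a, ha, hay⟩ := hactt t y
    refine ((PQ_eq R Δ _ _).mpr ⟨γ * a * γ⁻¹, hΔ1.conj_mem a ha γ, ?_⟩).symm
    rw [hay, ← R.act_mul, ← R.act_mul]
    congr 1
    group
  have hψK : ∀ (j : ℕ) (γ : Γ) y, F^[j] (R.act γ y) = R.act (ψ^[j] γ) (F^[j] y) := by
    intro j
    induction j with
    | zero => intro γ y; rfl
    | succ j ih =>
      intro γ y
      rw [Function.iterate_succ_apply, hψ, ih, Function.iterate_succ_apply,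
        Function.iterate_succ_apply]
  have haff : ∀ γ : Γ, ∃ (B : Matrix (Fin C.m) (Fin C.m) ℤ) (c : Fin C.m → ℝ), IsUnit B.det ∧
      ∀ y, h' (R.act γ y) = rm B (h' y) + c := by
    intro γ
    obtain ⟨θ, hθ⟩ := act_norm R Δ D hfree hD2 hcov γ
    obtain ⟨t, ht⟩ := exists_delta (PQ R Δ) hPQ D.act hfibQ (fun y => F^[K] (R.act γ y))
      (fun y => R.act γ (F^[K] y)) ((F.continuous.iterate K).comp (ag R γ).continuous)
      ((ag R γ).continuous.comp (F.continuous.iterate K)) (fun y => by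
        refine ((PQ_eq R Δ _ _).mpr ⟨ψ^[K] γ * γ⁻¹, hKψ γ, ?_⟩).symm
        rw [hψK, ← R.act_mul, inv_mul_cancel_right])
    obtain ⟨B, c, hB, -, hBc⟩ := deck_affine D C A hdet hA h' h4 F h5 (ag R γ) θ hθ K hK t ht
    exact ⟨B, c, hB, hBc⟩
  refine ⟨C.m, A, P ∘ h'.symm, hdet, hA, hP.comp_homeomorph h'.symm,
    hs.comp h'.symm.surjective, fun x => ?_, fun x z => ?_, fun x y hxy => ?_⟩
  · show f (P (h'.symm x)) = P (h'.symm _)
    rw [← hF]
    congr 1
    rw [Homeomorph.eq_symm_apply, h5, Homeomorph.apply_symm_apply]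
  · show P (h'.symm _) = P (h'.symm x)
    have e1 : h'.symm (x + fun i => (z i : ℝ)) = D.act (C.b.symm z) (h'.symm x) := by
      rw [Homeomorph.symm_apply_eq, h4, Homeomorph.apply_symm_apply]
      congr 1
      funext i
      unfold Coo.ι
      rw [AddEquiv.apply_symm_apply]
    rw [e1]
    obtain ⟨a, _, hay⟩ := hactt (C.b.symm z) (h'.symm x)
    rw [hay]
    exact ((hfib _ _).mpr ⟨a, rfl⟩).symm
  · obtain ⟨γ, hγ⟩ := (hfib _ _).mp hxy
    obtain ⟨B, c, hB, hBc⟩ := haff γ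
    refine ⟨B, c, hB, ?_, fun w => ?_⟩
    · have e1 := hBc (h'.symm x)
      rw [← hγ, Homeomorph.apply_symm_apply, Homeomorph.apply_symm_apply] at e1
      exact e1
    · show P (h'.symm _) = P (h'.symm w)
      have e1 : h'.symm (rm B w + c) = R.act γ (h'.symm w) := by
        rw [Homeomorph.symm_apply_eq, hBc, Homeomorph.apply_symm_apply]
      have e2 : P (h'.symm (rm B w + c)) = P (h'.symm w) := by
        rw [e1]
        exact ((hfib _ _).mpr ⟨γ, rfl⟩).symm
      exact e2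

end Pool.Agent.H147R2.RI
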