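import Pool.Agent.H147R2.RI.GR
import Pool.Agent.H147R2.RI.JM

set_option autoImplicit false

namespace Pool.Agent.H147R2.RI

open Pool.Agent.H721R2 Pool.Agent.H789R2.AN Pool.Agent.H789R2.GP Pool.Agent.H779R2.An
  Pool.Agent.H779R2.To Pool.Agent.H779R2.Nu
open Filter Topology

variable {X E : Type*} [MetricSpace X] [CompactSpace X] [NormedAddCommGroup E]
  [InnerProductSpace ℝ E] [FiniteDimensional ℝ E]

/-- The data of the conformal case. -/
theorem infra_of_qs {E' : Type*} [NormedAddCommGroup E'] [NormedSpace ℝ E'] [ProperSpace E']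
    [ChartedSpace E' X] [PreconnectedSpace X] {S : HypSys X E} {F : Flat S} (B₀ : CS0 S)
    {c c' : ℝ} {T : QS S.g c} (h : LP S.g c')
    (hc : 0 < c) (hT : ∀ a s u x, T.Q a s u x ↔ QdF F a s u x) (p : X) (N : ℕ) (hN : 1 ≤ N)
    (hp : S.g^[N] p = p) {d : ℕ} (hd : Module.finrank ℝ (S.Vu p) = d) (hd0 : 0 < d)
    (f : X ≃ₜ X) (n : ℕ) (hn : 1 ≤ n) (hf : ∀ x, f^[n] x = S.g x) : InfraToral f := by
  classical
  obtain ⟨x⟩ := exists_xi F p
  obtain ⟨A, hA, hA'⟩ := exists_A S p N hN hp
  obtain ⟨G, hG⟩ := exists_G S.g p N hp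
  obtain ⟨hpc, hlc, hsc, hlp⟩ := leaf_top (E' := E') h hc T x N hN hp
  have hcov : IsCoveringMap (x.P T) := (pr_isCoveringMap h hc T p).comp_homeomorph x.Ξ.symm
  have hsurj : Function.Surjective (x.P T) := by
    have : Nonempty (S.Vu p × SLf S.g p) := ⟨x.Ξ (Leaf.base _ _)⟩
    exact covering_surj hcov
  obtain ⟨e, he⟩ := exists_coord B₀ p hd
  obtain ⟨μ, hμ2, hμ⟩ := A_sim B₀ p N hN hp A hA hA' e he
  have hμ0 : 0 < μ := by linarith
  obtain ⟨ε₁, hε₁, hcpt⟩ := xi_cpt hc hT x
  set ε := min ε₁ (F.ε₀ / 2) with hεdef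
  have hε₀ := F.geo.pos
  have hε : 0 < ε := by positivity
  have hdist : ∀ a b, S.SRel ε a b → dist a b ≤ ε := fun a b hab => hab 0
  have htri : ∀ a b d, S.SRel ε a b → S.SRel ε b d → S.SRel F.ε₀ a d := by
    intro a b d h1 h3 k
    have h4 : ε ≤ F.ε₀ / 2 := min_le_right _ _
    have := dist_triangle (S.g^[k] a) (S.g^[k] b) (S.g^[k] d)
    have h5 := h1 k
    have h6 := h3 k
    linarith
  have hstep : ∀ a b d, S.SRel ε a b → S.SRel ε b d →
      S.SRel ε (S.g^[N] a) (S.g^[N] d) := by
    intro a b d h1 h3 k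
    have h4 := F.geo.scontr a d (htri a b d h1 h3) (k + N)
    rw [← Function.iterate_add_apply, ← Function.iterate_add_apply]
    refine h4.trans ?_
    have h5 : dist a d ≤ 2 * ε := by
      have := dist_triangle a b d
      linarith [hdist a b h1, hdist b d h3]
    have h6 : (1 / 8 : ℝ) ^ (k + N) ≤ 1 / 8 := by
      obtain ⟨j, hj⟩ : ∃ j, k + N = j + 1 := ⟨k + N - 1, by omega⟩
      rw [hj, pow_succ]
      have : (1 / 8 : ℝ) ^ j ≤ 1 := pow_le_one₀ (by norm_num) (by norm_num)
      linarith
    calc (1 / 8 : ℝ) ^ (k + N) * dist a d ≤ 1 / 8 * (2 * ε) :=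
          mul_le_mul h6 h5 dist_nonneg (by norm_num)
      _ ≤ ε := by linarith
  have hgtP := xi_gt hT x N hp A hA G hG
  -- coordinates
  let W := EuclideanSpace ℝ (Fin d)
  let c₀ : (W × SLf S.g p) ≃ₜ (S.Vu p × SLf S.g p) :=
    e.symm.toHomeomorph.prodCongr (Homeomorph.refl _)
  let P : W × SLf S.g p → X := fun y => x.P T (e.symm y.1, y.2)
  have hPc : IsCoveringMap P := hcov.comp_homeomorph c₀
  have hPs : Function.Surjective P := hsurj.comp c₀.surjective
  have hsc' : SimplyConnectedSpace (W × SLf S.g p) :=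
    c₀.toHomotopyEquiv.simplyConnectedSpace
  have hlp' : LocallyPathConnectedSpace (W × SLf S.g p) :=
    c₀.isOpenEmbedding.locallyPathConnectedSpace
  let A' : W ≃L[ℝ] W := (e.symm.trans A).trans e
  have hA'n : ∀ v, ‖A' v‖ = μ * ‖v‖ := by
    intro v
    show ‖e (A (e.symm v))‖ = μ * ‖v‖
    rw [hμ, ContinuousLinearEquiv.apply_symm_apply]
  have hA'n' : ∀ v, ‖A'.symm v‖ = μ⁻¹ * ‖v‖ := by
    intro v
    have h1 := hA'n (A'.symm v)
    rw [ContinuousLinearEquiv.apply_symm_apply] at h1
    rw [h1]
    field_simp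
  have hPgt : ∀ y : W × SLf S.g p, P (A' y.1, G y.2) = S.g^[N] (P y) := by
    intro y
    show x.P T (e.symm (e (A (e.symm y.1))), G y.2) = S.g^[N] (x.P T (e.symm y.1, y.2))
    rw [ContinuousLinearEquiv.symm_apply_apply]
    exact hgtP (e.symm y.1, y.2)
  have hPgt' : ∀ y : W × SLf S.g p, P (A'.symm y.1, G.symm y.2) = S.g.symm^[N] (P y) := by
    intro y
    have h1 := hPgt (A'.symm y.1, G.symm y.2)
    simp only [ContinuousLinearEquiv.apply_symm_apply, Homeomorph.apply_symm_apply] at h1
    rw [h1, iter_symm_iter S N]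
  -- the group
  have hdk : ∀ y y' : W × SLf S.g p, P y = P y' ↔ ∃ a : Dk P, y' = (a.1.1 y.1, a.1.2 y.2) := by
    intro y y'
    constructor
    · intro hyy
      obtain ⟨q, hq⟩ := exists_dm B₀ hc hT x (e.symm y.1, y.2) (e.symm y'.1, y'.2) hyy
      have hκ := dm_kap B₀ h hc hT x (by rw [hd]; exact hd0) q
      let L : W ≃ₗᵢ[ℝ] W :=
        { toLinearEquiv := (e.symm.toLinearEquiv.trans q.M.toLinearEquiv).trans e.toLinearEquiv
          norm_map' := fun v => by
            show ‖e (q.M (e.symm v))‖ = ‖v‖
            have h1 := he (q.M (e.symm v))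
            rw [q.conf, hκ, one_mul, ← he, ContinuousLinearEquiv.apply_symm_apply] at h1
            exact (sq_eq_sq₀ (norm_nonneg _) (norm_nonneg _)).mp h1 }
      have hL : ∀ v, L v = e (q.M (e.symm v)) := fun v => rfl
      have hmk : ∀ v, e.symm (mkAff L (e q.b) v) = q.M (e.symm v) + q.b := by
        intro v
        rw [mkAff_apply, hL, map_add, ContinuousLinearEquiv.symm_apply_apply,
          ContinuousLinearEquiv.symm_apply_apply]
      refine ⟨⟨(mkAff L (e q.b), q.σ), fun z => ?_⟩, ?_⟩
      · show x.P T (e.symm (mkAff L (e q.b) z.1), q.σ z.2) = x.P T (e.symm z.1, z.2)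
        rw [hmk]
        exact q.inv (e.symm z.1, z.2)
      · refine Prod.ext ?_ (show y'.2 = q.σ y.2 by simpa using congrArg Prod.snd hq)
        have h1 : e.symm y'.1 = q.M (e.symm y.1) + q.b := congrArg Prod.fst hq
        show y'.1 = mkAff L (e q.b) y.1
        apply e.symm.injective
        rw [hmk, h1]
    · rintro ⟨a, rfl⟩
      exact (a.2 y).symm
  have hsig : ∀ (a : Dk P), (∀ v, a.1.1 v = v) → a = 1 := by
    intro a ha
    apply Subtype.ext
    refine Prod.ext ?_ ?_
    · ext v
      rw [ha v]
      rfl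
    · ext s : 1
      refine dm_sig B₀ hT x a.1.2 (fun z => ?_) s
      have h1 := a.2 (e z.1, z.2)
      simp only [ha] at h1
      have h2 : ∀ (v : S.Vu p) (s : SLf S.g p), P (e v, s) = x.P T (v, s) := by
        intro v s
        show x.P T (e.symm (e v), s) = _
        rw [ContinuousLinearEquiv.symm_apply_apply]
      rw [h2, h2] at h1
      exact h1
  have hW : ConnectedSpace (W × SLf S.g p) := inferInstance
  have hfree : ∀ (a : Dk P) (y : W × SLf S.g p), (a.1.1 y.1, a.1.2 y.2) = y → a = 1 := by
    intro a y hay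
    have hcont : Continuous fun z : W × SLf S.g p => ((a.1.1 z.1, a.1.2 z.2) : W × SLf S.g p) :=
      (a.1.1.continuous.comp continuous_fst).prodMk (a.1.2.continuous.comp continuous_snd)
    have h1 : (fun z : W × SLf S.g p => ((a.1.1 z.1, a.1.2 z.2) : W × SLf S.g p)) = id :=
      hPc.eq_of_comp_eq hcont continuous_id (funext fun z => a.2 z) y hay
    exact hsig a fun v => congrArg Prod.fst (congrFun h1 (v, y.2))
  let act : Dk P → (W × SLf S.g p) ≃ₜ (W × SLf S.g p) := fun a =>
    a.1.1.toHomeomorph.prodCongr a.1.2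
  let R : RDat W (SLf S.g p) (Dk P) :=
    { L := Dk.L P
      b := fun a => a.1.1 0
      σ := Dk.σ P
      b_mul := fun a c => aff_eq a.1.1 (c.1.1 0)
      inj := fun a h1 h2 => by
        refine hsig a fun v => ?_
        have h3 : a.1.1.linearIsometryEquiv = 1 := h1
        have h4 : a.1.1 0 = 0 := h2
        rw [aff_eq, h3, h4, add_zero]
        rfl
      A := A'
      μ := μ
      two_le := hμ2
      A_norm := hA'n
      G := G
      z0 := ⟨⟨p⟩, WS.refl _ _⟩
      G_z0 := by
        apply Subtype.ext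
        apply SM.ext
        rw [hG]
        exact hp
      φ :=
        { toFun := cj A' G (S.g^[N]) μ hμ0 hA'n hPgt
          invFun := cj A'.symm G.symm (S.g.symm^[N]) μ⁻¹ (by positivity) hA'n' hPgt'
          left_inv := fun a => by
            apply Subtype.ext
            refine Prod.ext ?_ ?_
            · ext1 v
              show cjA A'.symm μ⁻¹ (inv_pos.mpr hμ0) hA'n' (cjA A' μ hμ0 hA'n a.1.1) v = a.1.1 v
              rw [cjA_apply, cjA_apply]
              simp
            · ext1 s
              show G.symm (G (a.1.2 (G.symm (G s)))) = a.1.2 s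
              simp
          right_inv := fun a => by
            apply Subtype.ext
            refine Prod.ext ?_ ?_
            · ext1 v
              show cjA A' μ hμ0 hA'n (cjA A'.symm μ⁻¹ (inv_pos.mpr hμ0) hA'n' a.1.1) v = a.1.1 v
              rw [cjA_apply, cjA_apply]
              simp
            · ext1 s
              show G (G.symm (a.1.2 (G (G.symm s)))) = a.1.2 s
              simp
          map_mul' := fun a c => by
            apply Subtype.ext
            refine Prod.ext ?_ ?_
            · ext1 v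
              show cjA A' μ hμ0 hA'n (a.1.1 * c.1.1) v =
                cjA A' μ hμ0 hA'n a.1.1 (cjA A' μ hμ0 hA'n c.1.1 v)
              rw [cjA_apply, cjA_apply, cjA_apply, ContinuousLinearEquiv.symm_apply_apply]
              rfl
            · ext1 s
              show G (a.1.2 (c.1.2 (G.symm s))) = G (a.1.2 (G.symm (G (c.1.2 (G.symm s)))))
              rw [Homeomorph.symm_apply_apply] }
      b_φ := fun a => by
        show cjA A' μ hμ0 hA'n a.1.1 0 = A' (a.1.1 0)
        rw [cjA_apply, map_zero]
      L_φ := fun a v => by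
        have h1 := aff_eq (cjA A' μ hμ0 hA'n a.1.1) (A' v)
        rw [cjA_apply, cjA_apply, ContinuousLinearEquiv.symm_apply_apply, map_zero,
          aff_eq a.1.1 v, map_add] at h1
        exact (add_right_cancel h1).symm
      G_σ := fun a s => by
        show G (a.1.2 s) = G (a.1.2 (G.symm (G s)))
        rw [Homeomorph.symm_apply_apply]
      proper := fun K K' hK hK' => by
        have h1 := proper_of_cov_mul P hPc act (fun _ _ _ => rfl) hfree hdk K K' hK hK'
        refine h1.subset ?_
        rintro a ⟨y, hy, hy'⟩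
        refine ⟨y, hy, ?_⟩
        have h2 : act a y = ((Dk.L P a) y.1 + a.1.1 0, (Dk.σ P a) y.2) :=
          Prod.ext (aff_eq a.1.1 y.1) rfl
        rw [h2]
        exact hy'
      cocompact := by
        obtain ⟨K, hK, hK'⟩ := cocompact_of_cov P hPc hPs
        refine ⟨K, hK, fun y => ?_⟩
        obtain ⟨y', hy', hyy⟩ := hK' (P y)
        obtain ⟨a, ha⟩ := (hdk y y').mp hyy.symm
        refine ⟨a, ?_⟩
        have h1 : ((Dk.L P a) y.1 + a.1.1 0, (Dk.σ P a) y.2) = y' := by
          rw [ha]
          exact Prod.ext (aff_eq a.1.1 y.1).symm rfl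
        rw [h1]
        exact hy'
      St := fun u s s' => S.SRel ε (P (u, s)) (P (u, s'))
      st_refl := fun u s k => by rw [dist_self]; exact hε.le
      st_symm := fun u s s' hs k => by rw [dist_comm]; exact hs k
      st_act := fun a u s s' hs => by
        have e1 : (Dk.L P a) u + a.1.1 0 = a.1.1 u := (aff_eq a.1.1 u).symm
        have h1 := a.2 (u, s)
        have h3 := a.2 (u, s')
        show S.SRel ε (P ((Dk.L P a) u + a.1.1 0, a.1.2 s)) (P ((Dk.L P a) u + a.1.1 0, a.1.2 s'))
        rw [e1]
        simp only at h1 h3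
        rw [h1, h3]
        exact hs
      st_two := fun u s s' s'' h1 h3 => by
        have h4 := hPgt (u, s)
        have h5 := hPgt (u, s'')
        show S.SRel ε (P (A' u, G s)) (P (A' u, G s''))
        rw [h4, h5]
        exact hstep _ _ _ h1 h3
      st_cpt := fun K hK => by
        obtain ⟨K', hK', hK''⟩ := hcpt ε hε (min_le_left _ _) (c₀ '' K) (hK.image c₀.continuous)
        refine ⟨c₀ ⁻¹' K', c₀.isCompact_preimage.mpr hK', fun u s s' hus hs => ?_⟩
        exact hK'' (e.symm u) s s' ⟨(u, s), hus, rfl⟩ hs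
      st_chain := fun B K hB hK => by
        obtain ⟨m, hm⟩ := xi_chain hc hT x ε hε (e.symm '' B) K (hB.image e.symm.continuous) hK
        refine ⟨m, fun u hu s hs s' hs' => ?_⟩
        exact hm (e.symm u) ⟨u, hu, rfl⟩ s hs s' hs'
      st_exp := fun u s s' hs => by
        apply xi_inj hT x (e.symm u) s s'
        have key : ∀ (j : ℕ) (s : SLf S.g p),
            P (u, s) = S.g^[N * j] (P (A'.symm^[j] u, G.symm^[j] s)) := by
          intro j
          induction j with
          | zero => intro s; rfl
          | succ j ih =>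
            intro s
            rw [ih s, Nat.mul_succ, Function.iterate_add_apply]
            congr 1
            rw [Function.iterate_succ_apply', Function.iterate_succ_apply']
            have h4 := hPgt (A'.symm (A'.symm^[j] u), G.symm (G.symm^[j] s))
            rw [← h4]
            congr 1
            refine Prod.ext ?_ ?_
            · exact (A'.apply_symm_apply _).symm
            · exact (G.apply_symm_apply _).symm
        have h4 : ∀ j : ℕ, dist (P (u, s)) (P (u, s')) ≤ (1 / 8 : ℝ) ^ j * ε := by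
          intro j
          rw [key j s, key j s']
          have h5 := F.geo.scontr _ _ ((hs j).mono ((min_le_right _ _).trans (by linarith)))
            (N * j)
          have h6 : (1 / 8 : ℝ) ^ (N * j) ≤ (1 / 8) ^ j :=
            pow_le_pow_of_le_one (by norm_num) (by norm_num) (Nat.le_mul_of_pos_left j hN)
          exact h5.trans (mul_le_mul h6 (hdist _ _ (hs j)) dist_nonneg (by positivity))
        have h5 : Tendsto (fun j : ℕ => (1 / 8 : ℝ) ^ j * ε) atTop (𝓝 0) := by
          have := (tendsto_pow_atTop_nhds_zero_of_lt_one (by norm_num : (0 : ℝ) ≤ 1 / 8)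
            (by norm_num)).mul_const ε
          simpa using this
        exact dist_le_zero.mp (ge_of_tendsto' h5 h4) }
  have hit : ∀ y, S.g^[N] y = (f^[n * N]) y := by
    intro y
    have : (S.g : X → X) = f^[n] := funext fun z => (hf z).symm
    rw [this, ← Function.iterate_mul]
  let gN : X ≃ₜ X :=
    { toFun := S.g^[N]
      invFun := S.g.symm^[N]
      left_inv := iter_symm_iter S N
      right_inv := iter_iter_symm S N
      continuous_toFun := S.g.continuous.iterate N
      continuous_invFun := S.g.symm.continuous.iterate N }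
  refine infra_of_rdat R P hPc hPs (fun y y' => ?_) f gN (fun y => hPgt y) (n * N)
    (Nat.mul_pos hn hN) (fun y => (hit y).symm)
  rw [hdk]
  refine exists_congr fun a => ?_
  have h1 : R.act a y = (a.1.1 y.1, a.1.2 y.2) := Prod.ext (aff_eq a.1.1 y.1).symm rfl
  rw [h1]

end Pool.Agent.H147R2.RI
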