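import Pool.Agent.H147R2.RI.FDef
import Pool.Agent.H779R2.To.TMain

set_option autoImplicit false

namespace Pool.Agent.H147R2.RI

open Pool.Agent.H779R2.To Filter Topology

/-- the real linear map of an integer matrix -/
noncomputable def rm {m : ℕ} (A : Matrix (Fin m) (Fin m) ℤ) (v : Fin m → ℝ) : Fin m → ℝ :=
  (A.map (Int.cast : ℤ → ℝ)).mulVec v

/-- the complex linear map of an integer matrix -/
noncomputable def J1f {m : ℕ} (A : Matrix (Fin m) (Fin m) ℤ) :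
    Module.End ℂ (Fin m → ℂ) :=
  Matrix.mulVecLin (A.map (Int.castRingHom ℂ))

/-- complexification of a real vector -/
noncomputable def J1cx {m : ℕ} (x : Fin m → ℝ) : Fin m → ℂ := fun i => (x i : ℂ)

theorem J1_cx {m : ℕ} (A : Matrix (Fin m) (Fin m) ℤ) (x : Fin m → ℝ) :
    J1f A (J1cx x) = J1cx (rm A x) := by
  funext i
  show ∑ j, ((A i j : ℤ) : ℂ) * ((x j : ℝ) : ℂ) = ((∑ j, ((A i j : ℤ) : ℝ) * x j : ℝ) : ℂ)
  push_cast
  rfl

theorem J1_cx_iter {m : ℕ} (A : Matrix (Fin m) (Fin m) ℤ) (n : ℕ) (x : Fin m → ℝ) :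
    ((J1f A) ^ n) (J1cx x) = J1cx ((rm A)^[n] x) := by
  rw [Module.End.pow_apply]
  have h : Function.Semiconj J1cx (rm A) (J1f A) := fun x => (J1_cx A x).symm
  exact ((h.iterate_right n) x).symm

theorem J1_norm {m : ℕ} (x : Fin m → ℝ) : ‖J1cx x‖ ≤ ‖x‖ := by
  rw [pi_norm_le_iff_of_nonneg (norm_nonneg _)]
  intro i
  show ‖((x i : ℝ) : ℂ)‖ ≤ ‖x‖
  rw [Complex.norm_real]
  exact norm_le_pi_norm x i

theorem J1_inj {m : ℕ} (A : Matrix (Fin m) (Fin m) ℤ) (hdet : IsUnit A.det) :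
    Function.Injective (J1f A) := by
  have h1 : IsUnit (A.map (Int.castRingHom ℂ)).det := by
    have h2 := RingHom.map_det (Int.castRingHom ℂ) A
    rw [RingHom.mapMatrix_apply] at h2
    rw [← h2]
    exact hdet.map (Int.castRingHom ℂ)
  have h3 : IsUnit (A.map (Int.castRingHom ℂ)) := (Matrix.isUnit_iff_isUnit_det _).mpr h1
  exact Matrix.mulVec_injective_of_isUnit h3

/-- vectors with bounded orbit -/
def J1W {m : ℕ} (A : Matrix (Fin m) (Fin m) ℤ) (k : ℕ) : Submodule ℂ (Fin m → ℂ) where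
  carrier := {z | ∃ (M : ℝ) (v : ℕ → Fin m → ℂ), ∀ n, ‖((J1f A) ^ (k * n)) z‖ ≤ M ∧
    ((J1f A) ^ (k * n)) (v n) = z ∧ ‖v n‖ ≤ M}
  add_mem' := by
    rintro z z' ⟨M, v, h⟩ ⟨M', v', h'⟩
    refine ⟨M + M', fun n => v n + v' n, fun n => ⟨?_, ?_, ?_⟩⟩
    · rw [map_add]
      exact (norm_add_le _ _).trans (add_le_add (h n).1 (h' n).1)
    · show ((J1f A) ^ (k * n)) (v n + v' n) = _
      rw [map_add, (h n).2.1, (h' n).2.1]
    · exact (norm_add_le _ _).trans (add_le_add (h n).2.2 (h' n).2.2)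
  zero_mem' := ⟨0, fun _ => 0, fun n => by simp⟩
  smul_mem' := by
    rintro c z ⟨M, v, h⟩
    refine ⟨‖c‖ * M, fun n => c • v n, fun n => ⟨?_, ?_, ?_⟩⟩
    · rw [map_smul, norm_smul]
      exact mul_le_mul_of_nonneg_left (h n).1 (norm_nonneg _)
    · show ((J1f A) ^ (k * n)) (c • v n) = _
      rw [map_smul, (h n).2.1]
    · show ‖c • v n‖ ≤ _
      rw [norm_smul]
      exact mul_le_mul_of_nonneg_left (h n).2.2 (norm_nonneg _)

theorem J1_inv {m : ℕ} (A : Matrix (Fin m) (Fin m) ℤ) (k : ℕ) :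
    ∀ z ∈ J1W A k, J1f A z ∈ J1W A k := by
  rintro z ⟨M, v, h⟩
  have hL : ∀ x, ‖J1f A x‖ ≤ ‖LinearMap.toContinuousLinearMap (J1f A)‖ * ‖x‖ :=
    fun x => (LinearMap.toContinuousLinearMap (J1f A)).le_opNorm x
  have hc : ∀ n x, ((J1f A) ^ n) (J1f A x) = J1f A (((J1f A) ^ n) x) := by
    intro n x
    rw [← Module.End.mul_apply, ← Module.End.mul_apply, ← pow_succ, ← pow_succ']
  refine ⟨‖LinearMap.toContinuousLinearMap (J1f A)‖ * M, fun n => J1f A (v n),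
    fun n => ⟨?_, ?_, ?_⟩⟩
  · rw [hc]
    exact (hL _).trans (mul_le_mul_of_nonneg_left (h n).1 (norm_nonneg _))
  · show ((J1f A) ^ (k * n)) (J1f A (v n)) = _
    rw [hc, (h n).2.1]
  · exact (hL _).trans (mul_le_mul_of_nonneg_left (h n).2.2 (norm_nonneg _))

/-- J1: a hyperbolic matrix has no nonzero vector with bounded two-sided orbit. -/
theorem hyp_of_hypmat {m : ℕ} (A : Matrix (Fin m) (Fin m) ℤ) (hdet : IsUnit A.det)
    (hA : HypMat A) (k : ℕ) (hk : 1 ≤ k) (v : ℕ → Fin m → ℝ) (w : Fin m → ℝ) (M : ℝ)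
    (h1 : ∀ n, ‖(rm A)^[k * n] w‖ ≤ M) (h2 : ∀ n, (rm A)^[k * n] (v n) = w)
    (h3 : ∀ n, ‖v n‖ ≤ M) : w = 0 := by
  by_contra hw
  have hinj : Function.Injective (J1f A) := J1_inj A hdet
  have hwW : J1cx w ∈ J1W A k := by
    refine ⟨M, fun n => J1cx (v n), fun n => ⟨?_, ?_, ?_⟩⟩
    · rw [J1_cx_iter]
      exact (J1_norm _).trans (h1 n)
    · show ((J1f A) ^ (k * n)) (J1cx (v n)) = _
      rw [J1_cx_iter, h2 n]
    · exact (J1_norm _).trans (h3 n)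
  have hw0 : J1cx w ≠ 0 := by
    intro h
    apply hw
    funext i
    have h4 : ((w i : ℝ) : ℂ) = 0 := congrFun h i
    exact Complex.ofReal_eq_zero.mp h4
  haveI : Nontrivial (J1W A k) :=
    ⟨⟨⟨J1cx w, hwW⟩, 0, fun h => hw0 (congrArg Subtype.val h)⟩⟩
  obtain ⟨μ, hμ⟩ := Module.End.exists_eigenvalue ((J1f A).restrict (J1_inv A k))
  obtain ⟨z, hz⟩ := hμ.exists_hasEigenvector
  have hz0 : (z : Fin m → ℂ) ≠ 0 := fun h => hz.2 (Subtype.ext h)
  have hz1 : J1f A (z : Fin m → ℂ) = μ • (z : Fin m → ℂ) := by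
    have h4 := hz.apply_eq_smul
    exact congrArg Subtype.val h4
  obtain ⟨M', u, hu⟩ := z.2
  have hpow : ∀ n : ℕ, ((J1f A) ^ n) (z : Fin m → ℂ) = μ ^ n • (z : Fin m → ℂ) := by
    intro n
    induction n with
    | zero => simp
    | succ n ih => rw [pow_succ', Module.End.mul_apply, ih, map_smul, hz1, smul_smul, pow_succ]
  have hμ0 : μ ≠ 0 := by
    intro h
    apply hz0
    apply hinj
    rw [hz1, h, zero_smul, map_zero]
  have hzn : 0 < ‖(z : Fin m → ℂ)‖ := norm_pos_iff.mpr hz0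
  have hinjn : ∀ n : ℕ, Function.Injective ((J1f A) ^ n) := by
    intro n
    rw [Module.End.coe_pow]
    exact hinj.iterate n
  have hun : ∀ n : ℕ, u n = (μ ^ (k * n))⁻¹ • (z : Fin m → ℂ) := by
    intro n
    apply hinjn (k * n)
    rw [(hu n).2.1, map_smul, hpow, smul_smul, inv_mul_cancel₀ (pow_ne_zero _ hμ0), one_smul]
  have hle : ‖μ‖ ≤ 1 := by
    by_contra hgt
    push Not at hgt
    obtain ⟨n, hn⟩ := pow_unbounded_of_one_lt (M' / ‖(z : Fin m → ℂ)‖)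
      (one_lt_pow₀ hgt (by omega : k ≠ 0))
    have h := (hu n).1
    rw [hpow, norm_smul, norm_pow, pow_mul] at h
    rw [div_lt_iff₀ hzn] at hn
    linarith
  have hge : 1 ≤ ‖μ‖ := by
    by_contra hlt
    push Not at hlt
    have h1' : 1 < (‖μ‖⁻¹) ^ k :=
      one_lt_pow₀ ((one_lt_inv₀ (norm_pos_iff.mpr hμ0)).mpr hlt) (by omega)
    obtain ⟨n, hn⟩ := pow_unbounded_of_one_lt (M' / ‖(z : Fin m → ℂ)‖) h1'
    have h := (hu n).2.2
    rw [hun, norm_smul, norm_inv, norm_pow, pow_mul] at h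
    rw [div_lt_iff₀ hzn, inv_pow, inv_pow] at hn
    linarith
  have h1μ : ‖μ‖ = 1 := le_antisymm hle hge
  apply hA μ h1μ
  show Polynomial.eval μ _ = 0
  rw [Matrix.eval_charpoly, ← Matrix.exists_mulVec_eq_zero_iff]
  refine ⟨(z : Fin m → ℂ), hz0, ?_⟩
  rw [Matrix.sub_mulVec, sub_eq_zero]
  have h5 : (Matrix.scalar (Fin m) μ).mulVec (z : Fin m → ℂ) = μ • (z : Fin m → ℂ) := by
    funext i
    rw [Matrix.scalar_apply, Matrix.mulVec_diagonal]
    rfl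
  rw [h5, ← hz1]
  rfl

end Pool.Agent.H147R2.RI
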