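import Pool.Agent.H147R2.RI.J1

set_option autoImplicit false

namespace Pool.Agent.H147R2.RI

open Pool.Agent.H779R2.To Filter Topology

variable {V Z Γ : Type*} [NormedAddCommGroup V] [InnerProductSpace ℝ V] [MetricSpace Z]
  [AddCommGroup Γ]

/-- the real map as a linear map -/
noncomputable def J2L {m : ℕ} (A : Matrix (Fin m) (Fin m) ℤ) : (Fin m → ℝ) →ₗ[ℝ] (Fin m → ℝ) :=
  Matrix.mulVecLin (A.map (Int.cast : ℤ → ℝ))

theorem J2L_eq {m : ℕ} (A : Matrix (Fin m) (Fin m) ℤ) (v : Fin m → ℝ) : J2L A v = rm A v := rfl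

theorem J2_pow {m : ℕ} (A : Matrix (Fin m) (Fin m) ℤ) (n : ℕ) (v : Fin m → ℝ) :
    (rm A)^[n] v = (J2L A ^ n) v := by
  rw [Module.End.pow_apply]
  rfl

theorem J2_sub {m : ℕ} (A : Matrix (Fin m) (Fin m) ℤ) (n : ℕ) (v w : Fin m → ℝ) :
    (rm A)^[n] (v - w) = (rm A)^[n] v - (rm A)^[n] w := by
  rw [J2_pow, J2_pow, J2_pow, map_sub]

theorem J2_add {m : ℕ} (A : Matrix (Fin m) (Fin m) ℤ) (v w : Fin m → ℝ) :
    rm A (v + w) = rm A v + rm A w := by
  rw [← J2L_eq, ← J2L_eq, ← J2L_eq, map_add]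

theorem J2_actinj (D : TDat V Z Γ) {x z : Γ} {y : V × Z} (h : D.act x y = D.act z y) : x = z := by
  have h1 : D.act (x - z) (D.act z y) = D.act z y := by
    rw [← D.act_add, sub_add_cancel, h]
  exact sub_eq_zero.1 (D.act_free _ _ h1)

/-- the action of an integer matrix on the group -/
noncomputable def J2α {D : TDat V Z Γ} (C : Coo D) (A : Matrix (Fin C.m) (Fin C.m) ℤ) (t : Γ) :
    Γ := C.b.symm (A.mulVec (C.b t))

theorem J2α_ι {D : TDat V Z Γ} (C : Coo D) (A : Matrix (Fin C.m) (Fin C.m) ℤ) (t : Γ) :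
    C.ι (J2α C A t) = rm A (C.ι t) := by
  funext i
  have h := RingHom.map_mulVec (Int.castRingHom ℝ) A (C.b t) i
  unfold J2α Coo.ι
  rw [AddEquiv.apply_symm_apply]
  exact h

theorem J2α_iter {D : TDat V Z Γ} (C : Coo D) (A : Matrix (Fin C.m) (Fin C.m) ℤ) (n : ℕ) (t : Γ) :
    C.ι ((J2α C A)^[n] t) = (rm A)^[n] (C.ι t) := by
  have h : Function.Semiconj C.ι (J2α C A) (rm A) := fun a => J2α_ι C A a
  exact (h.iterate_right n) t

/-- J2: maps normalizing the lattice and almost commuting with a power of `F` are affine. -/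
theorem deck_affine (D : TDat V Z Γ) (C : Coo D) (A : Matrix (Fin C.m) (Fin C.m) ℤ)
    (hdet : IsUnit A.det) (hA : HypMat A) (h : V × Z ≃ₜ (Fin C.m → ℝ))
    (h4 : ∀ a y, h (D.act a y) = h y + C.ι a) (F : V × Z ≃ₜ V × Z)
    (h5 : ∀ y, h (F y) = rm A (h y)) (γ : V × Z ≃ₜ V × Z) (θ : Γ ≃+ Γ)
    (hθ : ∀ a y, γ (D.act a y) = D.act (θ a) (γ y)) (k : ℕ) (hk : 1 ≤ k) (a : Γ)
    (hγ : ∀ y, F^[k] (γ y) = D.act a (γ (F^[k] y))) :
    ∃ (B : Matrix (Fin C.m) (Fin C.m) ℤ) (c : Fin C.m → ℝ), IsUnit B.det ∧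
      (∀ t, C.ι (θ t) = rm B (C.ι t)) ∧ ∀ y, h (γ y) = rm B (h y) + c := by
  have hB : ∀ t, C.ι (θ t) = rm (cfA C θ) (C.ι t) := fun t => (cfP_ι C θ t).symm
  have hAk : ∀ (j : ℕ) y, h (F^[j] y) = (rm A)^[j] (h y) := by
    intro j y
    have hs : Function.Semiconj h F (rm A) := h5
    exact (hs.iterate_right j) y
  have hF1 : ∀ t y, F (D.act t y) = D.act (J2α C A t) (F y) := by
    intro t y
    apply h.injective
    rw [h5, h4, h4, h5, J2α_ι, J2_add]
  have hFj : ∀ (j : ℕ) t y, F^[j] (D.act t y) = D.act ((J2α C A)^[j] t) (F^[j] y) := by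
    intro j
    induction j with
    | zero => intro t y; rfl
    | succ j ih =>
      intro t y
      rw [Function.iterate_succ_apply, Function.iterate_succ_apply, Function.iterate_succ_apply,
        hF1, ih]
  have hcomm : ∀ t, (J2α C A)^[k] (θ t) = θ ((J2α C A)^[k] t) := by
    intro t
    let y : V × Z := h.symm 0
    have e1 := hγ (D.act t y)
    rw [hθ, hFj, hFj, hθ, hγ y, ← D.act_add, ← D.act_add] at e1
    have e2 := J2_actinj D e1
    rw [add_comm a] at e2
    exact add_right_cancel e2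
  have hlin : ∀ x, (rm A)^[k] (rm (cfA C θ) x) = rm (cfA C θ) ((rm A)^[k] x) := by
    have e : (J2L A ^ k) ∘ₗ (J2L (cfA C θ)) = (J2L (cfA C θ)) ∘ₗ (J2L A ^ k) := by
      refine (Pi.basisFun ℝ (Fin C.m)).ext fun i => ?_
      rw [Pi.basisFun_apply, ← cf_single C i]
      generalize C.b.symm (Pi.single i 1) = t
      rw [LinearMap.comp_apply, LinearMap.comp_apply, J2L_eq, J2L_eq, ← hB, ← J2_pow, ← J2_pow,
        ← J2α_iter, ← J2α_iter, hcomm, hB]
    intro x
    have e1 := congrArg (fun L : (Fin C.m → ℝ) →ₗ[ℝ] (Fin C.m → ℝ) => L x) e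
    simp only [LinearMap.comp_apply] at e1
    rw [J2_pow, J2_pow]
    exact e1
  let g : V × Z → (Fin C.m → ℝ) := fun y => h (γ y) - rm (cfA C θ) (h y)
  have hgact : ∀ t y, g (D.act t y) = g y := by
    intro t y
    show h (γ (D.act t y)) - rm (cfA C θ) (h (D.act t y)) = h (γ y) - rm (cfA C θ) (h y)
    rw [hθ, h4, h4, J2_add, hB]
    abel
  have hgc : Continuous g := by
    have e1 : Continuous (rm (cfA C θ)) :=
      (J2L (cfA C θ)).continuous_of_finiteDimensional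
    exact (h.continuous.comp γ.continuous).sub (e1.comp h.continuous)
  obtain ⟨M₀, hM₀⟩ : ∃ M₀, ∀ y, ‖g y‖ ≤ M₀ := by
    obtain ⟨K, hK, hK2⟩ := D.cocompact
    obtain ⟨M₀, hM⟩ := hK.exists_bound_of_continuousOn hgc.continuousOn
    refine ⟨M₀, fun y => ?_⟩
    obtain ⟨t, ht⟩ := hK2 y
    rw [← hgact t y]
    exact hM _ ht
  have hgk : ∀ y, (rm A)^[k] (g y) = g (F^[k] y) + C.ι a := by
    intro y
    show (rm A)^[k] (h (γ y) - rm (cfA C θ) (h y)) =
      h (γ (F^[k] y)) - rm (cfA C θ) (h (F^[k] y)) + C.ι a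
    rw [J2_sub, hlin, ← hAk, ← hAk, hγ, h4]
    abel
  have hgd : ∀ y y', (rm A)^[k] (g y - g y') = g (F^[k] y) - g (F^[k] y') := by
    intro y y'
    rw [J2_sub, hgk, hgk]
    abel
  have hgn : ∀ (n : ℕ) y y', (rm A)^[k * n] (g y - g y') = g (F^[k * n] y) - g (F^[k * n] y') := by
    intro n
    induction n with
    | zero => intro y y'; simp
    | succ n ih =>
      intro y y'
      have e : k * (n + 1) = k * n + k := by ring
      rw [e, Function.iterate_add_apply, Function.iterate_add_apply, Function.iterate_add_apply,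
        hgd, ih]
  have hnorm : ∀ y y', ‖g y - g y'‖ ≤ 2 * M₀ := by
    intro y y'
    have e1 := norm_sub_le (g y) (g y')
    have e2 := hM₀ y
    have e3 := hM₀ y'
    linarith
  have hinv : ∀ (n : ℕ) y, F^[n] (F.symm^[n] y) = y := by
    intro n y
    have hl : Function.RightInverse F.symm F := F.apply_symm_apply
    exact hl.iterate n y
  have hconst : ∀ y y', g y = g y' := by
    intro y y'
    have e := hyp_of_hypmat A hdet hA k hk
      (fun n => g (F.symm^[k * n] y) - g (F.symm^[k * n] y')) (g y - g y') (2 * M₀)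
      (fun n => by rw [hgn]; exact hnorm _ _)
      (fun n => by
        show (rm A)^[k * n] (g (F.symm^[k * n] y) - g (F.symm^[k * n] y')) = _
        rw [hgn, hinv, hinv])
      (fun n => hnorm _ _)
    exact sub_eq_zero.1 e
  refine ⟨cfA C θ, g (h.symm 0), cfA_det C θ, hB, fun y => ?_⟩
  rw [hconst (h.symm 0) y]
  show h (γ y) = rm (cfA C θ) (h y) + (h (γ y) - rm (cfA C θ) (h y))
  abel

end Pool.Agent.H147R2.RI
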