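import Mathlib

set_option autoImplicit false

namespace Pool.Agent.H147R2.RI

open Filter Topology

/-- The fibres of a periodic covering map are finite unions of orbits of the lattice. -/
theorem fib_fin {m : ℕ} {X : Type*} [TopologicalSpace X] [T2Space X] (P : (Fin m → ℝ) → X)
    (hP : IsCoveringMap P)
    (hz : ∀ (x : Fin m → ℝ) (z : Fin m → ℤ), P (x + fun i => (z i : ℝ)) = P x) (a : X) :
    ∃ S : Finset (Fin m → ℝ), ∀ x, P x = a → ∃ s ∈ S, ∃ z : Fin m → ℤ,
      x = s + fun i => (z i : ℝ) := by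
  classical
  have hcl : IsClosed (P ⁻¹' {a}) := isClosed_singleton.preimage hP.continuous
  have hcpt : IsCompact (Set.Icc (0 : Fin m → ℝ) 1 ∩ P ⁻¹' {a}) := isCompact_Icc.inter_right hcl
  have hfin : (Set.Icc (0 : Fin m → ℝ) 1 ∩ P ⁻¹' {a}).Finite := by
    have hdisc : DiscreteTopology (P ⁻¹' {a}) := (hP a).discreteTopology_fiber
    refine hcpt.finite ?_
    exact ⟨DiscreteTopology.of_subset hdisc Set.inter_subset_right⟩
  refine ⟨hfin.toFinset, fun x hx => ?_⟩
  refine ⟨fun i => Int.fract (x i), ?_, fun i => ⌊x i⌋, ?_⟩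
  · rw [Set.Finite.mem_toFinset]
    refine ⟨⟨fun i => Int.fract_nonneg _, fun i => (Int.fract_lt_one _).le⟩, ?_⟩
    show P (fun i => Int.fract (x i)) = a
    rw [← hx, ← hz (fun i => Int.fract (x i)) (fun i => ⌊x i⌋)]
    congr 1
    funext i
    show Int.fract (x i) + (⌊x i⌋ : ℝ) = x i
    exact Int.fract_add_floor _
  · funext i
    show x i = Int.fract (x i) + (⌊x i⌋ : ℝ)
    exact (Int.fract_add_floor _).symm

end Pool.Agent.H147R2.RI
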